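import Pool.Agent.Helper56.CN.Seg

/-!
# Project CN (helper56), module Arg4
The arguments of two permutation points that differ by a transposition.
-/

set_option autoImplicit false
set_option linter.unusedSectionVars false

namespace Pool.Agent.Helper56.CN

open Matrix Complex Filter Topology
open scoped ComplexConjugate

variable {n : Type*} [Fintype n] [DecidableEq n]

private theorem a4_re_pos {a b : ℂ} (h : ‖a‖ < ‖b‖) : 0 < (1 + a / b).re := by
  have hb : 0 < ‖b‖ := lt_of_le_of_lt (norm_nonneg a) h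
  have h1 : ‖a / b‖ < 1 := by
    rw [norm_div]
    exact (div_lt_one hb).2 h
  have h2 := Complex.abs_re_le_norm (a / b)
  have h3 := abs_le.1 h2
  rw [Complex.add_re, Complex.one_re]
  linarith [h3.1]

private theorem a4_polar (w : ℂ) : w = (‖w‖ : ℂ) * Complex.exp ((w.arg : ℂ) * I) :=
  (Complex.norm_mul_exp_arg_mul_I w).symm

private theorem a4_mul (w1 w2 : ℂ) : w1 * w2 = ((‖w1‖ * ‖w2‖ : ℝ) : ℂ) *
      Complex.exp (((w1.arg + w2.arg : ℝ) : ℂ) * I) := by
  have e1 := a4_polar w1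
  have e2 := a4_polar w2
  have e3 : Complex.exp (((w1.arg + w2.arg : ℝ) : ℂ) * I) =
      Complex.exp ((w1.arg : ℂ) * I) * Complex.exp ((w2.arg : ℂ) * I) := by
    rw [← Complex.exp_add]
    congr 1
    push_cast
    ring
  rw [e3]
  push_cast
  calc w1 * w2 = ((‖w1‖ : ℂ) * Complex.exp ((w1.arg : ℂ) * I)) *
        ((‖w2‖ : ℂ) * Complex.exp ((w2.arg : ℂ) * I)) := by rw [← e1, ← e2]
    _ = _ := by ring

private theorem a4_norm {a : ℂ} {c : ℝ} {t : ℝ} (h : ‖a‖ < c) (ht0 : 0 ≤ t) (ht1 : t ≤ 1) :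
    ‖(t : ℂ) * a‖ < c := by
  rw [norm_mul, Complex.norm_real, Real.norm_of_nonneg ht0]
  refine lt_of_le_of_lt ?_ h
  exact mul_le_of_le_one_left (norm_nonneg a) ht1

private theorem a4_cont {a b : ℂ} (h : ‖a‖ < ‖b‖) :
    ContinuousOn (fun t : ℝ => Complex.arg (1 + (t : ℂ) * a / b)) (Set.Icc 0 1) := by
  intro t ht
  refine ContinuousAt.continuousWithinAt ?_
  have h1 : (1 + (t : ℂ) * a / b) ∈ Complex.slitPlane :=
    Or.inl (a4_re_pos (a4_norm h ht.1 ht.2))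
  have h2 : ContinuousAt (fun t : ℝ => 1 + (t : ℂ) * a / b) t := by
    refine Continuous.continuousAt ?_
    fun_prop
  exact ContinuousAt.comp' (f := fun t : ℝ => 1 + (t : ℂ) * a / b) (g := Complex.arg)
    (Complex.continuousAt_arg h1) h2

/-- the arguments of the two products differ by less than a half turn -/
theorem arg_four {a1 a2 b1 b2 : ℂ} (h11 : ‖a1‖ < ‖b1‖) (h12 : ‖a1‖ < ‖b2‖) (h21 : ‖a2‖ < ‖b1‖)
    (h22 : ‖a2‖ < ‖b2‖) :
    |Complex.arg (1 + a1 / b1) + Complex.arg (1 + a2 / b2) - Complex.arg (1 + a1 / b2)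
      - Complex.arg (1 + a2 / b1)| < Real.pi := by
  by_contra hcon
  rw [not_lt] at hcon
  set g : ℝ → ℝ := fun t => Complex.arg (1 + (t : ℂ) * a1 / b1) + Complex.arg (1 + (t : ℂ) * a2 / b2)
    - Complex.arg (1 + (t : ℂ) * a1 / b2) - Complex.arg (1 + (t : ℂ) * a2 / b1) with hg
  have hgc : ContinuousOn (fun t => |g t|) (Set.Icc (0 : ℝ) 1) :=
    ((((a4_cont h11).add (a4_cont h22)).sub (a4_cont h12)).sub (a4_cont h21)).abs
  have hg0 : |g 0| = 0 := by
    simp [hg]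
  have hg1 : Real.pi ≤ |g 1| := by
    simpa [hg] using hcon
  obtain ⟨t, ht, htg⟩ := intermediate_value_Icc (zero_le_one) hgc
    (show Real.pi ∈ Set.Icc (|g 0|) (|g 1|) from ⟨by rw [hg0]; exact Real.pi_pos.le, hg1⟩)
  have hb1 : b1 ≠ 0 := fun h => by
    rw [h, norm_zero] at h11
    exact absurd h11 (not_lt.2 (norm_nonneg _))
  have hb2 : b2 ≠ 0 := fun h => by
    rw [h, norm_zero] at h12
    exact absurd h12 (not_lt.2 (norm_nonneg _))
  -- the exponential is `-1`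
  have hexp : Complex.exp ((g t : ℂ) * I) = -1 := by
    have htg' : |g t| = Real.pi := htg
    rcases (abs_eq Real.pi_pos.le).1 htg' with h | h
    · rw [h]
      exact Complex.exp_pi_mul_I
    · rw [h]
      push_cast
      rw [neg_mul, Complex.exp_neg, Complex.exp_pi_mul_I]
      norm_num
  have n11 := a4_norm h11 ht.1 ht.2
  have n12 := a4_norm h12 ht.1 ht.2
  have n21 := a4_norm h21 ht.1 ht.2
  have n22 := a4_norm h22 ht.1 ht.2
  have p11 := a4_re_pos n11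
  have p12 := a4_re_pos n12
  have p21 := a4_re_pos n21
  have p22 := a4_re_pos n22
  set w11 : ℂ := 1 + (t : ℂ) * a1 / b1 with hw11
  set w12 : ℂ := 1 + (t : ℂ) * a1 / b2 with hw12
  set w21 : ℂ := 1 + (t : ℂ) * a2 / b1 with hw21
  set w22 : ℂ := 1 + (t : ℂ) * a2 / b2 with hw22
  have hne : ∀ {w : ℂ}, 0 < w.re → 0 < ‖w‖ := by
    intro w hw
    refine norm_pos_iff.2 ?_
    intro h
    rw [h] at hw
    simp at hw
  have hgt : g t = w11.arg + w22.arg - w12.arg - w21.arg := rfl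
  have hprod : Complex.exp (((w11.arg + w22.arg : ℝ) : ℂ) * I) =
      - Complex.exp (((w12.arg + w21.arg : ℝ) : ℂ) * I) := by
    have h1 : ((w11.arg + w22.arg : ℝ) : ℂ) * I =
        (g t : ℂ) * I + ((w12.arg + w21.arg : ℝ) : ℂ) * I := by
      rw [hgt]
      push_cast
      ring
    rw [h1, Complex.exp_add, hexp]
    ring
  have hA : w11 * w22 = ((‖w11‖ * ‖w22‖ : ℝ) : ℂ) *
      Complex.exp (((w11.arg + w22.arg : ℝ) : ℂ) * I) := a4_mul w11 w22
  have hB : w12 * w21 = ((‖w12‖ * ‖w21‖ : ℝ) : ℂ) *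
      Complex.exp (((w12.arg + w21.arg : ℝ) : ℂ) * I) := a4_mul w12 w21
  have hzero : ((‖w12‖ * ‖w21‖ : ℝ) : ℂ) * (w11 * w22) +
      ((‖w11‖ * ‖w22‖ : ℝ) : ℂ) * (w12 * w21) = 0 := by
    rw [hA, hB, hprod]
    ring
  have hx : 0 < ‖w12‖ * ‖w21‖ := mul_pos (hne p12) (hne p21)
  have hy : 0 < ‖w11‖ * ‖w22‖ := mul_pos (hne p11) (hne p22)
  refine seg_ne n11 n12 n21 n22 hx.le hy.le (add_pos hx hy) ?_
  have m11 : (t : ℂ) * a1 + b1 = b1 * w11 := by
    rw [hw11]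
    field_simp
    ring
  have m12 : (t : ℂ) * a1 + b2 = b2 * w12 := by
    rw [hw12]
    field_simp
    ring
  have m21 : (t : ℂ) * a2 + b1 = b1 * w21 := by
    rw [hw21]
    field_simp
    ring
  have m22 : (t : ℂ) * a2 + b2 = b2 * w22 := by
    rw [hw22]
    field_simp
    ring
  rw [m11, m12, m21, m22]
  calc ((‖w12‖ * ‖w21‖ : ℝ) : ℂ) * (b1 * w11 * (b2 * w22)) +
        ((‖w11‖ * ‖w22‖ : ℝ) : ℂ) * (b2 * w12 * (b1 * w21))
      = b1 * b2 * (((‖w12‖ * ‖w21‖ : ℝ) : ℂ) * (w11 * w22) +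
        ((‖w11‖ * ‖w22‖ : ℝ) : ℂ) * (w12 * w21)) := by ring
    _ = 0 := by rw [hzero, mul_zero]

end Pool.Agent.Helper56.CN
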