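import Pool.Agent.Helper56.CN.Defs

/-!
# Project CN (helper56), module ConeArg
A planar lemma on arguments.
-/

set_option autoImplicit false
set_option linter.unusedSectionVars false

namespace Pool.Agent.Helper56.CN

open Matrix Complex Filter Topology
open scoped ComplexConjugate

variable {n : Type*} [Fintype n] [DecidableEq n]

private theorem coneArg_slope {Z W : ℂ} (h1 : 0 < Z.re) (hW : 0 < W.re)
    (h : Complex.arg Z ≤ Complex.arg W) : Z.im / Z.re ≤ W.im / W.re := by
  have hz := Complex.abs_arg_lt_pi_div_two_iff.2 (Or.inl h1)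
  have hw := Complex.abs_arg_lt_pi_div_two_iff.2 (Or.inl hW)
  rw [abs_lt] at hz hw
  have h2 : Real.tan (Complex.arg Z) ≤ Real.tan (Complex.arg W) :=
    Real.strictMonoOn_tan.monotoneOn ⟨hz.1, hz.2⟩ ⟨hw.1, hw.2⟩ h
  rwa [Complex.tan_arg, Complex.tan_arg] at h2

theorem cone_of_arg {Z1 Z2 W : ℂ} (h1 : 0 < Z1.re) (h2 : 0 < Z2.re) (hW : 0 < W.re)
    (h : Complex.arg Z1 ≤ Complex.arg W) (h' : Complex.arg W ≤ Complex.arg Z2) :
    ∃ x y : ℝ, 0 ≤ x ∧ 0 ≤ y ∧ 0 < x + y ∧ W = x * Z1 + y * Z2 := by
  have s1 := coneArg_slope h1 hW h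
  have s2 := coneArg_slope hW h2 h'
  set a : ℝ := Z1.im / Z1.re with ha
  set w : ℝ := W.im / W.re with hw
  set b : ℝ := Z2.im / Z2.re with hb
  have e1 : Z1.im = a * Z1.re := by rw [ha]; field_simp
  have e2 : Z2.im = b * Z2.re := by rw [hb]; field_simp
  have e3 : W.im = w * W.re := by rw [hw]; field_simp
  rcases eq_or_lt_of_le (s1.trans s2) with hab | hab
  · have h3 : w = a := le_antisymm (s2.trans hab.ge) s1
    refine ⟨W.re / Z1.re, 0, by positivity, le_rfl, by positivity, ?_⟩
    apply Complex.ext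
    · simp
      field_simp
    · simp
      rw [e1, e3, h3]
      field_simp
  · have hd : 0 < b - a := sub_pos.2 hab
    have hx : 0 ≤ W.re * (b - w) / ((b - a) * Z1.re) := by
      have : 0 ≤ b - w := sub_nonneg.2 s2
      positivity
    have hy : 0 ≤ W.re * (w - a) / ((b - a) * Z2.re) := by
      have : 0 ≤ w - a := sub_nonneg.2 s1
      positivity
    have hre : W.re * (b - w) / ((b - a) * Z1.re) * Z1.re +
        W.re * (w - a) / ((b - a) * Z2.re) * Z2.re = W.re := by
      field_simp
      ring
    have him : W.re * (b - w) / ((b - a) * Z1.re) * Z1.im +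
        W.re * (w - a) / ((b - a) * Z2.re) * Z2.im = W.im := by
      rw [e1, e2, e3]
      field_simp
      ring
    refine ⟨_, _, hx, hy, ?_, ?_⟩
    · rcases eq_or_lt_of_le hx with h0 | h0
      · rcases eq_or_lt_of_le hy with h4 | h4
        · exfalso
          rw [← h0, ← h4] at hre
          simp only [zero_mul, add_zero] at hre
          exact hW.ne hre
        · exact add_pos_of_nonneg_of_pos hx h4
      · exact add_pos_of_pos_of_nonneg h0 hy
    · apply Complex.ext
      · rw [Complex.add_re, Complex.re_ofReal_mul, Complex.re_ofReal_mul, hre]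
      · rw [Complex.add_im, Complex.im_ofReal_mul, Complex.im_ofReal_mul, him]

end Pool.Agent.Helper56.CN
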