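import Pool.Agent.Helper56.CN.Defs

/-!
# Project CN (helper56), module Conj
Complex conjugation.
-/

set_option autoImplicit false
set_option linter.unusedSectionVars false

namespace Pool.Agent.Helper56.CN

open Matrix Complex Filter Topology
open scoped ComplexConjugate

variable {n : Type*} [Fintype n] [DecidableEq n]

theorem Sep.conj {a b : n → ℂ} (hs : Sep a b) : Sep (fun i => conj (a i)) (fun j => conj (b j)) := by
  intro i j
  simpa only [RCLike.norm_conj] using hs i j

private theorem KK_conj (a : n → ℂ) (U : Matrix n n ℂ) :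
    KK (fun i => conj (a i)) U = star (KK a U) := by
  unfold KK
  rw [star_mul, star_mul, star_star, mul_assoc]
  congr 2
  rw [star_eq_conjTranspose, diagonal_conjTranspose]
  rfl

private theorem diag_conj (b : n → ℂ) :
    (diagonal fun j => conj (b j)) = star (diagonal b : Matrix n n ℂ) := by
  rw [star_eq_conjTranspose, diagonal_conjTranspose]
  rfl

private theorem integrand_conj (a b : n → ℂ) (U : Matrix n n ℂ) (t : ℝ) :
    ((((t : ℂ) • KK (fun i => conj (a i)) U + diagonal fun j => conj (b j))⁻¹ *
      KK (fun i => conj (a i)) U).trace).im =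
      -((((t : ℂ) • KK a U + diagonal b)⁻¹ * KK a U).trace).im := by
  have h1 : (t : ℂ) • KK (fun i => conj (a i)) U + diagonal (fun j => conj (b j)) =
      ((t : ℂ) • KK a U + diagonal b)ᴴ := by
    rw [KK_conj, diag_conj, conjTranspose_add, conjTranspose_smul, star_eq_conjTranspose,
      star_eq_conjTranspose]
    congr 2
    exact (Complex.conj_ofReal t).symm
  rw [h1, ← conjTranspose_nonsing_inv, KK_conj, star_eq_conjTranspose, ← conjTranspose_mul,
    trace_conjTranspose, trace_mul_comm]
  exact Complex.conj_im _

theorem Farg_conj (a b : n → ℂ) (U : Matrix n n ℂ) :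
    Farg (fun i => conj (a i)) U (fun j => conj (b j)) = - Farg a U b := by
  unfold Farg
  rw [← intervalIntegral.integral_neg]
  refine intervalIntegral.integral_congr fun t _ => ?_
  exact integrand_conj a b U t

theorem Fperm_conj {a b : n → ℂ} (hs : Sep a b) (σ : Equiv.Perm n) :
    Fperm (fun i => conj (a i)) (fun j => conj (b j)) σ = - Fperm a b σ := by
  unfold Fperm
  rw [← Finset.sum_neg_distrib]
  refine Finset.sum_congr rfl fun i _ => ?_
  have h1 : (1 : ℂ) + conj (a i) / conj (b (σ i)) = conj (1 + a i / b (σ i)) := by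
    rw [map_add, map_div₀, map_one]
  rw [h1, Complex.arg_conj, if_neg]
  intro h2
  rw [Complex.arg_eq_pi_iff] at h2
  have h3 : ‖a i / b (σ i)‖ < 1 := by
    rw [norm_div]
    have h4 := hs i (σ i)
    have h5 : 0 < ‖b (σ i)‖ := (norm_nonneg _).trans_lt h4
    rw [div_lt_one h5]
    exact h4
  have h6 := (abs_le.1 (Complex.abs_re_le_norm (a i / b (σ i)))).1
  have h7 := h2.1
  rw [Complex.add_re, Complex.one_re] at h7
  linarith

end Pool.Agent.Helper56.CN
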