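import Pool.Agent.Helper56.CN.Inv

/-!
# Project CN (helper56), module FExp
`det (K + B) = det B * r * exp (i Farg)` with `r > 0`.
-/

set_option autoImplicit false
set_option linter.unusedSectionVars false

namespace Pool.Agent.Helper56.CN

open Matrix Complex Filter Topology
open scoped ComplexConjugate

variable {n : Type*} [Fintype n] [DecidableEq n]

namespace FExpAux

/-- the matrix `t K + B` -/
noncomputable def Mt (a : n → ℂ) (U : Matrix n n ℂ) (b : n → ℂ) (t : ℝ) : Matrix n n ℂ :=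
  (t : ℂ) • KK a U + diagonal b

/-- the logarithmic derivative -/
noncomputable def gg (a : n → ℂ) (U : Matrix n n ℂ) (b : n → ℂ) (t : ℝ) : ℂ :=
  ((Mt a U b t)⁻¹ * KK a U).trace

/-- the clamp to the unit interval -/
noncomputable def cl (t : ℝ) : ℝ := max 0 (min t 1)

lemma cl_mem (t : ℝ) : 0 ≤ cl t ∧ cl t ≤ 1 :=
  ⟨le_max_left _ _, max_le zero_le_one (min_le_right _ _)⟩

lemma cl_eq {t : ℝ} (h0 : 0 ≤ t) (h1 : t ≤ 1) : cl t = t := by
  rw [cl, min_eq_left h1, max_eq_right h0]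

lemma continuous_cl : Continuous cl := continuous_const.max (continuous_id.min continuous_const)

lemma gg_eq (a : n → ℂ) (U : Matrix n n ℂ) (b : n → ℂ) (t : ℝ) :
    gg a U b t = ((Mt a U b t).det)⁻¹ * ((Mt a U b t).adjugate * KK a U).trace := by
  rw [gg, Matrix.inv_def, Ring.inverse_eq_inv', Matrix.smul_mul, Matrix.trace_smul, smul_eq_mul]

lemma continuous_Mt (a : n → ℂ) (U : Matrix n n ℂ) (b : n → ℂ) : Continuous (Mt a U b) := by
  unfold Mt
  fun_prop

lemma det_Mt_ne {a b : n → ℂ} (hs : Sep a b) {U : Matrix n n ℂ} (hU : U ∈ unitaryGroup n ℂ)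
    {t : ℝ} (h0 : 0 ≤ t) (h1 : t ≤ 1) : (Mt a U b t).det ≠ 0 := by
  refine det_ne hs hU ?_
  rw [Complex.norm_real, Real.norm_eq_abs, abs_of_nonneg h0]
  exact h1

lemma continuous_gg {a b : n → ℂ} (hs : Sep a b) {U : Matrix n n ℂ}
    (hU : U ∈ unitaryGroup n ℂ) : Continuous fun t => gg a U b (cl t) := by
  simp only [gg_eq]
  have h1 : Continuous fun t => Mt a U b (cl t) := (continuous_Mt a U b).comp continuous_cl
  refine Continuous.mul ?_ ?_
  · exact h1.matrix_det.inv₀ fun t => det_Mt_ne hs hU (cl_mem t).1 (cl_mem t).2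
  · exact (h1.matrix_adjugate.matrix_mul continuous_const).matrix_trace

lemma hasDerivAt_det {a b : n → ℂ} (hs : Sep a b) {U : Matrix n n ℂ}
    (hU : U ∈ unitaryGroup n ℂ) {t : ℝ} (h0 : 0 ≤ t) (h1 : t ≤ 1) :
    HasDerivAt (fun s : ℝ => (Mt a U b s).det) ((Mt a U b t).det * gg a U b t) t := by
  have hu : IsUnit (Mt a U b t).det := (det_Mt_ne hs hU h0 h1).isUnit
  obtain ⟨ρ, hρ⟩ := Pool.Agent.Helper54.OMC.det_expand' (Mt a U b t) (Mt a U b t)⁻¹ (KK a U) 0 0
    (Matrix.mul_nonsing_inv _ hu)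
  have h2 : ∀ s : ℝ, (Mt a U b s).det = (Mt a U b t).det *
      (1 + ((s : ℂ) - t) * gg a U b t + ((s : ℂ) - t) ^ 2 *
        ((((Mt a U b t)⁻¹ * 0).trace + (((Mt a U b t)⁻¹ * KK a U).trace ^ 2 -
          ((Mt a U b t)⁻¹ * KK a U * ((Mt a U b t)⁻¹ * KK a U)).trace) / 2)) +
        ((s : ℂ) - t) ^ 3 * ρ.eval ((s : ℂ) - t)) := by
    intro s
    have h3 := hρ ((s : ℂ) - t)
    rw [smul_zero, smul_zero, add_zero, add_zero] at h3
    have h4 : Mt a U b t + ((s : ℂ) - t) • KK a U = Mt a U b s := by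
      unfold Mt
      rw [sub_smul]
      abel
    rw [h4] at h3
    exact h3
  have h3 : HasDerivAt (fun s : ℝ => ((s : ℂ) - t)) 1 t :=
    (Complex.ofRealCLM.hasDerivAt (x := t)).sub_const (t : ℂ)
  set P : Polynomial ℂ := Polynomial.C (Mt a U b t).det *
      (1 + Polynomial.X * Polynomial.C (gg a U b t) + Polynomial.X ^ 2 * Polynomial.C
        ((((Mt a U b t)⁻¹ * 0).trace + (((Mt a U b t)⁻¹ * KK a U).trace ^ 2 -
          ((Mt a U b t)⁻¹ * KK a U * ((Mt a U b t)⁻¹ * KK a U)).trace) / 2)) +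
        Polynomial.X ^ 3 * ρ) with hP
  have h4 : (fun s : ℝ => (Mt a U b s).det) = fun s : ℝ => P.eval ((s : ℂ) - t) := by
    funext s
    rw [h2 s, hP]
    simp only [Polynomial.eval_mul, Polynomial.eval_add, Polynomial.eval_pow, Polynomial.eval_X,
      Polynomial.eval_C, Polynomial.eval_one]
  rw [h4]
  have h5 : HasDerivAt (fun w : ℂ => P.eval w) (P.derivative.eval 0) ((t : ℂ) - t) := by
    rw [sub_self]
    exact P.hasDerivAt 0
  have h6 : P.derivative.eval 0 = (Mt a U b t).det * gg a U b t := by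
    rw [hP]
    simp
  rw [h6] at h5
  have h7 := HasDerivAt.comp t h5 h3
  rw [mul_one] at h7
  exact h7

end FExpAux

open FExpAux

theorem DD_eq_exp {a b : n → ℂ} (hs : Sep a b) {U : Matrix n n ℂ} (hU : U ∈ unitaryGroup n ℂ) :
    ∃ r : ℝ, 0 < r ∧ DD a U b = (∏ j, b j) * ((r : ℂ) * Complex.exp ((Farg a U b : ℂ) * I)) := by
  have hg := continuous_gg hs hU
  set L : ℝ → ℂ := fun t => ∫ s in (0 : ℝ)..t, gg a U b (cl s) with hL
  have hLd : ∀ t, HasDerivAt L (gg a U b (cl t)) t := fun t =>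
    intervalIntegral.integral_hasDerivAt_right (hg.intervalIntegrable _ _)
      hg.stronglyMeasurable.stronglyMeasurableAtFilter hg.continuousAt
  set ψ : ℝ → ℂ := fun t => (Mt a U b t).det * Complex.exp (-(L t)) with hψ
  have hψd : ∀ t ∈ Set.Icc (0 : ℝ) 1, HasDerivAt ψ 0 t := by
    intro t ht
    have h1 := hasDerivAt_det hs hU ht.1 ht.2
    have h2 := (hLd t).neg.cexp
    have h3 := h1.mul h2
    refine h3.congr_deriv ?_
    rw [cl_eq ht.1 ht.2]
    ring
  have hψc : ψ 1 = ψ 0 := by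
    have h1 : ∀ x ∈ Set.Icc (0 : ℝ) 1, ψ x = ψ 0 := by
      refine constant_of_has_deriv_right_zero ?_ ?_
      · exact fun t ht => (hψd t ht).continuousAt.continuousWithinAt
      · exact fun t ht => (hψd t ⟨ht.1, ht.2.le⟩).hasDerivWithinAt
    exact h1 1 ⟨zero_le_one, le_rfl⟩
  have hL0 : L 0 = 0 := by
    rw [hL]
    simp
  have hM0 : (Mt a U b 0).det = ∏ j, b j := by
    unfold Mt
    rw [Complex.ofReal_zero, zero_smul, zero_add, det_diagonal]
  have hM1 : (Mt a U b 1).det = DD a U b := by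
    unfold Mt DD
    rw [Complex.ofReal_one, one_smul]
  have h1 : DD a U b = (∏ j, b j) * Complex.exp (L 1) := by
    have h2 : (Mt a U b 1).det * Complex.exp (-(L 1)) =
        (Mt a U b 0).det * Complex.exp (-(L 0)) := hψc
    rw [hL0, neg_zero, Complex.exp_zero, mul_one, hM0, hM1] at h2
    rw [← h2, mul_assoc, ← Complex.exp_add, neg_add_cancel, Complex.exp_zero, mul_one]
  have hLi : (L 1).im = Farg a U b := by
    have h2 : (L 1).im = ∫ s in (0 : ℝ)..1, (gg a U b (cl s)).im := by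
      have h3 := Complex.imCLM.intervalIntegral_comp_comm
        (hg.intervalIntegrable (μ := MeasureTheory.volume) 0 1)
      exact h3.symm
    rw [h2, Farg]
    refine intervalIntegral.integral_congr fun t ht => ?_
    rw [Set.uIcc_of_le zero_le_one] at ht
    change (gg a U b (cl t)).im = _
    rw [cl_eq ht.1 ht.2]
    rfl
  refine ⟨Real.exp (L 1).re, Real.exp_pos _, ?_⟩
  rw [h1, ← hLi, Complex.ofReal_exp, ← Complex.exp_add, Complex.re_add_im]

end Pool.Agent.Helper56.CN
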