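import Pool.Agent.Helper56.CN.Defs

/-!
# Project CN (helper56), module FDiag
`Farg` at a diagonal matrix.
-/

set_option autoImplicit false
set_option linter.unusedSectionVars false

namespace Pool.Agent.Helper56.CN

open Matrix Complex Filter Topology
open scoped ComplexConjugate

variable {n : Type*} [Fintype n] [DecidableEq n]

private theorem FDiag_slit {w : ℂ} (hw : ‖w‖ < 1) : 1 + w ∈ slitPlane := by
  left
  have h1 := neg_le_of_abs_le (Complex.abs_re_le_norm w)
  simp only [add_re, one_re]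
  linarith

private theorem FDiag_small {κ b : ℂ} (h : ‖κ‖ < ‖b‖) {t : ℝ} (ht : t ∈ Set.Icc (0 : ℝ) 1) :
    ‖(t : ℂ) * (κ / b)‖ < 1 := by
  have hb : 0 < ‖b‖ := lt_of_le_of_lt (norm_nonneg _) h
  rw [norm_mul, norm_div, Complex.norm_real, Real.norm_of_nonneg ht.1]
  have h1 : ‖κ‖ / ‖b‖ < 1 := (div_lt_one hb).2 h
  have h2 : 0 ≤ ‖κ‖ / ‖b‖ := div_nonneg (norm_nonneg _) (norm_nonneg _)
  calc t * (‖κ‖ / ‖b‖) ≤ 1 * (‖κ‖ / ‖b‖) := mul_le_mul_of_nonneg_right ht.2 h2
    _ < 1 := by rw [one_mul]; exact h1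

private theorem FDiag_cont {κ b : ℂ} (h : ‖κ‖ < ‖b‖) :
    ContinuousOn (fun t : ℝ => (κ / b / (1 + (t : ℂ) * (κ / b))).im) (Set.uIcc (0 : ℝ) 1) := by
  rw [Set.uIcc_of_le zero_le_one]
  refine Complex.continuous_im.comp_continuousOn (ContinuousOn.div continuousOn_const ?_ ?_)
  · exact Continuous.continuousOn (by fun_prop)
  · intro t ht
    exact slitPlane_ne_zero (FDiag_slit (FDiag_small h ht))

private theorem FDiag_integral {κ b : ℂ} (h : ‖κ‖ < ‖b‖) :
    ∫ t in (0 : ℝ)..1, (κ / b / (1 + (t : ℂ) * (κ / b))).im = Complex.arg (1 + κ / b) := by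
  have hd : ∀ t ∈ Set.uIcc (0 : ℝ) 1,
      HasDerivAt (fun t : ℝ => (Complex.log (1 + (t : ℂ) * (κ / b))).im)
        ((κ / b / (1 + (t : ℂ) * (κ / b))).im) t := by
    intro t ht
    rw [Set.uIcc_of_le zero_le_one] at ht
    have h0 : HasDerivAt (fun t : ℝ => 1 + (t : ℂ) * (κ / b)) (κ / b) t := by
      have h1 : HasDerivAt (fun t : ℝ => (t : ℂ)) 1 t := Complex.ofRealCLM.hasDerivAt
      have h2 := (h1.mul_const (κ / b)).const_add 1
      rw [one_mul] at h2
      exact h2
    have h3 := h0.clog_real (FDiag_slit (FDiag_small h ht))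
    exact Complex.imCLM.hasFDerivAt.comp_hasDerivAt t h3
  rw [intervalIntegral.integral_eq_sub_of_hasDerivAt hd (FDiag_cont h).intervalIntegrable]
  simp [Complex.log_im]

theorem Farg_diag {a b : n → ℂ} (hs : Sep a b) {U : Matrix n n ℂ} (κ : n → ℂ)
    (σ : Equiv.Perm n) (hκ : ∀ i, κ i = a (σ i)) (h : KK a U = diagonal κ) :
    Farg a U b = Fperm a b σ.symm := by
  have hlt : ∀ j, ‖κ j‖ < ‖b j‖ := fun j => by rw [hκ j]; exact hs _ _
  have hcongr : Set.EqOn
      (fun t : ℝ => ((((t : ℂ) • KK a U + diagonal b)⁻¹ * KK a U).trace).im)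
      (fun t : ℝ => ∑ j, (κ j / b j / (1 + (t : ℂ) * (κ j / b j))).im) (Set.uIcc (0 : ℝ) 1) := by
    intro t ht
    rw [Set.uIcc_of_le zero_le_one] at ht
    have hb : ∀ j, b j ≠ 0 := fun j hj => by
      have := hlt j
      rw [hj, norm_zero] at this
      exact absurd this (not_lt.2 (norm_nonneg _))
    have hne : ∀ j, 1 + (t : ℂ) * (κ j / b j) ≠ 0 := fun j =>
      slitPlane_ne_zero (FDiag_slit (FDiag_small (hlt j) ht))
    have hne' : ∀ j, (t : ℂ) * κ j + b j ≠ 0 := fun j => by
      have e : (t : ℂ) * κ j + b j = b j * (1 + (t : ℂ) * (κ j / b j)) := by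
        have := hb j
        field_simp
        ring
      rw [e]
      exact mul_ne_zero (hb j) (hne j)
    have e1 : (t : ℂ) • KK a U + diagonal b = diagonal fun j => (t : ℂ) * κ j + b j := by
      rw [h]
      ext i j
      by_cases hij : i = j
      · subst hij
        simp
      · simp [hij]
    have e2 : ((t : ℂ) • KK a U + diagonal b)⁻¹ = diagonal fun j => ((t : ℂ) * κ j + b j)⁻¹ := by
      rw [e1]
      refine Matrix.inv_eq_right_inv ?_
      rw [diagonal_mul_diagonal, ← diagonal_one]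
      congr 1
      funext j
      exact mul_inv_cancel₀ (hne' j)
    simp only
    rw [e2, h, diagonal_mul_diagonal, trace_diagonal, Complex.im_sum]
    refine Finset.sum_congr rfl fun j _ => ?_
    congr 1
    have e : (t : ℂ) * κ j + b j = b j * (1 + (t : ℂ) * (κ j / b j)) := by
      have := hb j
      field_simp
      ring
    rw [e, mul_inv]
    generalize (1 + (t : ℂ) * (κ j / b j)) = w
    rw [div_eq_mul_inv, div_eq_mul_inv]
    ring
  unfold Farg
  rw [intervalIntegral.integral_congr hcongr, intervalIntegral.integral_finsetSum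
    (fun j _ => (FDiag_cont (hlt j)).intervalIntegrable)]
  unfold Fperm
  rw [← Equiv.sum_comp σ (fun i => Complex.arg (1 + a i / b (σ.symm i)))]
  refine Finset.sum_congr rfl fun j _ => ?_
  rw [FDiag_integral (hlt j), hκ j, Equiv.symm_apply_apply]

end Pool.Agent.Helper56.CN
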