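import Pool.Agent.Helper56.CN.Defs

/-!
# Project CN (helper56), module FPerm
Continuity of `Fperm`, exponential formula for the permutation points.
-/

set_option autoImplicit false
set_option linter.unusedSectionVars false

namespace Pool.Agent.Helper56.CN

open Matrix Complex Filter Topology
open scoped ComplexConjugate

variable {n : Type*} [Fintype n] [DecidableEq n]

private theorem FPerm_ne {a b : n → ℂ} (hs : Sep a b) (i j : n) : b j ≠ 0 := by
  intro h
  have := hs i j
  rw [h, norm_zero] at this
  exact absurd this (not_lt.2 (norm_nonneg _))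

private theorem FPerm_slit {a b : n → ℂ} (hs : Sep a b) (i j : n) :
    1 + a i / b j ∈ slitPlane := by
  apply Complex.mem_slitPlane_of_norm_lt_one
  rw [norm_div, div_lt_one (norm_pos_iff.2 (FPerm_ne hs i j))]
  exact hs i j

theorem continuousAt_Fperm {a b : n → ℂ} (hs : Sep a b) (σ : Equiv.Perm n) :
    ContinuousAt (fun b' : n → ℂ => Fperm a b' σ) b := by
  unfold Fperm
  refine tendsto_finsetSum _ (fun i _ => ?_)
  have h1 : ContinuousAt (fun b' : n → ℂ => 1 + a i / b' (σ i)) b :=
    continuousAt_const.add (continuousAt_const.div (continuous_apply (σ i)).continuousAt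
      (FPerm_ne hs i (σ i)))
  exact ContinuousAt.comp (f := fun b' : n → ℂ => 1 + a i / b' (σ i)) (g := Complex.arg)
    (Complex.continuousAt_arg (FPerm_slit hs i (σ i))) h1

theorem zz_eq_exp {a b : n → ℂ} (hs : Sep a b) (σ : Equiv.Perm n) :
    ∃ r : ℝ, 0 < r ∧ zz a b σ = (∏ j, b j) * ((r : ℂ) * Complex.exp ((Fperm a b σ : ℂ) * I)) := by
  refine ⟨∏ i, ‖1 + a i / b (σ i)‖, ?_, ?_⟩
  · refine Finset.prod_pos (fun i _ => norm_pos_iff.2 ?_)
    exact Complex.slitPlane_ne_zero (FPerm_slit hs i (σ i))
  · unfold zz Fperm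
    have h1 : ∀ i, a i + b (σ i) = b (σ i) * (((‖1 + a i / b (σ i)‖ : ℝ) : ℂ) *
        Complex.exp ((Complex.arg (1 + a i / b (σ i)) : ℂ) * I)) := by
      intro i
      rw [Complex.norm_mul_exp_arg_mul_I]
      have := FPerm_ne hs i (σ i)
      field_simp
      ring
    rw [Finset.prod_congr rfl (fun i _ => h1 i), Finset.prod_mul_distrib,
      Finset.prod_mul_distrib, Equiv.prod_comp σ (fun j => b j), ← Complex.exp_sum,
      ← Finset.sum_mul]
    push_cast
    rfl

end Pool.Agent.Helper56.CN
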