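import Pool.Agent.Helper56.CN.LocDiag
import Pool.Agent.Helper56.CN.FDiag
import Pool.Agent.Helper56.CN.FPerm

/-!
# Project CN (helper56), module Global
Upper bound for the argument.
-/

set_option autoImplicit false
set_option linter.unusedSectionVars false

namespace Pool.Agent.Helper56.CN

open Matrix Complex Filter Topology
open scoped ComplexConjugate

variable {n : Type*} [Fintype n] [DecidableEq n]

private theorem Global_sep {a b : n → ℂ} (hs : Sep a b) : ∀ᶠ b' in 𝓝 b, Sep a b' := by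
  unfold Sep
  rw [Filter.eventually_all]
  intro i
  rw [Filter.eventually_all]
  intro j
  have hc : Continuous fun b' : n → ℂ => ‖b' j‖ := (continuous_apply j).norm
  exact continuousAt_const.eventually_lt hc.continuousAt (hs i j)

private theorem Global_cont {a b : n → ℂ} (hs : Sep a b) {U : Matrix n n ℂ}
    (hU : U ∈ unitaryGroup n ℂ) : ContinuousAt (fun b' : n → ℂ => Farg a U b') b := by
  have h1 : ContinuousWithinAt (fun p : Matrix n n ℂ × (n → ℂ) => Farg a p.1 p.2)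
      {p | p.1 ∈ unitaryGroup n ℂ ∧ Sep a p.2} (U, b) := continuousOn_Farg a (U, b) ⟨hU, hs⟩
  have hf : Continuous fun b' : n → ℂ => ((U, b') : Matrix n n ℂ × (n → ℂ)) :=
    continuous_const.prodMk continuous_id
  have h2 : ContinuousWithinAt (fun b' : n → ℂ => ((U, b') : Matrix n n ℂ × (n → ℂ)))
      {b' | Sep a b'} b := hf.continuousWithinAt
  have h3 : Set.MapsTo (fun b' : n → ℂ => ((U, b') : Matrix n n ℂ × (n → ℂ))) {b' | Sep a b'}
      {p | p.1 ∈ unitaryGroup n ℂ ∧ Sep a p.2} := fun b' hb' => ⟨hU, hb'⟩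
  have h4 := ContinuousWithinAt.comp (g := fun p : Matrix n n ℂ × (n → ℂ) => Farg a p.1 p.2)
    (f := fun b' : n → ℂ => ((U, b') : Matrix n n ℂ × (n → ℂ))) h1 h2 h3
  exact h4.continuousAt (Global_sep hs)

theorem exists_Farg_le {a b : n → ℂ} (hs : Sep a b) {U : Matrix n n ℂ}
    (hU : U ∈ unitaryGroup n ℂ) : ∃ σ, Farg a U b ≤ Fperm a b σ := by
  by_contra hcon
  push Not at hcon
  -- generic starting point
  have hP : ∀ᶠ b' in 𝓝 b, Sep a b' ∧ ∀ σ, Fperm a b' σ < Farg a U b' := by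
    have h1 : ∀ᶠ b' in 𝓝 b, ∀ σ, Fperm a b' σ < Farg a U b' := by
      rw [Filter.eventually_all]
      intro σ
      exact (continuousAt_Fperm hs σ).eventually_lt (Global_cont hs hU) (hcon σ)
    exact (Global_sep hs).and h1
  obtain ⟨b1, ⟨hs1, hlt1⟩, hinj1, -⟩ := Pool.Agent.Helper54.OMC.exists_generic b _ hP
  set F1 : ℝ := Farg a U b1 with hF1
  -- radius
  have hQ : ∀ᶠ b' in 𝓝 b1, Sep a b' ∧ (∀ σ, Fperm a b' σ < F1) ∧ Function.Injective b' := by
    have h1 : ∀ᶠ b' in 𝓝 b1, ∀ σ, Fperm a b' σ < F1 := by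
      rw [Filter.eventually_all]
      intro σ
      exact (continuousAt_Fperm hs1 σ).eventually_lt continuousAt_const (hlt1 σ)
    have h2 : ∀ᶠ b' : n → ℂ in 𝓝 b1, ∀ i j, i ≠ j → b' i ≠ b' j := by
      rw [Filter.eventually_all]
      intro i
      rw [Filter.eventually_all]
      intro j
      by_cases hij : i = j
      · exact Eventually.of_forall fun t h => absurd hij h
      · have hc : Continuous fun b' : n → ℂ => b' i - b' j := by fun_prop
        have hne : b1 i - b1 j ≠ 0 := sub_ne_zero.2 fun h => hij (hinj1 h)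
        filter_upwards [hc.continuousAt.eventually_ne hne] with b' hb' _
        exact sub_ne_zero.1 hb'
    filter_upwards [Global_sep hs1, h1, h2] with b' h0 h1 h2
    exact ⟨h0, h1, fun i j hij => by_contra fun h => h2 i j h hij⟩
  obtain ⟨r, hr0, hr⟩ := Metric.eventually_nhds_iff.1 hQ
  set ρ : ℝ := r / 2 with hρ
  have hρ0 : 0 < ρ := by positivity
  have hρr : ρ < r := by rw [hρ]; linarith
  have hball : ∀ b' ∈ Metric.closedBall b1 ρ, Sep a b' ∧ (∀ σ, Fperm a b' σ < F1) ∧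
      Function.Injective b' := fun b' hb' => hr (lt_of_le_of_lt (Metric.mem_closedBall.1 hb') hρr)
  -- compact set
  set 𝒦 : Set (Matrix n n ℂ × (n → ℂ)) :=
    {U : Matrix n n ℂ | U ∈ unitaryGroup n ℂ} ×ˢ Metric.closedBall b1 ρ with h𝒦
  have hKc : IsCompact 𝒦 :=
    Pool.Agent.Helper54.OMC.isCompact_unitary.prod (isCompact_closedBall _ _)
  have hmem1 : (U, b1) ∈ 𝒦 := ⟨hU, Metric.mem_closedBall_self hρ0.le⟩
  have hne : 𝒦.Nonempty := ⟨_, hmem1⟩
  have hfc : ContinuousOn (fun p : Matrix n n ℂ × (n → ℂ) => Farg a p.1 p.2) 𝒦 :=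
    (continuousOn_Farg a).mono fun p hp => ⟨hp.1, (hball p.2 hp.2).1⟩
  obtain ⟨p0, _, hp0⟩ := hKc.exists_isMaxOn hne hfc
  set B0 : ℝ := Farg a p0.1 p0.2 with hB0
  have hB1 : F1 ≤ B0 := by
    have h := hp0 hmem1
    simp only [Set.mem_ofPred_eq] at h
    exact h
  set M : ℝ := (B0 - F1 + 1) / ρ ^ 2 with hM
  have hM0 : 0 < M := div_pos (by linarith) (by positivity)
  have hgc : Continuous fun p : Matrix n n ℂ × (n → ℂ) => M * ∑ j, ‖p.2 j - b1 j‖ ^ 2 := by
    refine continuous_const.mul ?_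
    fun_prop
  have hΞc : ContinuousOn (fun p : Matrix n n ℂ × (n → ℂ) =>
      Farg a p.1 p.2 - M * ∑ j, ‖p.2 j - b1 j‖ ^ 2) 𝒦 := hfc.sub hgc.continuousOn
  obtain ⟨⟨U2, b2⟩, hmem2, hmax⟩ := hKc.exists_isMaxOn hne hΞc
  have hU2 : U2 ∈ unitaryGroup n ℂ := hmem2.1
  have hb2 : b2 ∈ Metric.closedBall b1 ρ := hmem2.2
  have h12 : F1 ≤ Farg a U2 b2 - M * ∑ j, ‖b2 j - b1 j‖ ^ 2 := by
    have h := hmax hmem1
    simp only [Set.mem_ofPred_eq, sub_self, norm_zero, ne_eq, OfNat.ofNat_ne_zero,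
      not_false_eq_true, zero_pow, Finset.sum_const_zero, mul_zero, sub_zero] at h
    exact h
  have hs0 : 0 ≤ M * ∑ j, ‖b2 j - b1 j‖ ^ 2 :=
    mul_nonneg hM0.le (Finset.sum_nonneg fun j _ => sq_nonneg _)
  have hf12 : F1 ≤ Farg a U2 b2 := by linarith
  obtain ⟨hs2, hlt2, hinj2⟩ := hball b2 hb2
  -- interior in `b`
  have hsum : ∑ j, ‖b2 j - b1 j‖ ^ 2 < ρ ^ 2 := by
    have h3 : Farg a U2 b2 ≤ B0 := by
      have h := hp0 hmem2
      simp only [Set.mem_ofPred_eq] at h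
      exact h
    have h4 : M * ∑ j, ‖b2 j - b1 j‖ ^ 2 < M * ρ ^ 2 := by
      have e1 : M * ρ ^ 2 = B0 - F1 + 1 := by rw [hM]; field_simp
      rw [e1]; linarith
    exact lt_of_mul_lt_mul_left h4 hM0.le
  have hj : ∀ j, ‖b2 j - b1 j‖ < ρ := by
    intro j
    have h3 : ‖b2 j - b1 j‖ ^ 2 < ρ ^ 2 :=
      lt_of_le_of_lt (Finset.single_le_sum (f := fun j => ‖b2 j - b1 j‖ ^ 2)
        (fun i _ => sq_nonneg _) (Finset.mem_univ j)) hsum
    exact (sq_lt_sq₀ (norm_nonneg _) hρ0.le).1 h3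
  have hdist : dist b2 b1 < ρ := by
    rw [dist_pi_lt_iff hρ0]
    intro j
    rw [dist_eq_norm]
    exact hj j
  -- local maximum
  have hloc : LocMaxF a U2 b2 b1 M (ρ - dist b2 b1) := by
    intro V hV b' hb'
    have hVU : V * U2 ∈ unitaryGroup n ℂ := mul_mem hV hU2
    have hbb : b' ∈ Metric.closedBall b1 ρ := by
      rw [Metric.mem_closedBall, dist_pi_le_iff hρ0.le]
      intro j
      calc dist (b' j) (b1 j) ≤ dist (b' j) (b2 j) + dist (b2 j) (b1 j) := dist_triangle _ _ _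
        _ ≤ (ρ - dist b2 b1) + dist b2 b1 := by
            refine add_le_add ?_ (dist_le_pi_dist _ _ j)
            rw [dist_eq_norm]
            exact (hb' j).le
        _ = ρ := by ring
    have hmem : (V * U2, b') ∈ 𝒦 := ⟨hVU, hbb⟩
    have h3 := hmax hmem
    simp only [Set.mem_ofPred_eq] at h3
    rw [Finset.sum_sub_distrib]
    linarith
  have hdiag := LocMaxF.diag hU2 (by linarith) hs2 hinj2 hloc
  set κ : n → ℂ := fun i => KK a U2 i i with hκ
  have hKκ : KK a U2 = diagonal κ := by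
    ext i j
    by_cases hij : i = j
    · subst hij; simp [hκ]
    · rw [hdiag i j hij, diagonal_apply_ne _ hij]
  obtain ⟨σ, hσ⟩ := Pool.Agent.Helper54.OMC.perm_of_diag a κ U2 hU2 hKκ
  have hfin := Farg_diag hs2 κ σ hσ hKκ
  have := hlt2 σ.symm
  rw [← hfin] at this
  exact absurd this (not_lt.2 hf12)

end Pool.Agent.Helper56.CN
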