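import Pool.Agent.Helper56.CN.Sheet
import Pool.Agent.Helper56.CN.ConeArg
import Pool.Agent.Helper56.CN.Conj
import Pool.Agent.Helper56.CN.FExp
import Pool.Agent.Helper56.CN.Global

/-!
# Project CN (helper56), module Cone
The cone theorem for separated spectra.
-/

set_option autoImplicit false
set_option linter.unusedSectionVars false

namespace Pool.Agent.Helper56.CN

open Matrix Complex Filter Topology
open scoped ComplexConjugate

variable {n : Type*} [Fintype n] [DecidableEq n]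

theorem cone_of_sep {a b : n → ℂ} (hs : Sep a b) {U : Matrix n n ℂ} (hU : U ∈ unitaryGroup n ℂ)
    {ζ : ℂ} (hp : Pos a b ζ) :
    ∃ (x y : ℝ) (σ τ : Equiv.Perm n), 0 ≤ x ∧ 0 ≤ y ∧ 0 < x + y
      ∧ DD a U b = x * zz a b σ + y * zz a b τ := by
  obtain ⟨s2, h2⟩ := exists_Farg_le hs hU
  obtain ⟨s1, h1⟩ := exists_Farg_le hs.conj hU
  rw [Farg_conj, Fperm_conj hs] at h1
  obtain ⟨c, hc, r, hr, hζ⟩ := sheet hs hp
  obtain ⟨r', hr', hD⟩ := DD_eq_exp hs hU
  have hζ0 : ζ ≠ 0 := by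
    intro h0
    have := hp 1
    rw [h0, zero_mul, Complex.zero_re] at this
    exact lt_irrefl _ this
  have hargs : ∀ σ, |Complex.arg (ζ * zz a b σ)| < Real.pi / 2 := fun σ =>
    Complex.abs_arg_lt_pi_div_two_iff.2 (Or.inl (hp σ))
  have e1 := hc s1
  have e2 := hc s2
  set θ : ℝ := Farg a U b - c with hθ
  have hW : ζ * DD a U b = ((r * r' : ℝ) : ℂ) * (Complex.cos θ + Complex.sin θ * I) := by
    rw [hD, ← mul_assoc, hζ, ← Complex.exp_mul_I, hθ]
    push_cast
    have : Complex.exp (((Farg a U b : ℂ) - (c : ℂ)) * I) =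
        Complex.exp (-(c : ℂ) * I) * Complex.exp ((Farg a U b : ℂ) * I) := by
      rw [← Complex.exp_add]
      congr 1
      ring
    rw [this]
    ring
  have b1 := abs_lt.1 (hargs s1)
  have b2 := abs_lt.1 (hargs s2)
  have g1 : Complex.arg (ζ * zz a b s1) ≤ θ := by rw [hθ]; linarith
  have g2 : θ ≤ Complex.arg (ζ * zz a b s2) := by rw [hθ]; linarith
  have hθ1 : -(Real.pi / 2) < θ := by linarith [b1.1]
  have hθ2 : θ < Real.pi / 2 := by linarith [b2.2]
  have hargW : Complex.arg (ζ * DD a U b) = θ := by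
    rw [hW]
    refine Complex.arg_mul_cos_add_sin_mul_I (mul_pos hr hr') ⟨?_, ?_⟩
    · linarith [Real.pi_pos]
    · linarith [Real.pi_pos]
  have hreW : 0 < (ζ * DD a U b).re := by
    have hne : ζ * DD a U b ≠ 0 := by
      rw [hW, ← Complex.exp_mul_I]
      refine mul_ne_zero ?_ (Complex.exp_ne_zero _)
      exact_mod_cast (mul_pos hr hr').ne'
    have h3 : |Complex.arg (ζ * DD a U b)| < Real.pi / 2 := by
      rw [hargW, abs_lt]
      exact ⟨hθ1, hθ2⟩
    rcases Complex.abs_arg_lt_pi_div_two_iff.1 h3 with h | h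
    · exact h
    · exact absurd h hne
  obtain ⟨x, y, hx, hy, hxy, hW2⟩ := cone_of_arg (hp s1) (hp s2) hreW (by rw [hargW]; exact g1)
    (by rw [hargW]; exact g2)
  refine ⟨x, y, s1, s2, hx, hy, hxy, ?_⟩
  have h5 : ζ * DD a U b = ζ * (x * zz a b s1 + y * zz a b s2) := by
    rw [hW2]
    ring
  exact mul_left_cancel₀ hζ0 h5

end Pool.Agent.Helper56.CN
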