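import Pool.Agent.Helper56.CN.Defs

/-!
# Project CN (helper56), module Core6
The planar core of the case (2,3).
-/

set_option autoImplicit false
set_option linter.unusedSectionVars false

namespace Pool.Agent.Helper56.CN

open Matrix Complex Filter Topology
open scoped ComplexConjugate

variable {n : Type*} [Fintype n] [DecidableEq n]

/-- product of the diagonal entries dominates, two columns -/
private theorem core6_prod {m1 m2 m3 r11 r21 r31 r12 r22 r32 : ℝ} (h1 : 0 < m1) (h2 : 0 < m2)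
    (h3 : 0 < m3) (e1 : m1 * r11 + m2 * r21 + m3 * r31 = 0)
    (e2 : m1 * r12 + m2 * r22 + m3 * r32 = 0) (p21 : 0 < r21) (p31 : 0 < r31) (p12 : 0 < r12)
    (p32 : 0 < r32) : 0 < r11 * r22 - r12 * r21 := by
  have a1 : m2 * r21 < m1 * (-r11) := by nlinarith [mul_pos h3 p31]
  have a2 : m1 * r12 < m2 * (-r22) := by nlinarith [mul_pos h3 p32]
  have a3 : m2 * r21 * (m1 * r12) < m1 * (-r11) * (m2 * (-r22)) :=
    mul_lt_mul'' a1 a2 (mul_pos h2 p21).le (mul_pos h1 p12).le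
  have a4 : 0 < (m1 * m2) * (r11 * r22 - r12 * r21) := by nlinarith
  exact (mul_pos_iff_of_pos_left (mul_pos h1 h2)).1 a4

private theorem core6_neg {m b e : ℝ} (hm : 0 < m) (h : 0 < - (m * b * e)) : b * e < 0 := by
  have h1 : 0 < m * (- (b * e)) := by
    have : m * (- (b * e)) = - (m * b * e) := by ring
    rw [this]; exact h
  have h2 := (mul_pos_iff_of_pos_left hm).1 h1
  linarith

/-- the real core -/
private theorem core6_real {m1 m2 m3 p1 p2 p3 q1 q2 q3 r1 r2 r3 s1 s2 s3 ze : ℝ}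
    (h1 : 0 < m1) (h2 : 0 < m2) (h3 : 0 < m3)
    (ep : m1 * p1 + m2 * p2 + m3 * p3 = 0) (eq : m1 * q1 + m2 * q2 + m3 * q3 = 0)
    (H12 : 0 < p1 * r2 - q1 * s2) (H13 : 0 < p1 * r3 - q1 * s3)
    (H21 : 0 < p2 * r1 - q2 * s1) (H23 : 0 < p2 * r3 - q2 * s3)
    (H31 : 0 < p3 * r1 - q3 * s1) (H32 : 0 < p3 * r2 - q3 * s2)
    (hz : 0 ≤ ze)
    (hE : (r1 * s2 - s1 * r2) + (r2 * s3 - s2 * r3) + (r3 * s1 - s3 * r1) =
      ze * ((p1 * q2 - q1 * p2) + (p2 * q3 - q2 * p3) + (p3 * q1 - q3 * p1))) : False := by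
  have k12 := core6_prod (r11 := p1 * r1 - q1 * s1) (r22 := p2 * r2 - q2 * s2)
    (r12 := p1 * r2 - q1 * s2) (r21 := p2 * r1 - q2 * s1) (r31 := p3 * r1 - q3 * s1)
    (r32 := p3 * r2 - q3 * s2) h1 h2 h3
    (by linear_combination r1 * ep - s1 * eq) (by linear_combination r2 * ep - s2 * eq)
    H21 H31 H12 H32
  have k23 := core6_prod (r11 := p2 * r2 - q2 * s2) (r22 := p3 * r3 - q3 * s3)
    (r12 := p2 * r3 - q2 * s3) (r21 := p3 * r2 - q3 * s2) (r31 := p1 * r2 - q1 * s2)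
    (r32 := p1 * r3 - q1 * s3) h2 h3 h1
    (by linear_combination r2 * ep - s2 * eq) (by linear_combination r3 * ep - s3 * eq)
    H32 H12 H23 H13
  have k31 := core6_prod (r11 := p3 * r3 - q3 * s3) (r22 := p1 * r1 - q1 * s1)
    (r12 := p3 * r1 - q3 * s1) (r21 := p1 * r3 - q1 * s3) (r31 := p2 * r3 - q2 * s3)
    (r32 := p2 * r1 - q2 * s1) h3 h1 h2
    (by linear_combination r3 * ep - s3 * eq) (by linear_combination r1 * ep - s1 * eq)
    H13 H23 H31 H21
  -- the cross products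
  have c1 : m1 * (p1 * q2 - q1 * p2) = m3 * (p2 * q3 - q2 * p3) := by
    linear_combination q2 * ep - p2 * eq
  have c2 : m2 * (p2 * q3 - q2 * p3) = m1 * (p3 * q1 - q3 * p1) := by
    linear_combination q3 * ep - p3 * eq
  have c3 : m3 * (p3 * q1 - q3 * p1) = m2 * (p1 * q2 - q1 * p2) := by
    linear_combination q1 * ep - p1 * eq
  set d12 := p1 * q2 - q1 * p2 with hd12
  set d23 := p2 * q3 - q2 * p3 with hd23
  set d31 := p3 * q1 - q3 * p1 with hd31
  set e12 := r1 * s2 - s1 * r2 with he12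
  set e23 := r2 * s3 - s2 * r3 with he23
  set e31 := r3 * s1 - s3 * r1 with he31
  have l12 : 0 < - (d12 * e12) := by
    have : - (d12 * e12) = (p1 * r1 - q1 * s1) * (p2 * r2 - q2 * s2)
      - (p1 * r2 - q1 * s2) * (p2 * r1 - q2 * s1) := by rw [hd12, he12]; ring
    rw [this]; exact k12
  have l23 : 0 < - (d23 * e23) := by
    have : - (d23 * e23) = (p2 * r2 - q2 * s2) * (p3 * r3 - q3 * s3)
      - (p2 * r3 - q2 * s3) * (p3 * r2 - q3 * s2) := by rw [hd23, he23]; ring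
    rw [this]; exact k23
  have l31 : 0 < - (d31 * e31) := by
    have : - (d31 * e31) = (p3 * r3 - q3 * s3) * (p1 * r1 - q1 * s1)
      - (p3 * r1 - q3 * s1) * (p1 * r3 - q1 * s3) := by rw [hd31, he31]; ring
    rw [this]; exact k31
  -- b = d12 / m3 = d23 / m1 = d31 / m2
  obtain ⟨b, hb⟩ : ∃ b, d12 = m3 * b := ⟨d12 / m3, by field_simp⟩
  have hb2 : d23 = m1 * b := by
    have : m3 * d23 = m3 * (m1 * b) := by rw [← c1, hb]; ring
    exact mul_left_cancel₀ h3.ne' this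
  have hb3 : d31 = m2 * b := by
    have : m3 * d31 = m3 * (m2 * b) := by rw [c3, hb]; ring
    exact mul_left_cancel₀ h3.ne' this
  have g12 : b * e12 < 0 := by
    rw [hb] at l12
    exact core6_neg h3 l12
  have g23 : b * e23 < 0 := by
    rw [hb2] at l23
    exact core6_neg h1 l23
  have g31 : b * e31 < 0 := by
    rw [hb3] at l31
    exact core6_neg h2 l31
  have f1 : b * (e12 + e23 + e31) < 0 := by
    have : b * (e12 + e23 + e31) = b * e12 + b * e23 + b * e31 := by ring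
    rw [this]; linarith
  rw [hE, hb, hb2, hb3] at f1
  have f2 : 0 ≤ ze * (b ^ 2 * (m1 + m2 + m3)) := by positivity
  have f3 : b * (ze * (m3 * b + m1 * b + m2 * b)) = ze * (b ^ 2 * (m1 + m2 + m3)) := by ring
  rw [f3] at f1
  linarith

theorem core6 (x y : Fin 3 → ℂ) (mu : Fin 3 → ℝ) (hmu : ∀ j, 0 < mu j) (ρ τ : ℂ)
    (hx : ∑ j, (mu j : ℂ) * x j = 0) (hy : ∀ j, y j = ρ * x j + τ) (ζ : ℂ)
    (hpos : ∀ i k, i ≠ k → 0 < (ζ * x i * y k).re) : False := by
  have hζ : ζ ≠ 0 := by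
    rintro rfl
    have := hpos 0 1 (by decide)
    simp at this
  have hζ2 : 0 < ζ.re ^ 2 + ζ.im ^ 2 := by
    have := Complex.normSq_pos.2 hζ
    rw [Complex.normSq_apply] at this
    nlinarith
  have hX : (mu 0 : ℂ) * (ζ * x 0) + mu 1 * (ζ * x 1) + mu 2 * (ζ * x 2) = 0 := by
    rw [Fin.sum_univ_three] at hx
    linear_combination ζ * hx
  have ep := congrArg Complex.re hX
  have eq := congrArg Complex.im hX
  simp only [Complex.add_re, Complex.add_im, Complex.re_ofReal_mul, Complex.im_ofReal_mul,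
    Complex.zero_re, Complex.zero_im] at ep eq
  have H : ∀ i k, i ≠ k → 0 < (ζ * x i).re * (y k).re - (ζ * x i).im * (y k).im := by
    intro i k hik
    have := hpos i k hik
    rwa [Complex.mul_re] at this
  refine core6_real (hmu 0) (hmu 1) (hmu 2) ep eq (H 0 1 (by decide)) (H 0 2 (by decide))
    (H 1 0 (by decide)) (H 1 2 (by decide)) (H 2 0 (by decide)) (H 2 1 (by decide))
    (ze := (ρ.re ^ 2 + ρ.im ^ 2) / (ζ.re ^ 2 + ζ.im ^ 2)) (by positivity) ?_
  have hz : ζ.re ^ 2 + ζ.im ^ 2 ≠ 0 := hζ2.ne'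
  rw [div_mul_eq_mul_div, eq_div_iff hz, hy 0, hy 1, hy 2]
  simp only [Complex.add_re, Complex.add_im, Complex.mul_re, Complex.mul_im]
  ring

end Pool.Agent.Helper56.CN
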