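import Mathlib
import Pool.Agent.Helper54.OMCGlobal

/-!
# Project CN (helper56): the determinantal conjecture for half-planes bounded by lines through 0
Definitions.
-/

set_option autoImplicit false
set_option linter.unusedSectionVars false

namespace Pool.Agent.Helper56.CN

open Matrix Complex
open scoped ComplexConjugate

variable {n : Type*} [Fintype n] [DecidableEq n]

/-- all `a i` are strictly smaller in modulus than all `b j` -/
def Sep (a b : n → ℂ) : Prop := ∀ i j, ‖a i‖ < ‖b j‖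

/-- the normal matrix `U diag(a) U*` -/
noncomputable def KK (a : n → ℂ) (U : Matrix n n ℂ) : Matrix n n ℂ := U * diagonal a * star U

/-- the determinant `det (U diag(a) U* + diag(b))` -/
noncomputable def DD (a : n → ℂ) (U : Matrix n n ℂ) (b : n → ℂ) : ℂ := (KK a U + diagonal b).det

/-- the permutation points -/
noncomputable def zz (a b : n → ℂ) (σ : Equiv.Perm n) : ℂ := ∏ i, (a i + b (σ i))

/-- the argument of `det (K + B) / det B`, obtained by continuation along `t ↦ det (t K + B)` -/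
noncomputable def Farg (a : n → ℂ) (U : Matrix n n ℂ) (b : n → ℂ) : ℝ :=
  ∫ t in (0 : ℝ)..1, ((((t : ℂ) • KK a U + diagonal b)⁻¹ * KK a U).trace).im

/-- the values of `Farg` at the permutations -/
noncomputable def Fperm (a b : n → ℂ) (σ : Equiv.Perm n) : ℝ := ∑ i, Complex.arg (1 + a i / b (σ i))

/-- all permutation points lie in the open half-plane `0 < Re (ζ z)` -/
def Pos (a b : n → ℂ) (ζ : ℂ) : Prop := ∀ σ, 0 < (ζ * zz a b σ).re

/-- local maximality of `Farg - M ∑ |b j - b1 j|²` at `(U0, b)` -/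
def LocMaxF (a : n → ℂ) (U0 : Matrix n n ℂ) (b b1 : n → ℂ) (M ε : ℝ) : Prop :=
  ∀ V ∈ unitaryGroup n ℂ, ∀ b' : n → ℂ, (∀ j, ‖b' j - b j‖ < ε) →
    Farg a (V * U0) b' ≤ Farg a U0 b + M * ∑ j, (‖b' j - b1 j‖ ^ 2 - ‖b j - b1 j‖ ^ 2)

/-- the algebraic data at a critical point: `S = (K + B)⁻¹`, `K` normal, and the first order
condition `[B, S] = [B*, S*]` -/
structure Crit (K S : Matrix n n ℂ) (b : n → ℂ) : Prop where
  nrm : K * star K = star K * K
  inv1 : (K + diagonal b) * S = 1
  inv2 : S * (K + diagonal b) = 1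
  hC : ∀ i j, S i j * (b i - b j) = conj (S j i * (b i - b j))

/-- the vector `x` of the star direction at `k` -/
noncomputable def xx (S : Matrix n n ℂ) (b : n → ℂ) (k : n) (u : n → ℂ) : n → ℂ :=
  fun j => if j = k then - u k else S j k / conj (b j - b k)

/-- the vector `y = u + x` of the star direction at `k` -/
noncomputable def yy (S : Matrix n n ℂ) (b : n → ℂ) (k : n) (u : n → ℂ) : n → ℂ :=
  fun j => u j + xx S b k u j

/-- the column of the commutator `[Y, B]` -/
noncomputable def cc (S : Matrix n n ℂ) (b : n → ℂ) (k : n) (u : n → ℂ) : n → ℂ :=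
  fun j => (b k - b j) * yy S b k u j

/-- the row of the commutator `[Y, B]` -/
noncomputable def dd (S : Matrix n n ℂ) (b : n → ℂ) (k : n) (u : n → ℂ) : n → ℂ :=
  fun j => (b k - b j) * conj (yy S b k u j)

/-- the skew-Hermitian star direction `Y = y e_k* - e_k y*` -/
noncomputable def YY (S : Matrix n n ℂ) (b : n → ℂ) (k : n) (u : n → ℂ) : Matrix n n ℂ :=
  vecMulVec (yy S b k u) (Pi.single k 1) + vecMulVec (Pi.single k 1) (fun j => - conj (yy S b k u j))

/-- the commutator `[Y, B] = c e_k* + e_k d*` -/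
noncomputable def CC (S : Matrix n n ℂ) (b : n → ℂ) (k : n) (u : n → ℂ) : Matrix n n ℂ :=
  vecMulVec (cc S b k u) (Pi.single k 1) + vecMulVec (Pi.single k 1) (dd S b k u)

/-- a balanced pair of weights: `∑ μ_j [b_j] = ∑ λ_i [-a_i]` where `[z] = (1, z, |z|²)` -/
structure Bal (a b : n → ℂ) (I J : Finset n) (lam mu : n → ℝ) : Prop where
  lpos : ∀ i ∈ I, 0 < lam i
  mpos : ∀ j ∈ J, 0 < mu j
  sum : ∑ i ∈ I, lam i = ∑ j ∈ J, mu j
  lin : ∑ j ∈ J, (mu j : ℂ) * b j = - ∑ i ∈ I, (lam i : ℂ) * a i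
  sq : ∑ j ∈ J, mu j * ‖b j‖ ^ 2 = ∑ i ∈ I, lam i * ‖a i‖ ^ 2

end Pool.Agent.Helper56.CN
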