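import Pool.Agent.Helper56.CN.Inv

/-!
# Project CN (helper56), module FCont
Continuity of `Farg`.
-/

set_option autoImplicit false
set_option linter.unusedSectionVars false

namespace Pool.Agent.Helper56.CN

open Matrix Complex Filter Topology
open scoped ComplexConjugate

variable {n : Type*} [Fintype n] [DecidableEq n]

namespace FContAux

/-- the truncation to `[0,1]` -/
noncomputable def s (t : ℝ) : ℝ := max 0 (min t 1)

lemma s_cont : Continuous s := by
  unfold s
  fun_prop

lemma s_norm (t : ℝ) : ‖((s t : ℝ) : ℂ)‖ ≤ 1 := by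
  rw [Complex.norm_real, Real.norm_eq_abs, abs_le]
  unfold s
  constructor
  · exact (by norm_num : (-1 : ℝ) ≤ 0).trans (le_max_left _ _)
  · exact max_le zero_le_one (min_le_right _ _)

lemma s_eq {t : ℝ} (h0 : 0 ≤ t) (h1 : t ≤ 1) : s t = t := by
  unfold s
  rw [min_eq_left h1, max_eq_right h0]

lemma KK_cont (a : n → ℂ) : Continuous (fun U : Matrix n n ℂ => KK a U) := by
  unfold KK
  exact (continuous_id.matrix_mul continuous_const).matrix_mul
    (continuous_id.matrix_conjTranspose)

end FContAux

open FContAux in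
theorem continuousOn_Farg (a : n → ℂ) :
    ContinuousOn (fun p : Matrix n n ℂ × (n → ℂ) => Farg a p.1 p.2)
      {p | p.1 ∈ unitaryGroup n ℂ ∧ Sep a p.2} := by
  rw [continuousOn_iff_continuous_domRestrict]
  set X := {p : Matrix n n ℂ × (n → ℂ) | p.1 ∈ unitaryGroup n ℂ ∧ Sep a p.2} with hX
  let f : X → ℝ → ℝ := fun p t =>
    ((((((s t : ℝ) : ℂ) • KK a p.1.1 + diagonal p.1.2)⁻¹ * KK a p.1.1).trace).im)
  have hM : Continuous (fun q : X × ℝ =>
      ((s q.2 : ℝ) : ℂ) • KK a q.1.1.1 + diagonal q.1.1.2) := by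
    refine Continuous.add ?_ ?_
    · have h1 : Continuous (fun q : X × ℝ => ((s q.2 : ℝ) : ℂ)) :=
        Complex.continuous_ofReal.comp (s_cont.comp continuous_snd)
      have h2 : Continuous (fun q : X × ℝ => KK a q.1.1.1) :=
        (KK_cont a).comp (continuous_fst.comp (continuous_subtype_val.comp continuous_fst))
      exact h1.smul h2
    · exact Continuous.matrix_diagonal
        (continuous_snd.comp (continuous_subtype_val.comp continuous_fst))
  have hdet : ∀ q : X × ℝ, (((s q.2 : ℝ) : ℂ) • KK a q.1.1.1 + diagonal q.1.1.2).det ≠ 0 :=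
    fun q => det_ne q.1.2.2 q.1.2.1 (s_norm q.2)
  have hinv : Continuous (fun q : X × ℝ =>
      (((s q.2 : ℝ) : ℂ) • KK a q.1.1.1 + diagonal q.1.1.2)⁻¹) := by
    have e : (fun q : X × ℝ => (((s q.2 : ℝ) : ℂ) • KK a q.1.1.1 + diagonal q.1.1.2)⁻¹) =
        fun q : X × ℝ => ((((s q.2 : ℝ) : ℂ) • KK a q.1.1.1 + diagonal q.1.1.2).det)⁻¹ •
          (((s q.2 : ℝ) : ℂ) • KK a q.1.1.1 + diagonal q.1.1.2).adjugate := by
      funext q
      rw [Matrix.inv_def, Ring.inverse_eq_inv']
    rw [e]
    exact (hM.matrix_det.inv₀ hdet).smul hM.matrix_adjugate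
  have hf : Continuous (Function.uncurry f) := by
    refine Complex.continuous_im.comp ?_
    refine Continuous.matrix_trace (Continuous.matrix_mul hinv ?_)
    exact (KK_cont a).comp (continuous_fst.comp (continuous_subtype_val.comp continuous_fst))
  have h := intervalIntegral.continuous_parametric_intervalIntegral_of_continuous
    (f := f) (μ := MeasureTheory.volume) (a₀ := 0) hf (continuous_const (y := (1 : ℝ)))
  have e : X.domRestrict (fun p : Matrix n n ℂ × (n → ℂ) => Farg a p.1 p.2) =
      fun p : X => ∫ t in (0 : ℝ)..1, f p t := by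
    funext p
    rw [Set.domRestrict_apply, Farg]
    refine intervalIntegral.integral_congr ?_
    intro t ht
    rw [Set.uIcc_of_le zero_le_one] at ht
    simp only [f]
    rw [s_eq ht.1 ht.2]
  rw [e]
  exact h

end Pool.Agent.Helper56.CN
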