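import Pool.Agent.Helper56.CN.FCont
import Pool.Agent.Helper56.CN.FExp

/-!
# Project CN (helper56), module Family
The local maximum condition along the Cayley families.
-/

set_option autoImplicit false
set_option linter.unusedSectionVars false

namespace Pool.Agent.Helper56.CN

open Matrix Complex Filter Topology
open scoped ComplexConjugate

variable {n : Type*} [Fintype n] [DecidableEq n]

/-- the matrix `(1 + tT) K (1 - tT) + (1 - tT) (B + tH) (1 + tT)`, `H = z e_l e_l*` -/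
noncomputable def GG (K B T : Matrix n n ℂ) (l : n) (z : ℂ) (t : ℝ) : Matrix n n ℂ :=
  (1 + (t : ℂ) • T) * K * (1 - (t : ℂ) • T)
    + (1 - (t : ℂ) • T) * (B + (t : ℂ) • Matrix.single l l z) * (1 + (t : ℂ) • T)

namespace FamilyAux

/-- the perturbed eigenvalues -/
def bt (b : n → ℂ) (l : n) (z : ℂ) (t : ℝ) : n → ℂ := fun j => b j + (t : ℂ) * (Pi.single l z : n → ℂ) j

lemma bt_diag (b : n → ℂ) (l : n) (z : ℂ) (t : ℝ) :
    diagonal b + (t : ℂ) • Matrix.single l l z = diagonal (bt b l z t) := by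
  ext i j
  by_cases hij : i = j
  · subst hij
    by_cases hl : i = l
    · subst hl
      simp [bt]
    · simp [bt, hl, Ne.symm hl, Matrix.single_apply]
  · have : ¬ (l = i ∧ l = j) := by
      rintro ⟨h1, h2⟩
      exact hij (h1.symm.trans h2)
    simp [bt, hij, Matrix.single_apply, this]

/-- the Cayley transform -/
noncomputable def Vt (T : Matrix n n ℂ) (t : ℝ) : Matrix n n ℂ :=
  (1 + (t : ℂ) • T) * (1 - (t : ℂ) • T)⁻¹

lemma star_P {T : Matrix n n ℂ} (hT : star T = -T) (t : ℝ) :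
    star (1 - (t : ℂ) • T) = 1 + (t : ℂ) • T := by
  rw [star_sub, star_one, star_smul, hT]
  simp

lemma comm_P {T : Matrix n n ℂ} (hT : star T = -T) (t : ℝ) :
    (1 - (t : ℂ) • T) * star (1 - (t : ℂ) • T) = star (1 - (t : ℂ) • T) * (1 - (t : ℂ) • T) := by
  rw [star_P hT]
  simp only [Matrix.mul_add, Matrix.add_mul, Matrix.mul_sub, Matrix.sub_mul, Matrix.one_mul,
    Matrix.mul_one]
  abel

lemma Vt_tendsto (T : Matrix n n ℂ) : Tendsto (Vt T) (𝓝 0) (𝓝 1) := by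
  have h1 : Continuous fun t : ℝ => (1 - (t : ℂ) • T) := by fun_prop
  have h2 : Continuous fun t : ℝ => (1 + (t : ℂ) • T) := by fun_prop
  have h0 : (1 - ((0 : ℝ) : ℂ) • T).det ≠ 0 := by simp
  have h3 : ContinuousAt (fun t : ℝ => (1 - (t : ℂ) • T)⁻¹) 0 := by
    have h4 : (fun t : ℝ => (1 - (t : ℂ) • T)⁻¹) =
        fun t : ℝ => ((1 - (t : ℂ) • T).det)⁻¹ • (1 - (t : ℂ) • T).adjugate := by
      funext t
      rw [Matrix.inv_def, Ring.inverse_eq_inv']
    rw [h4]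
    exact (h1.matrix_det.continuousAt.inv₀ h0).smul h1.matrix_adjugate.continuousAt
  have h5 : ContinuousAt (Vt T) 0 := h2.continuousAt.mul h3
  have h6 : Vt T 0 = 1 := by
    unfold Vt
    simp
  have h7 := h5.tendsto
  rwa [h6] at h7

lemma bt_tendsto (b : n → ℂ) (l : n) (z : ℂ) : Tendsto (bt b l z) (𝓝 0) (𝓝 b) := by
  have h1 : Continuous (bt b l z) := by
    unfold bt
    fun_prop
  have h2 : bt b l z 0 = b := by
    funext j
    simp [bt]
  have h3 := h1.tendsto 0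
  rwa [h2] at h3

lemma sep_eventually {a b : n → ℂ} (hs : Sep a b) : ∀ᶠ b' in 𝓝 b, Sep a b' := by
  unfold Sep
  rw [Filter.eventually_all]
  intro i
  rw [Filter.eventually_all]
  intro j
  have hc : Continuous fun b' : n → ℂ => ‖b' j‖ := by fun_prop
  exact hc.continuousAt.eventually_const_lt (hs i j)

lemma bt_sum (b b1 : n → ℂ) (l : n) (z : ℂ) (t : ℝ) :
    ∑ j, (‖bt b l z t j - b1 j‖ ^ 2 - ‖b j - b1 j‖ ^ 2) =
      t * (2 * (conj (b l - b1 l) * z).re) + t ^ 2 * ‖z‖ ^ 2 := by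
  rw [Finset.sum_eq_single l]
  · have h1 : bt b l z t l = b l + (t : ℂ) * z := by simp [bt]
    rw [h1, ← Complex.normSq_eq_norm_sq, ← Complex.normSq_eq_norm_sq,
      ← Complex.normSq_eq_norm_sq,
      show b l + (t : ℂ) * z - b1 l = (b l - b1 l) + (t : ℂ) * z by ring, Complex.normSq_add]
    simp only [map_mul, Complex.normSq_mul, Complex.normSq_ofReal, Complex.conj_ofReal,
      Complex.mul_re, Complex.mul_im, Complex.conj_re, Complex.conj_im, Complex.ofReal_re,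
      Complex.ofReal_im]
    ring
  · intro j _ hj
    have h1 : bt b l z t j = b j := by simp [bt, hj]
    rw [h1, sub_self]
  · intro h
    exact absurd (Finset.mem_univ l) h

lemma bt_prod {b : n → ℂ} (l : n) (hb : b l ≠ 0) (z : ℂ) (t : ℝ) :
    ∏ j, bt b l z t j = (∏ j, b j) * (1 + (t : ℂ) * (z / b l)) := by
  rw [← Finset.mul_prod_erase _ _ (Finset.mem_univ l),
    ← Finset.mul_prod_erase Finset.univ b (Finset.mem_univ l)]
  have h1 : bt b l z t l = b l + (t : ℂ) * z := by simp [bt]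
  have h2 : ∏ j ∈ Finset.univ.erase l, bt b l z t j = ∏ j ∈ Finset.univ.erase l, b j := by
    refine Finset.prod_congr rfl fun j hj => ?_
    simp [bt, Finset.ne_of_mem_erase hj]
  rw [h1, h2]
  field_simp

lemma arg_pos_exp {r θ : ℝ} (hr : 0 < r) (h1 : -Real.pi < θ) (h2 : θ ≤ Real.pi) :
    Complex.arg ((r : ℂ) * Complex.exp ((θ : ℂ) * I)) = θ := by
  rw [Complex.arg_real_mul _ hr, Complex.exp_mul_I, Complex.arg_cos_add_sin_mul_I ⟨h1, h2⟩]

lemma Vt_mul_tendsto (T U0 : Matrix n n ℂ) :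
    Tendsto (fun t : ℝ => Vt T t * U0) (𝓝 0) (𝓝 U0) := by
  have hc : Continuous fun X : Matrix n n ℂ => X * U0 := by fun_prop
  have h := (hc.tendsto (1 : Matrix n n ℂ)).comp (Vt_tendsto T)
  rw [Matrix.one_mul] at h
  exact h

lemma near_eventually (b : n → ℂ) {ε : ℝ} (hε : 0 < ε) :
    ∀ᶠ b' in 𝓝 b, ∀ j, ‖b' j - b j‖ < ε := by
  rw [Filter.eventually_all]
  intro j
  have hc : Continuous fun b' : n → ℂ => ‖b' j - b j‖ := by fun_prop
  have h0 : ‖b j - b j‖ < ε := by simpa using hε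
  exact hc.continuousAt.eventually_lt_const h0

lemma Vt_unitary {T : Matrix n n ℂ} (hT : star T = -T) (t : ℝ)
    (ht : (1 - (t : ℂ) • T).det ≠ 0) : Vt T t ∈ unitaryGroup n ℂ := by
  have := Pool.Agent.Helper54.OMC.cayley_unitary (1 - (t : ℂ) • T) (comm_P hT t) (Ne.isUnit ht)
  rwa [star_P hT] at this

lemma det_eventually (T : Matrix n n ℂ) : ∀ᶠ t : ℝ in 𝓝 0, (1 - (t : ℂ) • T).det ≠ 0 := by
  have hdet0 : (1 - ((0 : ℝ) : ℂ) • T).det ≠ 0 := by simp
  have hdetc : Continuous fun t : ℝ => (1 - (t : ℂ) • T).det := by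
    apply Continuous.matrix_det
    fun_prop
  exact hdetc.continuousAt.eventually_ne hdet0

lemma tendsto_of_contOn {X Y Z : Type*} [TopologicalSpace X] [TopologicalSpace Y]
    [TopologicalSpace Z] {F : X → Y → Z} {S : Set (X × Y)}
    (hF : ContinuousOn (fun p : X × Y => F p.1 p.2) S) {x : X} {y : Y} (hxy : (x, y) ∈ S)
    {f : ℝ → X} {g : ℝ → Y} (hf : Tendsto f (𝓝 0) (𝓝 x)) (hg : Tendsto g (𝓝 0) (𝓝 y))
    (hS : ∀ᶠ t : ℝ in 𝓝 0, (f t, g t) ∈ S) :
    Tendsto (fun t : ℝ => F (f t) (g t)) (𝓝 0) (𝓝 (F x y)) := by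
  have h1 : Tendsto (fun p : X × Y => F p.1 p.2) (𝓝[S] (x, y)) (𝓝 (F x y)) := hF (x, y) hxy
  have h3 : Tendsto (fun t : ℝ => (f t, g t)) (𝓝 0) (𝓝 (x, y)) := hf.prodMk_nhds hg
  have h2 := tendsto_nhdsWithin_of_tendsto_nhds_of_eventually_within _ h3 hS
  exact h1.comp h2

lemma Farg_tendsto {a b : n → ℂ} {U0 : Matrix n n ℂ} (hU0 : U0 ∈ unitaryGroup n ℂ)
    (hs : Sep a b) (T : Matrix n n ℂ) (hT : star T = -T) (l : n) (z : ℂ) :
    Tendsto (fun t : ℝ => Farg a (Vt T t * U0) (bt b l z t)) (𝓝 0) (𝓝 (Farg a U0 b)) := by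
  have h4 : ∀ᶠ t : ℝ in 𝓝 0, (Vt T t * U0, bt b l z t) ∈
      {p : Matrix n n ℂ × (n → ℂ) | p.1 ∈ unitaryGroup n ℂ ∧ Sep a p.2} := by
    have e1 := det_eventually T
    have e2 : ∀ᶠ t : ℝ in 𝓝 0, Sep a (bt b l z t) :=
      (bt_tendsto b l z).eventually (sep_eventually hs)
    refine (e1.and e2).mono fun t ht => ?_
    exact ⟨mul_mem (Vt_unitary hT t ht.1) hU0, ht.2⟩
  exact tendsto_of_contOn (F := fun U b' => Farg a U b') (continuousOn_Farg (n := n) a)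
    (x := U0) (y := b) ⟨hU0, hs⟩ (Vt_mul_tendsto T U0) (bt_tendsto b l z) h4

end FamilyAux

open FamilyAux

theorem arg_family {a b b1 : n → ℂ} {U0 : Matrix n n ℂ} (hU0 : U0 ∈ unitaryGroup n ℂ)
    {M ε : ℝ} (hε : 0 < ε) (hs : Sep a b) (h : LocMaxF a U0 b b1 M ε)
    (T : Matrix n n ℂ) (hT : star T = -T) (l : n) (z : ℂ) :
    ∀ᶠ t : ℝ in 𝓝 0,
      Complex.arg ((GG (KK a U0) (diagonal b) T l z t).det / (KK a U0 + diagonal b).det
        * conj (1 + (t : ℂ) * (z / b l)))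
      ≤ t * (M * (2 * (conj (b l - b1 l) * z).re)) + t ^ 2 * (M * ‖z‖ ^ 2) := by
  have ev1 : ∀ᶠ t : ℝ in 𝓝 0, (1 - (t : ℂ) • T).det ≠ 0 := det_eventually T
  have ev2 : ∀ᶠ t : ℝ in 𝓝 0, Sep a (bt b l z t) :=
    (bt_tendsto b l z).eventually (sep_eventually hs)
  have ev3 : ∀ᶠ t : ℝ in 𝓝 0, ∀ j, ‖bt b l z t j - b j‖ < ε :=
    (bt_tendsto b l z).eventually (near_eventually b hε)
  have htend := Farg_tendsto hU0 hs T hT l z
  have ev4 : ∀ᶠ t : ℝ in 𝓝 0, |Farg a (Vt T t * U0) (bt b l z t) - Farg a U0 b| < Real.pi := by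
    have h1 := (htend.sub_const (Farg a U0 b)).abs
    rw [sub_self, abs_zero] at h1
    exact h1.eventually_lt_const Real.pi_pos
  filter_upwards [ev1, ev2, ev3, ev4] with t ht1 ht2 ht3 ht4
  have hVt := Vt_unitary hT t ht1
  -- the determinant
  have hcd := Pool.Agent.Helper54.OMC.cayley_det (1 - (t : ℂ) • T) (KK a U0)
    (diagonal (bt b l z t)) (comm_P hT t) (Ne.isUnit ht1)
  rw [star_P hT] at hcd
  have hG : GG (KK a U0) (diagonal b) T l z t = (1 + (t : ℂ) • T) * KK a U0 * (1 - (t : ℂ) • T)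
      + (1 - (t : ℂ) • T) * diagonal (bt b l z t) * (1 + (t : ℂ) • T) := by
    rw [GG, bt_diag]
  rw [← hG] at hcd
  have hKV : (1 + (t : ℂ) • T) * (1 - (t : ℂ) • T)⁻¹ * KK a U0 *
      star ((1 + (t : ℂ) • T) * (1 - (t : ℂ) • T)⁻¹) = KK a (Vt T t * U0) := KK_mul a (Vt T t) U0
  rw [hKV] at hcd
  have hPP : ((1 - (t : ℂ) • T) * (1 + (t : ℂ) • T)).det =
      ((‖(1 - (t : ℂ) • T).det‖ ^ 2 : ℝ) : ℂ) := by
    rw [Matrix.det_mul, ← star_P hT, star_eq_conjTranspose, det_conjTranspose]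
    rw [show star ((1 - (t : ℂ) • T).det) = conj ((1 - (t : ℂ) • T).det) from rfl,
      Complex.mul_conj, Complex.normSq_eq_norm_sq]
  rw [hPP] at hcd
  obtain ⟨r, hr, hr'⟩ := DD_eq_exp ht2 (mul_mem hVt hU0)
  obtain ⟨r0, hr0, hr0'⟩ := DD_eq_exp hs hU0
  have hbl : ∀ j, b j ≠ 0 := fun j hj => by
    have := hs j j
    rw [hj, norm_zero] at this
    exact absurd this (not_lt.2 (norm_nonneg _))
  have hbl' : bt b l z t l ≠ 0 := fun hj => by
    have := ht2 l l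
    rw [hj, norm_zero] at this
    exact absurd this (not_lt.2 (norm_nonneg _))
  have hw : 1 + (t : ℂ) * (z / b l) ≠ 0 := by
    intro h0
    apply hbl'
    have h1 : bt b l z t l = b l * (1 + (t : ℂ) * (z / b l)) := by
      have h2 := hbl l
      simp only [bt, Pi.single_eq_same]
      field_simp
    rw [h1, h0, mul_zero]
  have hprod : (∏ j, b j) ≠ 0 := Finset.prod_ne_zero_iff.2 fun j _ => hbl j
  set θ := Farg a (Vt T t * U0) (bt b l z t) - Farg a U0 b with hθ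
  set w := 1 + (t : ℂ) * (z / b l) with hwdef
  have hD0 : (KK a U0 + diagonal b).det =
      (∏ j, b j) * ((r0 : ℂ) * Complex.exp ((Farg a U0 b : ℂ) * I)) := hr0'
  have hDt : (KK a (Vt T t * U0) + diagonal (bt b l z t)).det =
      (∏ j, b j) * w * ((r : ℂ) * Complex.exp ((Farg a (Vt T t * U0) (bt b l z t) : ℂ) * I)) := by
    rw [← bt_prod l (hbl l) z t]
    exact hr'
  have hexp : Complex.exp ((Farg a (Vt T t * U0) (bt b l z t) : ℂ) * I) =
      Complex.exp ((Farg a U0 b : ℂ) * I) * Complex.exp ((θ : ℂ) * I) := by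
    rw [← Complex.exp_add]
    congr 1
    rw [hθ]
    push_cast
    ring
  have hmain : (GG (KK a U0) (diagonal b) T l z t).det / (KK a U0 + diagonal b).det * conj w =
      ((‖(1 - (t : ℂ) • T).det‖ ^ 2 * (r / r0) * ‖w‖ ^ 2 : ℝ) : ℂ) *
        Complex.exp ((θ : ℂ) * I) := by
    rw [← hcd, hDt, hD0, hexp]
    have hww : w * conj w = ((‖w‖ ^ 2 : ℝ) : ℂ) := by
      rw [Complex.mul_conj, Complex.normSq_eq_norm_sq]
    have he : Complex.exp ((Farg a U0 b : ℂ) * I) ≠ 0 := Complex.exp_ne_zero _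
    have hr00 : (r0 : ℂ) ≠ 0 := Complex.ofReal_ne_zero.2 hr0.ne'
    have h1 : (∏ j, b j) * w * ((r : ℂ) * (Complex.exp ((Farg a U0 b : ℂ) * I) *
        Complex.exp ((θ : ℂ) * I))) * ((‖(1 - (t : ℂ) • T).det‖ ^ 2 : ℝ) : ℂ) /
        ((∏ j, b j) * ((r0 : ℂ) * Complex.exp ((Farg a U0 b : ℂ) * I))) * conj w =
        ((‖(1 - (t : ℂ) • T).det‖ ^ 2 : ℝ) : ℂ) * ((r : ℂ) / r0) * (w * conj w) *
        Complex.exp ((θ : ℂ) * I) := by
      field_simp
    rw [h1, hww]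
    push_cast
    ring
  have hpos : 0 < ‖(1 - (t : ℂ) • T).det‖ ^ 2 * (r / r0) * ‖w‖ ^ 2 := by
    have h1 : 0 < ‖(1 - (t : ℂ) • T).det‖ := norm_pos_iff.2 ht1
    have h2 : 0 < ‖w‖ := norm_pos_iff.2 hw
    positivity
  have habs := abs_lt.1 ht4
  rw [hmain, arg_pos_exp hpos habs.1 habs.2.le]
  have hl := h (Vt T t) hVt (bt b l z t) ht3
  rw [bt_sum] at hl
  rw [hθ]
  linarith

end Pool.Agent.Helper56.CN
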