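import Pool.Agent.Helper56.CN.SepMain
import Pool.Agent.Helper56.CN.Cone

/-!
# Project CN (helper56), module Final
Assembly.
-/

set_option autoImplicit false
set_option linter.unusedSectionVars false

namespace Pool.Agent.Helper56.CN

open Matrix Complex Filter Topology
open scoped ComplexConjugate

variable {n : Type*} [Fintype n] [DecidableEq n]

theorem det_pair (d1 d2 : n → ℂ) (p : ℂ) (U1 U2 : unitary (Matrix n n ℂ)) :
    ((U1 : Matrix n n ℂ) * diagonal d1 * star (U1 : Matrix n n ℂ)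
      + (U2 : Matrix n n ℂ) * diagonal d2 * star (U2 : Matrix n n ℂ)).det
      = DD (fun i => d1 i + p) (star (U2 : Matrix n n ℂ) * U1) (fun j => d2 j - p) := by
  have h2 : star (U2 : Matrix n n ℂ) * (U2 : Matrix n n ℂ) = 1 :=
    Unitary.star_mul_self_of_mem U2.2
  have h3 : (U2 : Matrix n n ℂ) * star (U2 : Matrix n n ℂ) = 1 :=
    Unitary.mul_star_self_of_mem U2.2
  have h4 : (U1 : Matrix n n ℂ) * star (U1 : Matrix n n ℂ) = 1 :=
    Unitary.mul_star_self_of_mem U1.2
  have e0 : diagonal (fun i => d1 i + p) = diagonal d1 + p • (1 : Matrix n n ℂ) := by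
    rw [smul_one_eq_diagonal, diagonal_add]
  have e0' : diagonal (fun j => d2 j - p) = diagonal d2 - p • (1 : Matrix n n ℂ) := by
    rw [smul_one_eq_diagonal, diagonal_sub]
  have e1 : (U1 : Matrix n n ℂ) * diagonal d1 * star (U1 : Matrix n n ℂ)
      + (U2 : Matrix n n ℂ) * diagonal d2 * star (U2 : Matrix n n ℂ)
      = (U2 : Matrix n n ℂ) * (KK (fun i => d1 i + p) (star (U2 : Matrix n n ℂ) * U1)
        + diagonal (fun j => d2 j - p)) * star (U2 : Matrix n n ℂ) := by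
    rw [KK, star_mul, star_star, e0, e0']
    have : star (U2 : Matrix n n ℂ) * (U1 : Matrix n n ℂ) * (diagonal d1 + p • (1 : Matrix n n ℂ))
        * (star (U1 : Matrix n n ℂ) * (U2 : Matrix n n ℂ)) + (diagonal d2 - p • (1 : Matrix n n ℂ))
        = star (U2 : Matrix n n ℂ) * ((U1 : Matrix n n ℂ) * diagonal d1 * star (U1 : Matrix n n ℂ))
          * (U2 : Matrix n n ℂ) + diagonal d2 := by
      rw [Matrix.mul_add, Matrix.add_mul, mul_smul_comm, Matrix.mul_one, smul_mul_assoc]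
      have : star (U2 : Matrix n n ℂ) * (U1 : Matrix n n ℂ)
          * (star (U1 : Matrix n n ℂ) * (U2 : Matrix n n ℂ)) = 1 := by
        calc star (U2 : Matrix n n ℂ) * (U1 : Matrix n n ℂ)
          * (star (U1 : Matrix n n ℂ) * (U2 : Matrix n n ℂ))
            = star (U2 : Matrix n n ℂ) * ((U1 : Matrix n n ℂ) * star (U1 : Matrix n n ℂ))
              * (U2 : Matrix n n ℂ) := by simp only [Matrix.mul_assoc]
          _ = 1 := by rw [h4, Matrix.mul_one, h2]
      rw [this]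
      simp only [Matrix.mul_assoc]
      abel
    rw [this, Matrix.mul_add, Matrix.add_mul]
    congr 1
    calc (U1 : Matrix n n ℂ) * diagonal d1 * star (U1 : Matrix n n ℂ)
        = ((U2 : Matrix n n ℂ) * star (U2 : Matrix n n ℂ)) * ((U1 : Matrix n n ℂ) * diagonal d1
          * star (U1 : Matrix n n ℂ)) * ((U2 : Matrix n n ℂ) * star (U2 : Matrix n n ℂ)) := by
          rw [h3, Matrix.one_mul, Matrix.mul_one]
      _ = _ := by simp only [Matrix.mul_assoc]
  rw [e1, Matrix.mul_assoc, Matrix.det_mul_comm, Matrix.mul_assoc, h2, Matrix.mul_one, DD]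

theorem zz_shift (a b : n → ℂ) (p : ℂ) (σ : Equiv.Perm n) :
    zz (fun i => a i + p) (fun j => b j - p) σ = zz a b σ := by
  unfold zz
  exact Finset.prod_congr rfl fun i _ => by ring

theorem zz_swap (a b : n → ℂ) (σ : Equiv.Perm n) : zz b a σ = zz a b σ.symm := by
  unfold zz
  rw [← Equiv.prod_comp σ (fun i => a i + b (σ.symm i))]
  exact Finset.prod_congr rfl fun i _ => by rw [Equiv.symm_apply_apply, add_comm]

/-- The cone theorem. -/
theorem cone {d1 d2 : n → ℂ} {ζ : ℂ} (hp : Pos d1 d2 ζ) (U1 U2 : unitary (Matrix n n ℂ)) :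
    ∃ (x y : ℝ) (σ τ : Equiv.Perm n), 0 ≤ x ∧ 0 ≤ y ∧ 0 < x + y ∧
      ((U1 : Matrix n n ℂ) * diagonal d1 * star (U1 : Matrix n n ℂ)
        + (U2 : Matrix n n ℂ) * diagonal d2 * star (U2 : Matrix n n ℂ)).det
      = x * zz d1 d2 σ + y * zz d1 d2 τ := by
  obtain ⟨p, h | h⟩ := exists_sep hp
  · have hp' : Pos (fun i => d1 i + p) (fun j => d2 j - p) ζ := by
      intro σ
      rw [zz_shift]; exact hp σ
    have hU : star (U2 : Matrix n n ℂ) * (U1 : Matrix n n ℂ) ∈ unitaryGroup n ℂ :=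
      mul_mem (Unitary.star_mem U2.2) U1.2
    obtain ⟨x, y, σ, τ, hx, hy, hxy, e⟩ := cone_of_sep h hU hp'
    refine ⟨x, y, σ, τ, hx, hy, hxy, ?_⟩
    rw [det_pair d1 d2 p, e, zz_shift, zz_shift]
  · have hp' : Pos (fun j => d2 j + -p) (fun i => d1 i - -p) ζ := by
      intro σ
      rw [zz_shift]; exact hp.swap σ
    have hs : Sep (fun j => d2 j + -p) (fun i => d1 i - -p) := by
      intro i j
      have := h i j
      simpa [sub_eq_add_neg] using this
    have hU : star (U1 : Matrix n n ℂ) * (U2 : Matrix n n ℂ) ∈ unitaryGroup n ℂ :=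
      mul_mem (Unitary.star_mem U1.2) U2.2
    obtain ⟨x, y, σ, τ, hx, hy, hxy, e⟩ := cone_of_sep hs hU hp'
    refine ⟨x, y, σ.symm, τ.symm, hx, hy, hxy, ?_⟩
    rw [add_comm, det_pair d2 d1 (-p), e, zz_shift, zz_shift, zz_swap d1 d2 σ, zz_swap d1 d2 τ]

/-- a half-plane from the convex hull -/
theorem exists_pos {a b : n → ℂ} (h : (0 : ℂ) ∉ convexHull ℝ (Set.range (zz a b))) :
    ∃ ζ : ℂ, Pos a b ζ := by
  have hfin : (Set.range (zz a b)).Finite := Set.finite_range _
  have hcl : IsClosed (convexHull ℝ (Set.range (zz a b))) := hfin.isClosed_convexHull ℝ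
  obtain ⟨f, s, hs0, hs⟩ := geometric_hahn_banach_point_closed (convex_convexHull ℝ _) hcl h
  rw [map_zero] at hs0
  refine ⟨⟨f 1, -f I⟩, fun σ => ?_⟩
  have h1 := hs (zz a b σ) (subset_convexHull ℝ _ ⟨σ, rfl⟩)
  have h2 : f (zz a b σ) = (zz a b σ).re * f 1 + (zz a b σ).im * f I := by
    conv_lhs => rw [← Complex.re_add_im (zz a b σ)]
    have e1 : ((zz a b σ).re : ℂ) = (zz a b σ).re • (1 : ℂ) := by simp
    have e2 : ((zz a b σ).im : ℂ) * I = (zz a b σ).im • I := by simp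
    rw [map_add, e2, map_smul, smul_eq_mul]
    conv_lhs => rw [e1]
    rw [map_smul, smul_eq_mul]
  rw [Complex.mul_re]
  simp only
  rw [h2] at h1
  linarith

/-- The scaled statement. -/
theorem exists_scale {d1 d2 : n → ℂ} (h : (0 : ℂ) ∉ convexHull ℝ (Set.range (zz d1 d2)))
    (U1 U2 : unitary (Matrix n n ℂ)) :
    ((U1 : Matrix n n ℂ) * diagonal d1 * star (U1 : Matrix n n ℂ)
        + (U2 : Matrix n n ℂ) * diagonal d2 * star (U2 : Matrix n n ℂ)).det ≠ 0 ∧
    ∃ t : ℝ, 0 < t ∧ (t : ℂ) * ((U1 : Matrix n n ℂ) * diagonal d1 * star (U1 : Matrix n n ℂ)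
        + (U2 : Matrix n n ℂ) * diagonal d2 * star (U2 : Matrix n n ℂ)).det
      ∈ convexHull ℝ (Set.range (zz d1 d2)) := by
  obtain ⟨ζ, hp⟩ := exists_pos h
  obtain ⟨x, y, σ, τ, hx, hy, hxy, e⟩ := cone hp U1 U2
  rw [e]
  constructor
  · intro h0
    have h1 := congrArg (fun w => (ζ * w).re) h0
    simp only [mul_zero, Complex.zero_re] at h1
    have h2 : (ζ * ((x : ℂ) * zz d1 d2 σ + (y : ℂ) * zz d1 d2 τ)).re
        = x * (ζ * zz d1 d2 σ).re + y * (ζ * zz d1 d2 τ).re := by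
      rw [show ζ * ((x : ℂ) * zz d1 d2 σ + (y : ℂ) * zz d1 d2 τ)
        = (x : ℂ) * (ζ * zz d1 d2 σ) + (y : ℂ) * (ζ * zz d1 d2 τ) by ring,
        Complex.add_re, Complex.re_ofReal_mul, Complex.re_ofReal_mul]
    rw [h2] at h1
    have p1 := hp σ
    have p2 := hp τ
    rcases lt_or_eq_of_le hx with hx' | hx'
    · nlinarith [mul_pos hx' p1, mul_nonneg hy p2.le]
    · have : 0 < y := by linarith
      nlinarith [mul_pos this p2, mul_nonneg hx p1.le]
  · refine ⟨(x + y)⁻¹, inv_pos.2 hxy, ?_⟩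
    have e1 : (((x + y)⁻¹ : ℝ) : ℂ) * ((x : ℂ) * zz d1 d2 σ + (y : ℂ) * zz d1 d2 τ)
        = (x / (x + y)) • zz d1 d2 σ + (y / (x + y)) • zz d1 d2 τ := by
      simp only [Complex.real_smul, div_eq_mul_inv]
      push_cast
      ring
    rw [e1]
    refine convex_convexHull ℝ _ (subset_convexHull ℝ _ (Set.mem_range_self σ))
      (subset_convexHull ℝ _ (Set.mem_range_self τ)) (by positivity) (by positivity) ?_
    rw [← add_div, div_self hxy.ne']

end Pool.Agent.Helper56.CN
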