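import Pool.Agent.Helper56.CN.Defs

/-!
# Project CN (helper56), module HC
The first order condition in matrix form.
-/

set_option autoImplicit false
set_option linter.unusedSectionVars false

namespace Pool.Agent.Helper56.CN

open Matrix Complex Filter Topology
open scoped ComplexConjugate

variable {n : Type*} [Fintype n] [DecidableEq n]

theorem trace_aux (S : Matrix n n ℂ) (b : n → ℂ) (Y : Matrix n n ℂ) :
    (S * (Y * diagonal b - diagonal b * Y)).trace =
      ∑ p, ∑ q, S p q * (b p - b q) * Y q p := by
  rw [trace]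
  refine Finset.sum_congr rfl fun p _ => ?_
  rw [diag_apply, Matrix.mul_apply]
  refine Finset.sum_congr rfl fun q _ => ?_
  rw [Matrix.sub_apply, Matrix.mul_diagonal, Matrix.diagonal_mul]
  ring

theorem hC_of_fo {S : Matrix n n ℂ} {b : n → ℂ}
    (h : ∀ Y : Matrix n n ℂ, star Y = -Y → (S * (Y * diagonal b - diagonal b * Y)).trace.im = 0)
    (i j : n) : S i j * (b i - b j) = conj (S j i * (b i - b j)) := by
  by_cases hij : i = j
  · subst hij; simp
  have key : ∀ c : ℂ, (c * (S i j * (b i - b j)) + conj c * (S j i * (b i - b j))).im = 0 := by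
    intro c
    have hs : star (single j i c - single i j (conj c) : Matrix n n ℂ) =
        -(single j i c - single i j (conj c)) := by
      ext p q
      simp only [Matrix.star_apply, Matrix.sub_apply, Matrix.neg_apply, Matrix.single_apply, star_sub]
      by_cases h1 : j = p ∧ i = q
      · have h2 : ¬ (i = p ∧ j = q) := by
          rintro ⟨h3, h4⟩; exact hij (h3.trans h1.1.symm)
        have h3 : ¬ (j = q ∧ i = p) := fun h => h2 ⟨h.2, h.1⟩
        have h4 : i = q ∧ j = p := ⟨h1.2, h1.1⟩
        rw [if_pos h1, if_neg h2, if_neg h3, if_pos h4]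
        simp
      · have h4 : ¬ (i = q ∧ j = p) := fun h => h1 ⟨h.2, h.1⟩
        rw [if_neg h1, if_neg h4]
        by_cases h2 : i = p ∧ j = q
        · rw [if_pos h2, if_pos (⟨h2.2, h2.1⟩ : j = q ∧ i = p)]
          simp
        · rw [if_neg h2, if_neg (fun h => h2 ⟨h.2, h.1⟩ : ¬ (j = q ∧ i = p))]
          simp
    have h1 := h _ hs
    rw [trace_aux] at h1
    have h2 : (∑ p, ∑ q, S p q * (b p - b q) *
        (single j i c - single i j (conj c) : Matrix n n ℂ) q p) =
        c * (S i j * (b i - b j)) + conj c * (S j i * (b i - b j)) := by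
      have h3 : ∀ p q, S p q * (b p - b q) *
          (single j i c - single i j (conj c) : Matrix n n ℂ) q p =
          (if i = p then (if j = q then S p q * (b p - b q) * c else 0) else 0) -
          (if j = p then (if i = q then S p q * (b p - b q) * conj c else 0) else 0) := by
        intro p q
        rw [Matrix.sub_apply, Matrix.single_apply, Matrix.single_apply, mul_sub]
        congr 1
        · by_cases h4 : i = p
          · by_cases h5 : j = q
            · simp [h4, h5]
            · simp [h5]
          · simp [h4]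
        · by_cases h4 : j = p
          · by_cases h5 : i = q
            · simp [h4, h5]
            · simp [h5]
          · simp [h4]
      simp only [h3, Finset.sum_sub_distrib]
      simp
      ring
    rw [h2] at h1
    exact h1
  have k1 := key 1
  have k2 := key I
  have e : S j i * (b i - b j) = conj (S i j * (b i - b j)) := by
    apply Complex.ext
    · have : (I * (S i j * (b i - b j)) + conj I * (S j i * (b i - b j))).im =
          (S i j * (b i - b j)).re - (S j i * (b i - b j)).re := by
        rw [conj_I, add_im, neg_mul, neg_im, I_mul_im, I_mul_im]; ring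
      rw [this] at k2
      rw [conj_re]; linarith
    · rw [one_mul, map_one, one_mul, add_im] at k1
      rw [conj_im]; linarith
  rw [e, Complex.conj_conj]

/-- a real quadratic inequality -/
theorem eq_zero_of_im_le (x : ℂ) (c : ℝ) (h : ∀ z : ℂ, (2 * z * x).im ≤ c * ‖z‖ ^ 2) : x = 0 := by
  by_contra hx
  have hpos : 0 < ‖x‖ ^ 2 := by positivity
  have ht : (0 : ℝ) < 1 / (|c| + 1) := by positivity
  have h1 := h (((1 / (|c| + 1) : ℝ) : ℂ) * (I * conj x))
  have h2 : (2 * (((1 / (|c| + 1) : ℝ) : ℂ) * (I * conj x)) * x).im =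
      2 * (1 / (|c| + 1)) * ‖x‖ ^ 2 := by
    have : 2 * (((1 / (|c| + 1) : ℝ) : ℂ) * (I * conj x)) * x =
        ((2 * (1 / (|c| + 1)) : ℝ) : ℂ) * (I * (conj x * x)) := by push_cast; ring
    rw [this, Complex.conj_mul', Complex.im_ofReal_mul, I_mul_im, ← Complex.ofReal_pow,
      Complex.ofReal_re]
  have h3 : ‖((1 / (|c| + 1) : ℝ) : ℂ) * (I * conj x)‖ ^ 2 = (1 / (|c| + 1)) ^ 2 * ‖x‖ ^ 2 := by
    rw [norm_mul, norm_mul, Complex.norm_real, Complex.norm_I, one_mul, Complex.norm_conj, mul_pow,
      Real.norm_eq_abs, sq_abs]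
  rw [h2, h3] at h1
  have h4 : 2 * (1 / (|c| + 1)) ≤ c * (1 / (|c| + 1)) ^ 2 := by
    have := le_of_mul_le_mul_right (a := ‖x‖ ^ 2) (b := 2 * (1 / (|c| + 1)))
      (c := c * (1 / (|c| + 1)) ^ 2) (by linarith) hpos
    exact this
  have h5 : c * (1 / (|c| + 1)) ≤ 1 := by
    rw [mul_one_div, div_le_one (by positivity)]
    linarith [le_abs_self c]
  nlinarith

end Pool.Agent.Helper56.CN
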