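import Pool.Agent.Helper56.CN.Defs

/-!
# Project CN (helper56), module Inv
Invertibility of `t K + B` for separated spectra, simple facts.
-/

set_option autoImplicit false
set_option linter.unusedSectionVars false

namespace Pool.Agent.Helper56.CN

open Matrix Complex Filter Topology
open scoped ComplexConjugate

variable {n : Type*} [Fintype n] [DecidableEq n]

namespace InvM

lemma nsq_eq (v : n → ℂ) : star v ⬝ᵥ v = ((∑ j, ‖v j‖ ^ 2 : ℝ) : ℂ) := by
  rw [dotProduct, Complex.ofReal_sum]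
  refine Finset.sum_congr rfl fun j _ => ?_
  rw [Pi.star_apply, Complex.star_def, Complex.conj_mul']
  push_cast
  rfl

lemma nsq_unitary {W : Matrix n n ℂ} (hW : star W * W = 1) (v : n → ℂ) :
    ∑ j, ‖(W *ᵥ v) j‖ ^ 2 = ∑ j, ‖v j‖ ^ 2 := by
  have h : star (W *ᵥ v) ⬝ᵥ (W *ᵥ v) = star v ⬝ᵥ v := by
    rw [star_mulVec, ← dotProduct_mulVec, mulVec_mulVec, ← star_eq_conjTranspose, hW, one_mulVec]
  rw [nsq_eq, nsq_eq] at h
  exact_mod_cast h

lemma mulVec_diag (a v : n → ℂ) (j : n) : (diagonal a *ᵥ v) j = a j * v j := by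
  rw [mulVec_diagonal]

end InvM

open InvM in
theorem det_ne {a b : n → ℂ} (hs : Sep a b) {U : Matrix n n ℂ} (hU : U ∈ unitaryGroup n ℂ)
    {t : ℂ} (ht : ‖t‖ ≤ 1) : (t • KK a U + diagonal b).det ≠ 0 := by
  intro h0
  obtain ⟨v, hv, h1⟩ := exists_mulVec_eq_zero_iff.2 h0
  have hU1 : star U * U = 1 := (mem_unitaryGroup_iff'.1 hU)
  have hU2 : U * star U = 1 := (mem_unitaryGroup_iff.1 hU)
  obtain ⟨j0, hj0⟩ : ∃ j, v j ≠ 0 := by
    by_contra hcon
    push Not at hcon
    exact hv (funext hcon)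
  have : Nonempty n := ⟨j0⟩
  obtain ⟨i0, -, hi0⟩ := Finset.exists_max_image Finset.univ (fun i => ‖a i‖) Finset.univ_nonempty
  set w := star U *ᵥ v with hw
  have h2 : ∑ j, ‖w j‖ ^ 2 = ∑ j, ‖v j‖ ^ 2 :=
    nsq_unitary (by rw [star_star]; exact hU2) v
  have h3 : ∑ j, ‖(KK a U *ᵥ v) j‖ ^ 2 = ∑ j, ‖a j‖ ^ 2 * ‖w j‖ ^ 2 := by
    have e1 : KK a U *ᵥ v = U *ᵥ (diagonal a *ᵥ w) := by
      rw [hw, KK, mulVec_mulVec, mulVec_mulVec, Matrix.mul_assoc]
    rw [e1, nsq_unitary hU1]
    refine Finset.sum_congr rfl fun j _ => ?_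
    rw [mulVec_diag, norm_mul, mul_pow]
  have h4 : ∀ j, b j * v j = - (t * (KK a U *ᵥ v) j) := by
    intro j
    have := congrFun h1 j
    rw [add_mulVec, smul_mulVec, Pi.add_apply, Pi.smul_apply, mulVec_diag, smul_eq_mul,
      Pi.zero_apply] at this
    linear_combination this
  have h5 : ∑ j, ‖b j‖ ^ 2 * ‖v j‖ ^ 2 ≤ ‖a i0‖ ^ 2 * ∑ j, ‖v j‖ ^ 2 := by
    calc ∑ j, ‖b j‖ ^ 2 * ‖v j‖ ^ 2 = ∑ j, ‖t‖ ^ 2 * ‖(KK a U *ᵥ v) j‖ ^ 2 := by
          refine Finset.sum_congr rfl fun j _ => ?_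
          rw [← mul_pow, ← norm_mul, h4 j, norm_neg, norm_mul, mul_pow]
      _ = ‖t‖ ^ 2 * ∑ j, ‖a j‖ ^ 2 * ‖w j‖ ^ 2 := by rw [← Finset.mul_sum, h3]
      _ ≤ 1 * ∑ j, ‖a j‖ ^ 2 * ‖w j‖ ^ 2 := by
          refine mul_le_mul_of_nonneg_right ?_ (Finset.sum_nonneg fun j _ => by positivity)
          nlinarith [norm_nonneg t]
      _ ≤ ∑ j, ‖a i0‖ ^ 2 * ‖w j‖ ^ 2 := by
          rw [one_mul]
          refine Finset.sum_le_sum fun j _ => ?_
          refine mul_le_mul_of_nonneg_right ?_ (by positivity)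
          have := hi0 j (Finset.mem_univ j)
          nlinarith [norm_nonneg (a j), norm_nonneg (a i0)]
      _ = ‖a i0‖ ^ 2 * ∑ j, ‖v j‖ ^ 2 := by rw [← Finset.mul_sum, h2]
  have h6 : ‖a i0‖ ^ 2 * ∑ j, ‖v j‖ ^ 2 < ∑ j, ‖b j‖ ^ 2 * ‖v j‖ ^ 2 := by
    rw [Finset.mul_sum]
    refine Finset.sum_lt_sum (fun j _ => ?_) ⟨j0, Finset.mem_univ _, ?_⟩
    · refine mul_le_mul_of_nonneg_right ?_ (by positivity)
      have := hs i0 j
      nlinarith [norm_nonneg (a i0), norm_nonneg (b j)]
    · refine mul_lt_mul_of_pos_right ?_ (by have := norm_pos_iff.2 hj0; positivity)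
      have := hs i0 j0
      nlinarith [norm_nonneg (a i0), norm_nonneg (b j0)]
  exact absurd h5 (not_le.2 h6)

theorem KK_normal (a : n → ℂ) {U : Matrix n n ℂ} (hU : U ∈ unitaryGroup n ℂ) :
    KK a U * star (KK a U) = star (KK a U) * KK a U := by
  have hU1 : star U * U = 1 := (mem_unitaryGroup_iff'.1 hU)
  have e : star (KK a U) = U * diagonal (star a) * star U := by
    rw [KK, star_mul, star_mul, star_star, star_eq_conjTranspose (diagonal a),
      diagonal_conjTranspose, Matrix.mul_assoc]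
  have h1 : ∀ c d : n → ℂ, (U * diagonal c * star U) * (U * diagonal d * star U) =
      U * diagonal (fun i => c i * d i) * star U := by
    intro c d
    calc (U * diagonal c * star U) * (U * diagonal d * star U)
        = U * diagonal c * (star U * U) * diagonal d * star U := by
          simp only [Matrix.mul_assoc]
      _ = U * (diagonal c * diagonal d) * star U := by
          rw [hU1, Matrix.mul_one, Matrix.mul_assoc U]
      _ = _ := by rw [diagonal_mul_diagonal]
  rw [e]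
  change (U * diagonal a * star U) * _ = _ * (U * diagonal a * star U)
  rw [h1, h1]
  congr 3
  funext i
  exact mul_comm _ _

theorem KK_mul (a : n → ℂ) (V U : Matrix n n ℂ) : V * KK a U * star V = KK a (V * U) := by
  rw [KK, KK, star_mul]
  simp only [Matrix.mul_assoc]

/-- the nonvanishing factor of the mixed derivative -/
theorem nz {a b : n → ℂ} (hs : Sep a b) {U : Matrix n n ℂ} (hU : U ∈ unitaryGroup n ℂ)
    {S : Matrix n n ℂ} (hS : (KK a U + diagonal b) * S = 1) (k l : n) :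
    1 + S k k * (b l - b k) ≠ 0 := by
  intro h0
  set v : n → ℂ := fun j => S j k with hv
  have hvS : v = S *ᵥ Pi.single k 1 := by
    funext j
    rw [mulVec_single_one]
    rfl
  have h1 : (KK a U + diagonal b) *ᵥ v = Pi.single k 1 := by
    rw [hvS, mulVec_mulVec, hS, one_mulVec]
  have hs' : Sep a (Function.update b k (b l)) := by
    intro i j
    by_cases hj : j = k
    · subst hj
      rw [Function.update_self]
      exact hs i l
    · rw [Function.update_of_ne hj]
      exact hs i j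
  have hd := det_ne hs' hU (t := 1) (by simp)
  rw [one_smul] at hd
  have h2 : (KK a U + diagonal (Function.update b k (b l))) *ᵥ v = 0 := by
    funext j
    have h3 := congrFun h1 j
    rw [add_mulVec, Pi.add_apply, InvM.mulVec_diag] at h3
    rw [add_mulVec, Pi.add_apply, InvM.mulVec_diag, Pi.zero_apply]
    by_cases hj : j = k
    · subst hj
      rw [Function.update_self]
      rw [Pi.single_eq_same] at h3
      have h4 : v j = S j j := rfl
      rw [h4] at h3 ⊢
      linear_combination h3 + h0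
    · rw [Function.update_of_ne hj]
      rw [Pi.single_eq_of_ne hj] at h3
      exact h3
  have h3 : v = 0 := eq_zero_of_mulVec_eq_zero hd h2
  rw [h3, mulVec_zero] at h1
  have := congrFun h1 k
  rw [Pi.single_eq_same, Pi.zero_apply] at this
  exact zero_ne_one this

end Pool.Agent.Helper56.CN
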