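import Pool.Agent.Helper56.CN.Defs

/-!
# Project CN (helper56), module Scalar
The scalar second order condition for the argument.
-/

set_option autoImplicit false
set_option linter.unusedSectionVars false

namespace Pool.Agent.Helper56.CN

open Matrix Complex Filter Topology
open scoped ComplexConjugate

variable {n : Type*} [Fintype n] [DecidableEq n]

/-- real second order condition with a remainder `t ^ 2 * r t` -/
theorem scalar_real_nonneg (b c : ℝ) (r : ℝ → ℝ) (hr : Continuous r) (hr0 : r 0 = 0)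
    (h : ∀ᶠ t : ℝ in 𝓝 0, 0 ≤ t * b + t ^ 2 * c + t ^ 2 * r t) : b = 0 ∧ 0 ≤ c := by
  have hre : ∀ t : ℝ, t * b + t ^ 2 * c + t ^ 2 * r t = t * (b + t * (c + r t)) := fun t => by ring
  have hg : Continuous fun t : ℝ => b + t * (c + r t) := by fun_prop
  have hb1 : 0 ≤ b := by
    have ht : Tendsto (fun t : ℝ => b + t * (c + r t)) (𝓝[>] 0) (𝓝 b) := by
      have := (hg.tendsto 0).mono_left (nhdsWithin_le_nhds (s := Set.Ioi 0))
      simpa using this
    refine ge_of_tendsto ht ?_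
    filter_upwards [nhdsWithin_le_nhds h, self_mem_nhdsWithin] with t h1 h2
    rw [hre] at h1
    exact nonneg_of_mul_nonneg_right h1 h2
  have hb2 : b ≤ 0 := by
    have ht : Tendsto (fun t : ℝ => b + t * (c + r t)) (𝓝[<] 0) (𝓝 b) := by
      have := (hg.tendsto 0).mono_left (nhdsWithin_le_nhds (s := Set.Iio 0))
      simpa using this
    refine le_of_tendsto ht ?_
    filter_upwards [nhdsWithin_le_nhds h, self_mem_nhdsWithin] with t h1 h2
    rw [hre] at h1
    by_contra h3
    push Not at h3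
    have := mul_neg_of_neg_of_pos (Set.mem_Iio.1 h2) h3
    linarith
  have hb : b = 0 := le_antisymm hb2 hb1
  refine ⟨hb, ?_⟩
  have hg2 : Continuous fun t : ℝ => c + r t := by fun_prop
  have ht : Tendsto (fun t : ℝ => c + r t) (𝓝[>] 0) (𝓝 c) := by
    have := (hg2.tendsto 0).mono_left (nhdsWithin_le_nhds (s := Set.Ioi 0))
    simpa [hr0] using this
  refine ge_of_tendsto ht ?_
  filter_upwards [nhdsWithin_le_nhds h, self_mem_nhdsWithin] with t h1 h2
  rw [hre, hb, zero_add] at h1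
  exact nonneg_of_mul_nonneg_right (nonneg_of_mul_nonneg_right h1 h2) h2

open Pool.Agent.Helper54.OMC in
theorem scalar_arg (f : ℝ → ℂ) (c1 c2 : ℂ) (α β : ℝ) (hf : Exp2 f 1 c1 c2)
    (h : ∀ᶠ t : ℝ in 𝓝 0, Complex.arg (f t) ≤ t * α + t ^ 2 * β) :
    c1.im = α ∧ (c2 - c1 ^ 2 / 2).im ≤ β := by
  -- continuity of `f`
  have hfc : Continuous f := by
    obtain ⟨ρ, hρ, hfe⟩ := hf
    have : f = fun t : ℝ => 1 + t * c1 + t ^ 2 * c2 + t ^ 3 * ρ t := funext hfe
    rw [this]
    fun_prop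
  have hf0 : f 0 = 1 := by
    obtain ⟨ρ, hρ, hfe⟩ := hf
    rw [hfe]
    simp
  -- the exponential factor
  set θ : ℝ → ℝ := fun t => t * α + t ^ 2 * β with hθ
  have hθc : Continuous θ := by fun_prop
  have hθ0 : θ 0 = 0 := by simp [hθ]
  -- the polynomial approximation of `exp (-i θ)`
  have hw : Exp2 (fun t => 1 + (-(I * (θ t : ℂ))) + (-(I * (θ t : ℂ))) ^ 2 / 2) 1 (-(I * α))
      (-(I * β) - (α : ℂ) ^ 2 / 2) := by
    refine ⟨fun t => -((α : ℂ) * β) - t * (β : ℂ) ^ 2 / 2, by fun_prop, fun t => ?_⟩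
    simp only [hθ]
    push_cast
    linear_combination ((t : ℂ) * α + t ^ 2 * β) ^ 2 / 2 * Complex.I_sq
  obtain ⟨ρ, hρ, hP⟩ := hf.mul hw
  -- eventual estimates
  have hargc : ∀ᶠ t : ℝ in 𝓝 0, -1 < Complex.arg (f t) := by
    have h1 : ContinuousAt (fun t : ℝ => Complex.arg (f t)) 0 := by
      have h2 : ContinuousAt Complex.arg (f 0) := by
        apply Complex.continuousAt_arg
        rw [hf0]
        exact Complex.one_mem_slitPlane
      exact ContinuousAt.comp (f := f) (g := Complex.arg) h2 hfc.continuousAt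
    have h4 : Tendsto (fun t : ℝ => Complex.arg (f t)) (𝓝 0) (𝓝 0) := by
      have := h1.tendsto
      simpa [hf0] using this
    exact h4.eventually (lt_mem_nhds (by norm_num))
  have hθs : ∀ᶠ t : ℝ in 𝓝 0, |θ t| < 1 := by
    have h1 : Tendsto (fun t => |θ t|) (𝓝 0) (𝓝 0) := by
      have := hθc.abs.tendsto 0
      simpa [hθ0] using this
    exact h1.eventually (gt_mem_nhds (by norm_num))
  have hfs : ∀ᶠ t : ℝ in 𝓝 0, ‖f t‖ < 2 := by
    have h1 : Tendsto (fun t => ‖f t‖) (𝓝 0) (𝓝 1) := by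
      have := hfc.norm.tendsto 0
      simpa [hf0] using this
    exact h1.eventually (gt_mem_nhds (by norm_num))
  have hts : ∀ᶠ t : ℝ in 𝓝 0, |t| < 1 := by
    have h1 : Tendsto (fun t : ℝ => |t|) (𝓝 0) (𝓝 0) := by
      have := (continuous_abs (G := ℝ)).tendsto 0
      simpa using this
    exact h1.eventually (gt_mem_nhds (by norm_num))
  set K : ℝ := (|α| + |β|) ^ 3 with hK
  have key : ∀ᶠ t : ℝ in 𝓝 0, 0 ≤ t * (-(c1.im - α)) +
      t ^ 2 * (-(c2.im - α * c1.re - β)) + t ^ 2 * (-(t * (ρ t).im) + 2 * K * |t|) := by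
    filter_upwards [h, hargc, hθs, hfs, hts] with t h1 h2 h3 h4 h5
    -- the sign
    have hs : (f t * Complex.exp (-(I * (θ t : ℂ)))).im ≤ 0 := by
      have e1 : f t * Complex.exp (-(I * (θ t : ℂ))) =
          (‖f t‖ : ℂ) * Complex.exp (((Complex.arg (f t) - θ t : ℝ) : ℂ) * I) := by
        conv_lhs => rw [← Complex.norm_mul_exp_arg_mul_I (f t)]
        rw [mul_assoc, ← Complex.exp_add]
        congr 2
        push_cast
        ring
      rw [e1, Complex.im_ofReal_mul, Complex.exp_ofReal_mul_I_im]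
      refine mul_nonpos_of_nonneg_of_nonpos (norm_nonneg _) ?_
      apply Real.sin_nonpos_of_nonpos_of_neg_pi_le
      · have : Complex.arg (f t) ≤ θ t := h1
        linarith
      · have := (abs_lt.1 h3).2
        have := Real.pi_gt_three
        linarith
    -- the remainder
    set w : ℂ := -(I * (θ t : ℂ)) with hwdef
    have hwn : ‖w‖ = |θ t| := by
      rw [hwdef, norm_neg, norm_mul, Complex.norm_I, one_mul, Complex.norm_real, Real.norm_eq_abs]
    have hR : ‖Complex.exp w - (1 + w + w ^ 2 / 2)‖ ≤ |θ t| ^ 3 := by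
      have h6 := Complex.exp_bound (x := w) (by rw [hwn]; exact h3.le) (n := 3) (by norm_num)
      have h7 : ∑ m ∈ Finset.range 3, w ^ m / (m.factorial : ℂ) = 1 + w + w ^ 2 / 2 := by
        simp [Finset.sum_range_succ, Nat.factorial]
      rw [h7, hwn] at h6
      refine h6.trans ?_
      have h8 : ((3 : ℕ).succ : ℝ) * (((3 : ℕ).factorial : ℝ) * ((3 : ℕ) : ℝ))⁻¹ ≤ 1 := by
        norm_num [Nat.factorial]
      have h9 : 0 ≤ |θ t| ^ 3 := by positivity
      calc |θ t| ^ 3 * (((3 : ℕ).succ : ℝ) * (((3 : ℕ).factorial : ℝ) * ((3 : ℕ) : ℝ))⁻¹)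
          ≤ |θ t| ^ 3 * 1 := mul_le_mul_of_nonneg_left h8 h9
        _ = |θ t| ^ 3 := mul_one _
    have hθb : |θ t| ≤ (|α| + |β|) * |t| := by
      have h6 : |θ t| ≤ |t * α| + |t ^ 2 * β| := abs_add_le _ _
      rw [abs_mul, abs_mul, abs_pow] at h6
      have h7 : |t| ^ 2 * |β| ≤ |t| * |β| := by
        apply mul_le_mul_of_nonneg_right _ (abs_nonneg β)
        nlinarith [abs_nonneg t]
      nlinarith
    have hR2 : |θ t| ^ 3 ≤ K * |t| ^ 3 := by
      rw [hK, ← mul_pow]
      exact pow_le_pow_left₀ (abs_nonneg _) hθb 3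
    have hbd : ‖f t * (Complex.exp w - (1 + w + w ^ 2 / 2))‖ ≤ 2 * (K * |t| ^ 3) := by
      rw [norm_mul]
      exact mul_le_mul h4.le (hR.trans hR2) (norm_nonneg _) (by norm_num)
    have hmain : (f t * (1 + w + w ^ 2 / 2)).im ≤ 2 * (K * |t| ^ 3) := by
      have e2 : f t * (1 + w + w ^ 2 / 2) = f t * Complex.exp w -
          f t * (Complex.exp w - (1 + w + w ^ 2 / 2)) := by ring
      rw [e2, Complex.sub_im]
      have h6 := (Complex.abs_im_le_norm (f t * (Complex.exp w - (1 + w + w ^ 2 / 2)))).trans hbd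
      have h7 := (abs_le.1 h6).1
      linarith
    have hexp := hP t
    have h6 : (f t * (1 + w + w ^ 2 / 2)).im = t * (c1.im - α) + t ^ 2 * (c2.im - α * c1.re - β)
        + t ^ 3 * (ρ t).im := by
      have e3 : f t * (1 + w + w ^ 2 / 2) = 1 * 1 + (t : ℂ) * (1 * (-(I * α)) + c1 * 1) +
          (t : ℂ) ^ 2 * (1 * (-(I * β) - (α : ℂ) ^ 2 / 2) + c1 * (-(I * α)) + c2 * 1) +
          (t : ℂ) ^ 3 * ρ t := hexp
      rw [e3]
      have e4 : ((α : ℂ) ^ 2 / 2) = ((α ^ 2 / 2 : ℝ) : ℂ) := by push_cast; ring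
      rw [e4]
      simp only [← Complex.ofReal_pow, Complex.add_im, Complex.mul_im,
        Complex.neg_im, Complex.neg_re, Complex.I_im, Complex.I_re, Complex.ofReal_im,
        Complex.ofReal_re, Complex.one_im, Complex.one_re, Complex.mul_re, Complex.sub_im]
      ring
    rw [h6] at hmain
    have h8 : |t| ^ 3 = t ^ 2 * |t| := by
      rw [← sq_abs t]; ring
    rw [h8] at hmain
    nlinarith [hmain]
  have hfin := scalar_real_nonneg _ _ (fun t => -(t * (ρ t).im) + 2 * K * |t|) (by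
    have : Continuous fun t : ℝ => (ρ t).im := Complex.continuous_im.comp hρ
    fun_prop) (by simp) key
  have hα : c1.im = α := by linarith [hfin.1]
  refine ⟨hα, ?_⟩
  have h9 : (c2 - c1 ^ 2 / 2).im = c2.im - c1.re * c1.im := by
    have : c1 ^ 2 / 2 = ((1 / 2 : ℝ) : ℂ) * (c1 * c1) := by push_cast; ring
    rw [this, Complex.sub_im, Complex.im_ofReal_mul, Complex.mul_im]
    ring
  rw [h9, hα]
  linarith [hfin.2]

end Pool.Agent.Helper56.CN
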