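import Pool.Agent.Helper56.CN.Family
import Pool.Agent.Helper56.CN.Scalar

/-!
# Project CN (helper56), module Second
First and second order conditions at a local maximum of the argument.
-/

set_option autoImplicit false
set_option linter.unusedSectionVars false

namespace Pool.Agent.Helper56.CN

open Matrix Complex Filter Topology
open scoped ComplexConjugate

variable {n : Type*} [Fintype n] [DecidableEq n]

private theorem second_trace_single (X : Matrix n n ℂ) (l : n) (z : ℂ) :
    (Matrix.single l l z * X).trace = z * X l l := by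
  rw [Matrix.trace]
  rw [Finset.sum_eq_single l]
  · simp [Matrix.diag, Matrix.mul_apply, Matrix.single_apply]
  · intro i _ hi
    simp [Matrix.diag, Matrix.mul_apply, Ne.symm hi]
  · intro h
    exact absurd (Finset.mem_univ l) h

open Pool.Agent.Helper54.OMC in
private theorem second_core {a b b1 : n → ℂ} {U0 : Matrix n n ℂ}
    (hU0 : U0 ∈ unitaryGroup n ℂ) {M ε : ℝ} (hε : 0 < ε) (hs : Sep a b)
    (h : LocMaxF a U0 b b1 M ε) {S : Matrix n n ℂ} (hS : (KK a U0 + diagonal b) * S = 1)
    (hS' : S * (KK a U0 + diagonal b) = 1) (Y : Matrix n n ℂ) (hY : star Y = -Y)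
    (C : Matrix n n ℂ) (hC : Y * diagonal b - diagonal b * Y = C) (l : n) (z : ℂ) :
    ((S * (Matrix.single l l z + C)).trace + conj (z / b l)).im =
      M * (2 * (conj (b l - b1 l) * z).re) ∧
    (-(C * (Y * S - S * Y)).trace - (S * C * (S * C)).trace
      + 2 * z * ((S * Y - Y * S) l l - (S * C * S) l l) - z ^ 2 * (S l l) ^ 2
      - conj (z / b l) ^ 2).im ≤ 2 * (M * ‖z‖ ^ 2) := by
  set K := KK a U0 with hK
  set B : Matrix n n ℂ := diagonal b with hB
  set T : Matrix n n ℂ := (-(1 / 2) : ℂ) • Y with hT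
  set H : Matrix n n ℂ := Matrix.single l l z with hH
  set w : ℂ := z / b l with hw
  have hTs : star T = -T := by
    rw [hT, star_smul, hY]
    simp
  have hKB : K + B - B = K := by abel
  have hJ : (2 : ℂ) • (B * T - T * B) = C := by
    rw [← hC, hT]
    simp only [mul_smul_comm, smul_mul_assoc, smul_sub, smul_smul]
    norm_num
    abel
  have hTS : T * S - S * T = (-(1 / 2) : ℂ) • (Y * S - S * Y) := by
    rw [hT]
    simp only [mul_smul_comm, smul_mul_assoc, smul_sub]
  have hfirst := trace_first (K + B) S B H T hS hS'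
  have hsecond := trace_second (K + B) S B H T hS hS'
  rw [hKB, hJ] at hfirst hsecond
  rw [hTS] at hsecond
  have hdet : (K + B).det ≠ 0 := by
    intro h0
    have h1 := congrArg Matrix.det hS
    rw [Matrix.det_mul, h0, zero_mul, Matrix.det_one] at h1
    exact zero_ne_one h1
  have hG := (exp2_G K B H T S hS).const_mul ((K + B).det)⁻¹
  rw [inv_mul_cancel₀ hdet, inv_mul_cancel_left₀ hdet, inv_mul_cancel_left₀ hdet] at hG
  have hw2 : Exp2 (fun t : ℝ => conj (1 + (t : ℂ) * w)) 1 (conj w) 0 := by
    have h1 := (Exp2.poly 1 w 0).conj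
    simp only [map_one, map_zero, mul_zero, add_zero] at h1
    exact h1
  have hf := hG.mul hw2
  have key := scalar_arg _ _ _ (M * (2 * (conj (b l - b1 l) * z).re)) (M * ‖z‖ ^ 2)
    (by rw [one_mul] at hf; exact hf) (by
      filter_upwards [arg_family hU0 hε hs h T hTs l z] with t ht
      rw [div_eq_mul_inv, mul_comm (det _)] at ht
      exact ht)
  obtain ⟨k1, k2⟩ := key
  rw [hfirst] at k1 k2 hsecond
  have hTT : ((T * T).trace).im = 0 := by
    have h1 : star (T * T) = T * T := by
      rw [star_mul, hTs]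
      simp
    have h2 : conj ((T * T).trace) = (T * T).trace := by
      have h3 := Matrix.trace_conjTranspose (T * T)
      rw [← star_eq_conjTranspose, h1] at h3
      exact h3.symm
    exact Complex.conj_eq_iff_im.1 h2
  constructor
  · rw [← k1]
    congr 1
    ring
  · have e1 : (H * (-(1 / 2) : ℂ) • (Y * S - S * Y)).trace =
        -(1 / 2) * (z * (Y * S - S * Y) l l) := by
      rw [mul_smul_comm, Matrix.trace_smul, second_trace_single, smul_eq_mul]
    have e2 : ((H + C) * (-(1 / 2) : ℂ) • (Y * S - S * Y)).trace =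
        -(1 / 2) * (z * (Y * S - S * Y) l l) - (1 / 2) * (C * (Y * S - S * Y)).trace := by
      rw [add_mul, Matrix.trace_add, e1, mul_smul_comm, Matrix.trace_smul, smul_eq_mul]
      ring
    have e3 : (S * (H + C) * (S * (H + C))).trace =
        z ^ 2 * (S l l) ^ 2 + 2 * (z * (S * C * S) l l) + (S * C * (S * C)).trace := by
      have f1 : S * (H + C) * (S * (H + C)) =
          S * H * (S * H) + S * H * (S * C) + S * C * (S * H) + S * C * (S * C) := by
        noncomm_ring
      have f2 : (S * H * (S * H)).trace = z ^ 2 * (S l l) ^ 2 := by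
        have g1 : (S * H * (S * H)).trace = (H * (S * H * S)).trace := by
          rw [Matrix.mul_assoc S H, Matrix.trace_mul_comm]
          simp only [Matrix.mul_assoc]
        have g2 : (S * H * S) l l = S l l * z * S l l := by
          rw [Matrix.mul_apply, Finset.sum_eq_single l]
          · simp [hH, Matrix.mul_apply, Matrix.single_apply]
          · intro i _ hi
            simp [hH, Matrix.mul_apply, Ne.symm hi]
          · intro hl
            exact absurd (Finset.mem_univ l) hl
        rw [g1, second_trace_single, g2]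
        ring
      have f3 : (S * H * (S * C)).trace = z * (S * C * S) l l := by
        have g1 : (S * H * (S * C)).trace = (H * (S * C * S)).trace := by
          rw [Matrix.mul_assoc S H, Matrix.trace_mul_comm]
          simp only [Matrix.mul_assoc]
        rw [g1, second_trace_single]
      have f4 : (S * C * (S * H)).trace = z * (S * C * S) l l := by
        rw [Matrix.trace_mul_comm, f3]
      rw [f1, Matrix.trace_add, Matrix.trace_add, Matrix.trace_add, f2, f3, f4]
      ring
    rw [e1, e2, e3] at hsecond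
    have e4 : (Y * S - S * Y) l l = -((S * Y - Y * S) l l) := by
      simp
    rw [e4] at hsecond
    have e5 : -(C * (Y * S - S * Y)).trace - (S * C * (S * C)).trace
        + 2 * z * ((S * Y - Y * S) l l - (S * C * S) l l) - z ^ 2 * (S l l) ^ 2 - conj w ^ 2 =
        2 * ((1 : ℂ) * 0 + (S * (H + C)).trace * conj w + ((S * (-(T * (K + B) * T) +
          (H * T - T * H))).trace + ((S * (H + C)).trace ^ 2 - (S * (H + (T * K - K * T) +
          (B * T - T * B)) * (S * (H + (T * K - K * T) + (B * T - T * B)))).trace) / 2) * 1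
          - (1 * conj w + (S * (H + C)).trace * 1) ^ 2 / 2) + 2 * (T * T).trace := by
      linear_combination (-2) * hsecond
    rw [e5, Complex.add_im]
    have e6 : (2 * (T * T).trace).im = 0 := by
      rw [Complex.mul_im, hTT]
      simp
    rw [e6, add_zero]
    have e7 : ∀ q : ℂ, (2 * q).im = 2 * q.im := fun q => by
      rw [Complex.mul_im]
      simp
    rw [e7]
    linarith

theorem fo_arg {a b b1 : n → ℂ} {U0 : Matrix n n ℂ} (hU0 : U0 ∈ unitaryGroup n ℂ)
    {M ε : ℝ} (hε : 0 < ε) (hs : Sep a b) (h : LocMaxF a U0 b b1 M ε)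
    {S : Matrix n n ℂ} (hS : (KK a U0 + diagonal b) * S = 1) (hS' : S * (KK a U0 + diagonal b) = 1)
    (Y : Matrix n n ℂ) (hY : star Y = -Y) :
    (S * (Y * diagonal b - diagonal b * Y)).trace.im = 0 := by
  rcases isEmpty_or_nonempty n with hn | ⟨⟨l⟩⟩
  · simp [Matrix.trace]
  · have h1 := (second_core hU0 hε hs h hS hS' Y hY _ rfl l 0).1
    simpa using h1

theorem so_arg {a b b1 : n → ℂ} {U0 : Matrix n n ℂ} (hU0 : U0 ∈ unitaryGroup n ℂ)
    {M ε : ℝ} (hε : 0 < ε) (hs : Sep a b) (h : LocMaxF a U0 b b1 M ε)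
    {S : Matrix n n ℂ} (hS : (KK a U0 + diagonal b) * S = 1) (hS' : S * (KK a U0 + diagonal b) = 1)
    (Y : Matrix n n ℂ) (hY : star Y = -Y) (C : Matrix n n ℂ)
    (hC : Y * diagonal b - diagonal b * Y = C) (l : n) :
    ∃ c : ℝ, ∀ z : ℂ, (-(C * (Y * S - S * Y)).trace - (S * C * (S * C)).trace
      + 2 * z * ((S * Y - Y * S) l l - (S * C * S) l l)).im ≤ c * ‖z‖ ^ 2 := by
  refine ⟨2 * M + ‖S l l‖ ^ 2 + ‖(b l)⁻¹‖ ^ 2, fun z => ?_⟩
  have h1 := (second_core hU0 hε hs h hS hS' Y hY C hC l z).2
  rw [Complex.sub_im, Complex.sub_im] at h1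
  have h2 : (z ^ 2 * (S l l) ^ 2).im ≤ ‖z‖ ^ 2 * ‖S l l‖ ^ 2 := by
    refine (Complex.im_le_norm _).trans ?_
    rw [norm_mul, norm_pow, norm_pow]
  have h3 : (conj (z / b l) ^ 2).im ≤ ‖z‖ ^ 2 * ‖(b l)⁻¹‖ ^ 2 := by
    refine (Complex.im_le_norm _).trans ?_
    rw [norm_pow, RCLike.norm_conj, div_eq_mul_inv, norm_mul, mul_pow]
  linarith

end Pool.Agent.Helper56.CN
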