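import Pool.Agent.Helper56.CN.StarA

/-!
# Project CN (helper56), module StarM
The mixed derivative.
-/

set_option autoImplicit false
set_option linter.unusedSectionVars false

namespace Pool.Agent.Helper56.CN

open Matrix Complex Filter Topology
open scoped ComplexConjugate

variable {n : Type*} [Fintype n] [DecidableEq n]

theorem star_mixed {K S : Matrix n n ℂ} {b : n → ℂ} (hc : Crit K S b)
    (hb : Function.Injective b) (k : n)
    {u : n → ℂ} (hu1 : (K + diagonal (fun _ => b k)) *ᵥ u = fun j => conj (S k j))
    (hu2 : star (K + diagonal (fun _ => b k)) *ᵥ u = fun j => S j k) (l : n) (hl : l ≠ k) :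
    (S * YY S b k u - YY S b k u * S) l l - (S * CC S b k u * S) l l
      = -2 * (Complex.normSq (xx S b k u l) : ℂ)
        * conj ((b l - b k) * (1 + S k k * (b l - b k))) := by
  have h1 := Pool.Agent.Helper54.OMC.YS_apply S k (yy S b k u)
    (fun j => - conj (yy S b k u j)) l hl
  have h2 := Pool.Agent.Helper54.OMC.SCS_apply S k (cc S b k u) (dd S b k u) l
  have h3 : (S * YY S b k u - YY S b k u * S) l l = -((YY S b k u * S - S * YY S b k u) l l) := by
    simp only [Matrix.sub_apply]; ring
  rw [h3, YY, CC, h1, h2, S_mul_cc hc hb k hu1, dd_mul_S hc hb k hu2]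
  have hy : yy S b k u l = u l + xx S b k u l := rfl
  rw [hy, ← Complex.mul_conj, S_jk hb S k u hl, S_kj hc hb k u hl]
  simp only [map_mul, map_add, map_sub, map_one]
  ring

end Pool.Agent.Helper56.CN
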