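import Pool.Agent.Helper56.CN.Defs

/-!
# Project CN (helper56), module StarU
The vector `u` of the star direction.
-/

set_option autoImplicit false
set_option linter.unusedSectionVars false

namespace Pool.Agent.Helper56.CN

open Matrix Complex Filter Topology
open scoped ComplexConjugate

variable {n : Type*} [Fintype n] [DecidableEq n]

theorem exists_u {K S : Matrix n n ℂ} {b : n → ℂ} (hc : Crit K S b) (k : n)
    (hN : (K + diagonal (fun _ => b k)).det ≠ 0) :
    ∃ u : n → ℂ, (K + diagonal (fun _ => b k)) *ᵥ u = (fun j => conj (S k j))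
      ∧ star (K + diagonal (fun _ => b k)) *ᵥ u = fun j => S j k := by
  obtain ⟨N, hNd⟩ : ∃ N : Matrix n n ℂ, N = K + diagonal (fun _ => b k) := ⟨_, rfl⟩
  rw [← hNd] at hN ⊢
  have hu : IsUnit N.det := isUnit_iff_ne_zero.2 hN
  have hnorm : N * star N = star N * N := by
    rw [hNd, ← Matrix.smul_one_eq_diagonal, star_add, star_smul, star_one]
    simp only [add_mul, mul_add, smul_mul_assoc, mul_smul_comm, one_mul, mul_one]
    rw [hc.nrm, smul_add, smul_add, smul_comm (b k) (star (b k))]
    abel
  have hcomm : star N * N⁻¹ = N⁻¹ * star N := by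
    calc star N * N⁻¹ = N⁻¹ * N * (star N * N⁻¹) := by
          rw [Matrix.nonsing_inv_mul N hu, one_mul]
      _ = N⁻¹ * (N * star N) * N⁻¹ := by simp only [mul_assoc]
      _ = N⁻¹ * (star N * N) * N⁻¹ := by rw [hnorm]
      _ = N⁻¹ * star N * (N * N⁻¹) := by simp only [mul_assoc]
      _ = N⁻¹ * star N := by rw [Matrix.mul_nonsing_inv N hu, mul_one]
  -- `M = N + D`
  have hM : K + diagonal b = N + diagonal (fun j => b j - b k) := by
    rw [hNd, add_assoc, Matrix.diagonal_add]
    congr 2
    funext j
    ring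
  have hv : (K + diagonal b) *ᵥ (fun j => S j k) = fun i => (1 : Matrix n n ℂ) i k := by
    funext i
    have := congrFun (congrFun hc.inv1 i) k
    rw [← this, Matrix.mul_apply]
    rfl
  have hw : star (K + diagonal b) *ᵥ (fun j => conj (S k j)) =
      fun i => (1 : Matrix n n ℂ) i k := by
    funext i
    have h1 : star (K + diagonal b) * star S = 1 := by
      rw [← star_mul, hc.inv2, star_one]
    have := congrFun (congrFun h1 i) k
    rw [← this, Matrix.mul_apply]
    rfl
  have hD : (diagonal (fun j => b j - b k)) *ᵥ (fun j => S j k) =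
      star (diagonal (fun j => b j - b k)) *ᵥ (fun j => conj (S k j)) := by
    funext j
    rw [Matrix.star_eq_conjTranspose, Matrix.diagonal_conjTranspose, Matrix.mulVec_diagonal,
      Matrix.mulVec_diagonal]
    have := hc.hC j k
    rw [map_mul] at this
    rw [mul_comm, this, mul_comm]
    rfl
  have key : N *ᵥ (fun j => S j k) = star N *ᵥ (fun j => conj (S k j)) := by
    rw [hM, Matrix.add_mulVec] at hv
    rw [hM, star_add, Matrix.add_mulVec, ← hD, ← hv] at hw
    exact (add_right_cancel hw).symm
  refine ⟨N⁻¹ *ᵥ (fun j => conj (S k j)), ?_, ?_⟩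
  · rw [Matrix.mulVec_mulVec, Matrix.mul_nonsing_inv N hu, Matrix.one_mulVec]
  · rw [Matrix.mulVec_mulVec, hcomm, ← Matrix.mulVec_mulVec, ← key, Matrix.mulVec_mulVec,
      Matrix.nonsing_inv_mul N hu, Matrix.one_mulVec]

end Pool.Agent.Helper56.CN
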