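import Pool.Agent.Helper56.CN.StarL
import Pool.Agent.Helper56.CN.StarM
import Pool.Agent.Helper56.CN.StarU
import Pool.Agent.Helper56.CN.HC
import Pool.Agent.Helper56.CN.Second

/-!
# Project CN (helper56), module LocDiag
At a joint local maximum the matrix `K` is diagonal.
-/

set_option autoImplicit false
set_option linter.unusedSectionVars false

namespace Pool.Agent.Helper56.CN

open Matrix Complex Filter Topology
open scoped ComplexConjugate

variable {n : Type*} [Fintype n] [DecidableEq n]

theorem LocMaxF.diag {a b b1 : n → ℂ} {U0 : Matrix n n ℂ} (hU0 : U0 ∈ unitaryGroup n ℂ)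
    {M ε : ℝ} (hε : 0 < ε) (hs : Sep a b) (hb : Function.Injective b)
    (h : LocMaxF a U0 b b1 M ε) : ∀ i j, i ≠ j → KK a U0 i j = 0 := by
  have hdet0 : (KK a U0 + diagonal b).det ≠ 0 := by
    have := det_ne hs hU0 (t := 1) (by simp)
    rwa [one_smul] at this
  have hu : IsUnit (KK a U0 + diagonal b).det := Ne.isUnit hdet0
  obtain ⟨S, hSdef⟩ : ∃ S, S = (KK a U0 + diagonal b)⁻¹ := ⟨_, rfl⟩
  have hS1 : (KK a U0 + diagonal b) * S = 1 := by
    rw [hSdef]; exact Matrix.mul_nonsing_inv _ hu
  have hS2 : S * (KK a U0 + diagonal b) = 1 := by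
    rw [hSdef]; exact Matrix.nonsing_inv_mul _ hu
  have hc : Crit (KK a U0) S b := ⟨KK_normal a hU0, hS1, hS2,
    hC_of_fo (fun Y hY => fo_arg hU0 hε hs h hS1 hS2 Y hY)⟩
  -- off-diagonal entries of `S` vanish
  have hV : ∀ k l, l ≠ k → S l k = 0 := by
    intro k l hl
    have hN : (KK a U0 + diagonal (fun _ => b k)).det ≠ 0 := by
      have hs' : Sep a (fun _ : n => b k) := fun i _ => hs i k
      have := det_ne hs' hU0 (t := 1) (by simp)
      rwa [one_smul] at this
    obtain ⟨u, hu1, hu2⟩ := exists_u hc k hN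
    obtain ⟨c, hcc⟩ := so_arg hU0 hε hs h hS1 hS2 (YY S b k u) (YY_skew S b k u)
      (CC S b k u) (YY_comm S b k u) l
    have h0 := star_im_zero hc hb k hu1 hu2
    have hx := eq_zero_of_im_le _ c (fun z => by
      have h1 := hcc z
      rw [Complex.add_im, h0, zero_add] at h1
      exact h1)
    rw [star_mixed hc hb k hu1 hu2 l hl] at hx
    have hD : b l - b k ≠ 0 := fun hh => hl (hb (sub_eq_zero.1 hh))
    have hnz : (b l - b k) * (1 + S k k * (b l - b k)) ≠ 0 :=
      mul_ne_zero hD (nz hs hU0 hS1 k l)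
    have hnz' : conj ((b l - b k) * (1 + S k k * (b l - b k))) ≠ 0 := by
      rw [Ne, map_eq_zero_iff _ (starRingEnd ℂ).injective]
      exact hnz
    have h2 : (Complex.normSq (xx S b k u l) : ℂ) = 0 := by
      rcases mul_eq_zero.1 hx with h3 | h3
      · rcases mul_eq_zero.1 h3 with h4 | h4
        · norm_num at h4
        · exact h4
      · exact absurd h3 hnz'
    have h3 : xx S b k u l = 0 := Complex.normSq_eq_zero.1 (by exact_mod_cast h2)
    rw [S_jk hb S k u hl, h3, zero_mul]
  -- so `S` is diagonal, and `K` too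
  have hSd : S = diagonal (fun j => S j j) := by
    ext i j
    by_cases hij : i = j
    · subst hij; simp
    · rw [hV j i hij, diagonal_apply_ne _ hij]
  intro i j hij
  have h1 := congrFun (congrFun hS1 i) j
  rw [hSd, mul_diagonal, Matrix.one_apply_ne hij] at h1
  have h2 : S j j ≠ 0 := by
    intro hz
    have h3 := congrFun (congrFun hS1 j) j
    rw [hSd, mul_diagonal, Matrix.one_apply_eq] at h3
    simp only [hz, mul_zero] at h3
    exact zero_ne_one h3
  have h4 := (mul_eq_zero.1 h1).resolve_right h2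
  rw [Matrix.add_apply, diagonal_apply_ne _ hij, add_zero] at h4
  exact h4

end Pool.Agent.Helper56.CN
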