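import Pool.Agent.Helper56.CN.Defs

/-!
# Project CN (helper56), module PermExt
Sub-configurations.
-/

set_option autoImplicit false
set_option linter.unusedSectionVars false

namespace Pool.Agent.Helper56.CN

open Matrix Complex Filter Topology
open scoped ComplexConjugate

variable {n : Type*} [Fintype n] [DecidableEq n]

theorem Pos.swap {a b : n → ℂ} {ζ : ℂ} (hp : Pos a b ζ) : Pos b a ζ := by
  intro σ
  have h := hp σ.symm
  have e : zz b a σ = zz a b σ.symm := by
    unfold zz
    rw [← Equiv.prod_comp σ (fun i => a i + b (σ.symm i))]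
    refine Finset.prod_congr rfl (fun i _ => ?_)
    rw [Equiv.symm_apply_apply, add_comm]
  rw [e]
  exact h

theorem Bal.swap {a b : n → ℂ} {I J : Finset n} {lam mu : n → ℝ} (h : Bal a b I J lam mu) :
    Bal b a J I mu lam where
  lpos := h.mpos
  mpos := h.lpos
  sum := h.sum.symm
  lin := by rw [h.lin, neg_neg]
  sq := h.sq.symm

theorem pos_sub {a b : n → ℂ} {ζ : ℂ} (hp : Pos a b ζ) {m : ℕ} (i j : Fin m → n)
    (hi : Function.Injective i) (hj : Function.Injective j) :
    ∃ c : ℂ, ∀ s : Equiv.Perm (Fin m), 0 < (c * ∏ r, (a (i r) + b (j (s r)))).re := by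
  classical
  -- a permutation with `s0 (i r) = j r`
  let e : {x // x ∈ Set.range i} ≃ {x // x ∈ Set.range j} :=
    (Equiv.ofInjective i hi).symm.trans (Equiv.ofInjective j hj)
  let s0 : Equiv.Perm n := e.extendSubtype
  have h0 : ∀ r, s0 (i r) = j r := by
    intro r
    have h1 := Equiv.extendSubtype_apply_of_mem e (i r) ⟨r, rfl⟩
    change e.extendSubtype (i r) = j r
    rw [h1]
    change ((Equiv.ofInjective j hj) ((Equiv.ofInjective i hi).symm ⟨i r, r, rfl⟩) : n) = j r
    have h2 : (Equiv.ofInjective i hi).symm ⟨i r, r, rfl⟩ = r := by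
      rw [Equiv.symm_apply_eq]
      rfl
    rw [h2]
    rfl
  have h0' : ∀ x, x ∉ Set.range i → s0 x ∉ Set.range j := by
    rintro x hx ⟨r, hr⟩
    apply hx
    refine ⟨r, ?_⟩
    apply s0.injective
    rw [h0, hr]
  refine ⟨ζ * ∏ x ∈ (Finset.univ.image i)ᶜ, (a x + b (s0 x)), fun s => ?_⟩
  have h := hp (s0.trans (s.viaEmbedding ⟨j, hj⟩))
  have hz : zz a b (s0.trans (s.viaEmbedding ⟨j, hj⟩)) =
      (∏ r, (a (i r) + b (j (s r)))) * ∏ x ∈ (Finset.univ.image i)ᶜ, (a x + b (s0 x)) := by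
    unfold zz
    rw [← Finset.prod_mul_prod_compl (Finset.univ.image i)]
    congr 1
    · rw [Finset.prod_image (fun x _ y _ hxy => hi hxy)]
      refine Finset.prod_congr rfl (fun r _ => ?_)
      rw [Equiv.trans_apply, h0]
      have := Equiv.Perm.viaEmbedding_apply s ⟨j, hj⟩ r
      rw [show (⟨j, hj⟩ : Fin m ↪ n) r = j r from rfl] at this
      rw [this]
      rfl
    · refine Finset.prod_congr rfl (fun x hx => ?_)
      rw [Equiv.trans_apply, Equiv.Perm.viaEmbedding_apply_of_notMem]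
      apply h0'
      rintro ⟨r, hr⟩
      rw [Finset.mem_compl] at hx
      exact hx (Finset.mem_image.mpr ⟨r, Finset.mem_univ _, hr⟩)
  rw [hz] at h
  have e2 : ζ * (∏ x ∈ (Finset.univ.image i)ᶜ, (a x + b (s0 x))) *
      ∏ r, (a (i r) + b (j (s r))) =
      ζ * ((∏ r, (a (i r) + b (j (s r)))) *
        ∏ x ∈ (Finset.univ.image i)ᶜ, (a x + b (s0 x))) := by ring
  rw [e2]
  exact h

end Pool.Agent.Helper56.CN
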