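import Pool.Agent.Helper56.CN.Inv

/-!
# Project CN (helper56), module Seg
The segment between the permutation points for two by two matrices.
-/

set_option autoImplicit false
set_option linter.unusedSectionVars false

namespace Pool.Agent.Helper56.CN

open Matrix Complex Filter Topology
open scoped ComplexConjugate

variable {n : Type*} [Fintype n] [DecidableEq n]

/-- the segment between the two products avoids `0` -/
theorem seg_ne {a1 a2 b1 b2 : ℂ} (h11 : ‖a1‖ < ‖b1‖) (h12 : ‖a1‖ < ‖b2‖) (h21 : ‖a2‖ < ‖b1‖)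
    (h22 : ‖a2‖ < ‖b2‖) {x y : ℝ} (hx : 0 ≤ x) (hy : 0 ≤ y) (hxy : 0 < x + y) :
    (x : ℂ) * ((a1 + b1) * (a2 + b2)) + (y : ℂ) * ((a1 + b2) * (a2 + b1)) ≠ 0 := by
  obtain ⟨c, hc⟩ : ∃ c : ℝ, c = Real.sqrt (x / (x + y)) := ⟨_, rfl⟩
  obtain ⟨s, hs⟩ : ∃ s : ℝ, s = Real.sqrt (y / (x + y)) := ⟨_, rfl⟩
  have hc2 : c ^ 2 = x / (x + y) := by
    rw [hc, Real.sq_sqrt (div_nonneg hx hxy.le)]
  have hs2 : s ^ 2 = y / (x + y) := by
    rw [hs, Real.sq_sqrt (div_nonneg hy hxy.le)]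
  have hcs : c ^ 2 + s ^ 2 = 1 := by
    rw [hc2, hs2, ← add_div, div_self hxy.ne']
  have hcs' : (c : ℂ) ^ 2 + (s : ℂ) ^ 2 = 1 := by exact_mod_cast hcs
  have hx' : (x : ℂ) = ((x + y : ℝ) : ℂ) * (c : ℂ) ^ 2 := by
    have h1 : x = (x + y) * c ^ 2 := by rw [hc2, mul_div_cancel₀ _ hxy.ne']
    exact_mod_cast h1
  have hy' : (y : ℂ) = ((x + y : ℝ) : ℂ) * (s : ℂ) ^ 2 := by
    have h1 : y = (x + y) * s ^ 2 := by rw [hs2, mul_div_cancel₀ _ hxy.ne']
    exact_mod_cast h1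
  have hsep : Sep ![a1, a2] ![b1, b2] := by
    intro i j
    fin_cases i <;> fin_cases j
    · exact h11
    · exact h12
    · exact h21
    · exact h22
  have hstar : star (!![(c : ℂ), s; -s, c] : Matrix (Fin 2) (Fin 2) ℂ) =
      !![(c : ℂ), -s; s, c] := by
    ext i j
    fin_cases i <;> fin_cases j <;> simp [Matrix.star_apply]
  have hU : (!![(c : ℂ), s; -s, c] : Matrix (Fin 2) (Fin 2) ℂ) ∈ unitaryGroup (Fin 2) ℂ := by
    rw [mem_unitaryGroup_iff, hstar]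
    ext i j
    fin_cases i <;> fin_cases j <;> simp [Matrix.mul_apply, Fin.sum_univ_two]
    · linear_combination hcs'
    · ring
    · ring
    · linear_combination hcs'
  have h := det_ne hsep hU (t := 1) (by simp)
  have hdet : ((1 : ℂ) • KK ![a1, a2] (!![(c : ℂ), s; -s, c] : Matrix (Fin 2) (Fin 2) ℂ) +
      diagonal ![b1, b2]).det = (c : ℂ) ^ 2 * ((a1 + b1) * (a2 + b2)) +
      (s : ℂ) ^ 2 * ((a1 + b2) * (a2 + b1)) := by
    unfold KK
    rw [hstar, one_smul, Matrix.det_fin_two]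
    simp only [Matrix.add_apply, Matrix.mul_apply, Fin.sum_univ_two, Matrix.diagonal_apply,
      Matrix.of_apply, Matrix.cons_val', Matrix.cons_val_zero, Matrix.cons_val_one,
      Matrix.cons_val_fin_one, Fin.isValue]
    simp
    linear_combination (a1 * a2 * ((c : ℂ) ^ 2 + (s : ℂ) ^ 2) - b1 * b2) * hcs'
  rw [hdet] at h
  intro h0
  apply h
  rw [hx', hy'] at h0
  have h1 : ((x + y : ℝ) : ℂ) ≠ 0 := by exact_mod_cast hxy.ne'
  have h2 : ((x + y : ℝ) : ℂ) * ((c : ℂ) ^ 2 * ((a1 + b1) * (a2 + b2)) +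
      (s : ℂ) ^ 2 * ((a1 + b2) * (a2 + b1))) = 0 := by
    rw [← h0]
    ring
  exact (mul_eq_zero.1 h2).resolve_left h1

end Pool.Agent.Helper56.CN
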