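import Pool.Agent.Helper56.CN.Defs

/-!
# Project CN (helper56), module SepCar
Caratheodory.
-/

set_option autoImplicit false
set_option linter.unusedSectionVars false

namespace Pool.Agent.Helper56.CN

open Matrix Complex Filter Topology
open scoped ComplexConjugate

variable {n : Type*} [Fintype n] [DecidableEq n]

private lemma sepcar_fiber {ι : Type*} {E : Type*} [AddCommMonoid E] [Module ℝ E]
    (A : Finset ι) (f : ι → n) (w : ι → ℝ) (g : n → E) :
    ∑ j ∈ A.image f, (∑ k ∈ A with f k = j, w k) • g j = ∑ k ∈ A, w k • g (f k) := by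
  rw [← Finset.sum_fiberwise_of_maps_to (s := A) (t := A.image f) (g := f)
    (fun k hk => Finset.mem_image_of_mem f hk) (fun k => w k • g (f k))]
  refine Finset.sum_congr rfl fun j _ => ?_
  rw [Finset.sum_smul]
  refine Finset.sum_congr rfl fun k hk => ?_
  rw [(Finset.mem_filter.1 hk).2]

theorem bal_of_mem (a b : n → ℂ)
    (h : (0 : ℝ × ℂ × ℝ) ∈ convexHull ℝ (Set.range (fun j => ((1 : ℝ), b j, ‖b j‖ ^ 2))
        ∪ Set.range (fun i => ((-1 : ℝ), a i, -‖a i‖ ^ 2)))) :
    ∃ (I J : Finset n) (lam mu : n → ℝ), Bal a b I J lam mu ∧ I.Nonempty ∧ J.Nonempty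
      ∧ I.card + J.card ≤ 5 ∧ Set.InjOn a I ∧ Set.InjOn b J := by
  classical
  obtain ⟨ι, _, z, w, hz, hai, hw, hw1, hw0⟩ := eq_pos_convex_span_of_mem_convexHull h
  have hinj : Function.Injective z := hai.injective
  have hcard : Fintype.card ι ≤ 5 := by
    have h1 := hai.card_le_finrank_succ
    have h2 : Module.finrank ℝ (vectorSpan ℝ (Set.range z)) ≤ Module.finrank ℝ (ℝ × ℂ × ℝ) :=
      Submodule.finrank_le _
    have h3 : Module.finrank ℝ (ℝ × ℂ × ℝ) = 4 := by
      rw [Module.finrank_prod, Module.finrank_prod, Module.finrank_self,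
        Complex.finrank_real_complex]
    omega
  have hcase : ∀ k, (∃ j, z k = ((1 : ℝ), b j, ‖b j‖ ^ 2)) ∨
      (∃ i, z k = ((-1 : ℝ), a i, -‖a i‖ ^ 2)) := by
    intro k
    rcases hz ⟨k, rfl⟩ with ⟨j, hj⟩ | ⟨i, hi⟩
    · exact Or.inl ⟨j, hj.symm⟩
    · exact Or.inr ⟨i, hi.symm⟩
  set A : Finset ι := Finset.univ.filter fun k => (z k).1 = 1 with hA
  set C : Finset ι := Finset.univ.filter fun k => ¬ (z k).1 = 1 with hC
  have hAm : ∀ k ∈ A, ∃ j, z k = ((1 : ℝ), b j, ‖b j‖ ^ 2) := by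
    intro k hk
    rcases hcase k with hj | ⟨i, hi⟩
    · exact hj
    · exfalso
      have h1 := (Finset.mem_filter.1 hk).2
      rw [hi] at h1
      norm_num at h1
  have hCm : ∀ k ∈ C, ∃ i, z k = ((-1 : ℝ), a i, -‖a i‖ ^ 2) := by
    intro k hk
    rcases hcase k with ⟨j, hj⟩ | hi
    · exfalso
      have h1 := (Finset.mem_filter.1 hk).2
      rw [hj] at h1
      exact h1 rfl
    · exact hi
  have hne : Nonempty n := by
    by_contra hn
    rw [not_nonempty_iff] at hn
    have h1 : IsEmpty ι := ⟨fun k => by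
      rcases hcase k with ⟨j, -⟩ | ⟨i, -⟩
      · exact hn.elim j
      · exact hn.elim i⟩
    rw [Fintype.sum_empty] at hw1
    norm_num at hw1
  have hAf : ∃ f : ι → n, ∀ k ∈ A, z k = ((1 : ℝ), b (f k), ‖b (f k)‖ ^ 2) :=
    ⟨fun k => if hk : k ∈ A then (hAm k hk).choose else Classical.arbitrary n, fun k hk => by
      simp only [dif_pos hk]
      exact (hAm k hk).choose_spec⟩
  have hCf : ∃ g : ι → n, ∀ k ∈ C, z k = ((-1 : ℝ), a (g k), -‖a (g k)‖ ^ 2) :=
    ⟨fun k => if hk : k ∈ C then (hCm k hk).choose else Classical.arbitrary n, fun k hk => by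
      simp only [dif_pos hk]
      exact (hCm k hk).choose_spec⟩
  obtain ⟨f, hf⟩ := hAf
  obtain ⟨g, hg⟩ := hCf
  have hsplit : ∀ {E : Type} [AddCommMonoid E] (F : ι → E),
      ∑ k ∈ A, F k + ∑ k ∈ C, F k = ∑ k, F k := fun F =>
    Finset.sum_filter_add_sum_filter_not Finset.univ (fun k => (z k).1 = 1) F
  -- the three coordinates
  have hc1 : ∑ k, w k * (z k).1 = 0 := by
    have := congrArg Prod.fst hw0
    rw [Prod.fst_sum] at this
    simpa using this
  have hc2 : ∑ k, w k • (z k).2.1 = 0 := by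
    have := congrArg (fun p : ℝ × ℂ × ℝ => p.2.1) hw0
    simp only [Prod.snd_sum, Prod.fst_sum] at this
    simpa using this
  have hc3 : ∑ k, w k * (z k).2.2 = 0 := by
    have := congrArg (fun p : ℝ × ℂ × ℝ => p.2.2) hw0
    simp only [Prod.snd_sum] at this
    simpa using this
  rw [← hsplit] at hc1 hc2 hc3 hw1
  have e1 : ∑ k ∈ A, w k * (z k).1 = ∑ k ∈ A, w k := Finset.sum_congr rfl fun k hk => by
    rw [hf k hk]; simp
  have e2 : ∑ k ∈ C, w k * (z k).1 = - ∑ k ∈ C, w k := by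
    rw [← Finset.sum_neg_distrib]
    exact Finset.sum_congr rfl fun k hk => by rw [hg k hk]; simp
  rw [e1, e2] at hc1
  have e3 : ∑ k ∈ A, w k • (z k).2.1 = ∑ k ∈ A, w k • b (f k) :=
    Finset.sum_congr rfl fun k hk => by rw [hf k hk]
  have e4 : ∑ k ∈ C, w k • (z k).2.1 = ∑ k ∈ C, w k • a (g k) :=
    Finset.sum_congr rfl fun k hk => by rw [hg k hk]
  rw [e3, e4] at hc2
  have e5 : ∑ k ∈ A, w k * (z k).2.2 = ∑ k ∈ A, w k • ‖b (f k)‖ ^ 2 :=
    Finset.sum_congr rfl fun k hk => by rw [hf k hk, smul_eq_mul]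
  have e6 : ∑ k ∈ C, w k * (z k).2.2 = - ∑ k ∈ C, w k • ‖a (g k)‖ ^ 2 := by
    rw [← Finset.sum_neg_distrib]
    exact Finset.sum_congr rfl fun k hk => by
      rw [hg k hk, smul_eq_mul]
      exact mul_neg _ _
  rw [e5, e6] at hc3
  have hAne : A.Nonempty := by
    rw [Finset.nonempty_iff_ne_empty]
    intro h0
    rw [h0] at hc1 hw1
    simp only [Finset.sum_empty] at hc1 hw1
    linarith
  have hCne : C.Nonempty := by
    rw [Finset.nonempty_iff_ne_empty]
    intro h0
    rw [h0] at hc1 hw1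
    simp only [Finset.sum_empty] at hc1 hw1
    linarith
  refine ⟨C.image g, A.image f, fun i => ∑ k ∈ C with g k = i, w k,
    fun j => ∑ k ∈ A with f k = j, w k, ⟨?_, ?_, ?_, ?_, ?_⟩, hCne.image g, hAne.image f,
    ?_, ?_, ?_⟩
  · intro i hi
    obtain ⟨k, hk, rfl⟩ := Finset.mem_image.1 hi
    exact Finset.sum_pos (fun k _ => hw k) ⟨k, Finset.mem_filter.2 ⟨hk, rfl⟩⟩
  · intro i hi
    obtain ⟨k, hk, rfl⟩ := Finset.mem_image.1 hi
    exact Finset.sum_pos (fun k _ => hw k) ⟨k, Finset.mem_filter.2 ⟨hk, rfl⟩⟩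
  · have h1 := sepcar_fiber C g w (fun _ => (1 : ℝ))
    have h2 := sepcar_fiber A f w (fun _ => (1 : ℝ))
    simp only [smul_eq_mul, mul_one] at h1 h2
    rw [h1, h2]
    linarith
  · have h1 := sepcar_fiber C g w a
    have h2 := sepcar_fiber A f w b
    simp only [Complex.real_smul] at h1 h2 hc2
    rw [h1, h2]
    exact eq_neg_of_add_eq_zero_left hc2
  · have h1 := sepcar_fiber C g w (fun i => ‖a i‖ ^ 2)
    have h2 := sepcar_fiber A f w (fun j => ‖b j‖ ^ 2)
    simp only [smul_eq_mul] at h1 h2 hc3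
    rw [h1, h2]
    linarith
  · have h1 : (C.image g).card ≤ C.card := Finset.card_image_le
    have h2 : (A.image f).card ≤ A.card := Finset.card_image_le
    have h3 : A.card + C.card = Fintype.card ι :=
      Finset.card_filter_add_card_filter_not (s := (Finset.univ : Finset ι))
        (fun k => (z k).1 = 1)
    omega
  · intro i hi i' hi' hii
    obtain ⟨k, hk, rfl⟩ := Finset.mem_image.1 (Finset.mem_coe.1 hi)
    obtain ⟨k', hk', rfl⟩ := Finset.mem_image.1 (Finset.mem_coe.1 hi')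
    have h1 : z k = z k' := by rw [hg k hk, hg k' hk', hii]
    rw [hinj h1]
  · intro i hi i' hi' hii
    obtain ⟨k, hk, rfl⟩ := Finset.mem_image.1 (Finset.mem_coe.1 hi)
    obtain ⟨k', hk', rfl⟩ := Finset.mem_image.1 (Finset.mem_coe.1 hi')
    have h1 : z k = z k' := by rw [hf k hk, hf k' hk', hii]
    rw [hinj h1]

end Pool.Agent.Helper56.CN
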