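import Pool.Agent.Helper56.CN.Defs

/-!
# Project CN (helper56), module SepHB
Hahn-Banach and Caratheodory.
-/

set_option autoImplicit false
set_option linter.unusedSectionVars false

namespace Pool.Agent.Helper56.CN

open Matrix Complex Filter Topology
open scoped ComplexConjugate

variable {n : Type*} [Fintype n] [DecidableEq n]

private theorem sepHB_sq (z : ℂ) : ‖z‖ ^ 2 = z.re ^ 2 + z.im ^ 2 := by
  rw [Complex.sq_norm, Complex.normSq_apply]
  ring

private theorem sepHB_final (a b : n → ℂ) (g α β s : ℝ) (hs : s ≠ 0)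
    (hb : ∀ j, 0 < g + (α * (b j).re + β * (b j).im) + s * ‖b j‖ ^ 2)
    (ha : ∀ i, 0 < -g + (α * (a i).re + β * (a i).im) - s * ‖a i‖ ^ 2) :
    ∃ p : ℂ, Sep (fun i => a i + p) (fun j => b j - p) ∨
      Sep (fun j => b j - p) (fun i => a i + p) := by
  refine ⟨⟨-α / (2 * s), -β / (2 * s)⟩, ?_⟩
  set p : ℂ := ⟨-α / (2 * s), -β / (2 * s)⟩ with hp
  have hpr : p.re = -α / (2 * s) := rfl
  have hpi : p.im = -β / (2 * s) := rfl
  have hα : α = -(2 * s * p.re) := by
    rw [hpr]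
    field_simp
  have hβ : β = -(2 * s * p.im) := by
    rw [hpi]
    field_simp
  have e1 : ∀ i, ‖a i + p‖ ^ 2 = (a i).re ^ 2 + (a i).im ^ 2 + 2 * (p.re * (a i).re +
      p.im * (a i).im) + (p.re ^ 2 + p.im ^ 2) := by
    intro i
    rw [sepHB_sq, Complex.add_re, Complex.add_im]
    ring
  have e2 : ∀ j, ‖b j - p‖ ^ 2 = (b j).re ^ 2 + (b j).im ^ 2 - 2 * (p.re * (b j).re +
      p.im * (b j).im) + (p.re ^ 2 + p.im ^ 2) := by
    intro j
    rw [sepHB_sq, Complex.sub_re, Complex.sub_im]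
    ring
  have key : ∀ i j, 0 < s * (‖b j - p‖ ^ 2 - ‖a i + p‖ ^ 2) := by
    intro i j
    have h1 := hb j
    have h2 := ha i
    rw [sepHB_sq] at h1 h2
    rw [e1, e2]
    rw [hα, hβ] at h1 h2
    nlinarith [h1, h2]
  rcases lt_or_gt_of_ne hs with h | h
  · right
    intro j i
    have h1 := key i j
    have h2 : ‖b j - p‖ ^ 2 < ‖a i + p‖ ^ 2 := by
      by_contra hc
      push Not at hc
      have h3 : 0 ≤ ‖b j - p‖ ^ 2 - ‖a i + p‖ ^ 2 := by linarith
      have h4 := mul_nonpos_of_nonpos_of_nonneg h.le h3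
      linarith
    exact lt_of_pow_lt_pow_left₀ 2 (norm_nonneg _) h2
  · left
    intro i j
    have h1 := key i j
    have h2 : ‖a i + p‖ ^ 2 < ‖b j - p‖ ^ 2 := by
      have h3 := (mul_pos_iff_of_pos_left h).1 h1
      linarith
    exact lt_of_pow_lt_pow_left₀ 2 (norm_nonneg _) h2

/-- Hahn-Banach: either a separating circle, or `0` is in a convex hull in `ℝ × ℂ × ℝ`. -/
theorem sep_or_mem (a b : n → ℂ) :
    (∃ p : ℂ, Sep (fun i => a i + p) (fun j => b j - p) ∨ Sep (fun j => b j - p) (fun i => a i + p))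
    ∨ (0 : ℝ × ℂ × ℝ) ∈ convexHull ℝ (Set.range (fun j => ((1 : ℝ), b j, ‖b j‖ ^ 2))
        ∪ Set.range (fun i => ((-1 : ℝ), a i, -‖a i‖ ^ 2))) := by
  by_cases h0 : (0 : ℝ × ℂ × ℝ) ∈ convexHull ℝ (Set.range (fun j => ((1 : ℝ), b j, ‖b j‖ ^ 2))
        ∪ Set.range (fun i => ((-1 : ℝ), a i, -‖a i‖ ^ 2)))
  · exact Or.inr h0
  · left
    set F : Set (ℝ × ℂ × ℝ) := Set.range (fun j => ((1 : ℝ), b j, ‖b j‖ ^ 2))
        ∪ Set.range (fun i => ((-1 : ℝ), a i, -‖a i‖ ^ 2)) with hF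
    have hfin : F.Finite := (Set.finite_range _).union (Set.finite_range _)
    have hcl : IsClosed (convexHull ℝ F) := hfin.isClosed_convexHull ℝ
    obtain ⟨f, u, hu0, hu⟩ := geometric_hahn_banach_point_closed (convex_convexHull ℝ F) hcl h0
    rw [map_zero] at hu0
    set g : ℝ := f (1, 0, 0) with hg
    set α : ℝ := f (0, 1, 0) with hα
    set β : ℝ := f (0, Complex.I, 0) with hβ
    set s : ℝ := f (0, 0, 1) with hs
    have hf : ∀ (x : ℝ) (z : ℂ) (y : ℝ), f (x, z, y) = x * g + (α * z.re + β * z.im) + s * y := by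
      intro x z y
      have h1 : ((x, z, y) : ℝ × ℂ × ℝ) = x • ((1, 0, 0) : ℝ × ℂ × ℝ) +
          (z.re • ((0, 1, 0) : ℝ × ℂ × ℝ) + z.im • ((0, Complex.I, 0) : ℝ × ℂ × ℝ)) +
          y • ((0, 0, 1) : ℝ × ℂ × ℝ) := by
        simp only [Prod.smul_mk, Prod.mk_add_mk, smul_eq_mul, mul_zero, mul_one, add_zero,
          zero_add, smul_zero]
        refine Prod.ext rfl (Prod.ext ?_ rfl)
        change z = z.re • (1 : ℂ) + z.im • Complex.I
        apply Complex.ext <;> simp
      rw [h1, map_add, map_add, map_add, map_smul, map_smul, map_smul, map_smul]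
      simp only [smul_eq_mul]
      rw [← hg, ← hα, ← hβ, ← hs]
      ring
    have hb : ∀ j, u < g + (α * (b j).re + β * (b j).im) + s * ‖b j‖ ^ 2 := by
      intro j
      have h1 := hu (1, b j, ‖b j‖ ^ 2) (subset_convexHull ℝ F (Or.inl ⟨j, rfl⟩))
      rw [hf, one_mul] at h1
      exact h1
    have ha : ∀ i, u < -g + (α * (a i).re + β * (a i).im) - s * ‖a i‖ ^ 2 := by
      intro i
      have h1 := hu (-1, a i, -‖a i‖ ^ 2) (subset_convexHull ℝ F (Or.inr ⟨i, rfl⟩))
      rw [hf] at h1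
      linarith
    by_cases hs0 : s = 0
    · -- perturb
      set M : ℝ := 1 + ∑ i, ‖a i‖ ^ 2 with hM
      have hMi : ∀ i, ‖a i‖ ^ 2 ≤ M := by
        intro i
        have h1 : ‖a i‖ ^ 2 ≤ ∑ i, ‖a i‖ ^ 2 :=
          Finset.single_le_sum (f := fun i => ‖a i‖ ^ 2) (fun i _ => sq_nonneg _)
            (Finset.mem_univ i)
        linarith
      have hMpos : 0 < M := by
        have h1 : 0 ≤ ∑ i, ‖a i‖ ^ 2 := Finset.sum_nonneg (fun i _ => sq_nonneg _)
        linarith
      have he : 0 < u / M := div_pos hu0 hMpos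
      refine sepHB_final a b g α β (u / M) he.ne' ?_ ?_
      · intro j
        have h1 := hb j
        rw [hs0, zero_mul, add_zero] at h1
        have h2 : 0 ≤ u / M * ‖b j‖ ^ 2 := mul_nonneg he.le (sq_nonneg _)
        linarith
      · intro i
        have h1 := ha i
        rw [hs0, zero_mul, sub_zero] at h1
        have h2 : u / M * ‖a i‖ ^ 2 ≤ u / M * M := mul_le_mul_of_nonneg_left (hMi i) he.le
        rw [div_mul_cancel₀ u hMpos.ne'] at h2
        linarith
    · refine sepHB_final a b g α β s hs0 ?_ ?_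
      · intro j
        exact hu0.trans (hb j)
      · intro i
        exact hu0.trans (ha i)

end Pool.Agent.Helper56.CN
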