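import Pool.Agent.Helper56.CN.PermExt
import Pool.Agent.Helper56.CN.Core6

/-!
# Project CN (helper56), module SepThree
The case (2,3).
-/

set_option autoImplicit false
set_option linter.unusedSectionVars false

namespace Pool.Agent.Helper56.CN

open Matrix Complex Filter Topology
open scoped ComplexConjugate

variable {n : Type*} [Fintype n] [DecidableEq n]

/-- the orthogonality relation of the case (2,3) -/
private theorem bal_orth {a1 a2 b1 b2 b3 : ℂ} {l1 l2 m1 m2 m3 : ℝ}
    (hs : l1 + l2 = m1 + m2 + m3)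
    (hl : (m1 : ℂ) * b1 + m2 * b2 + m3 * b3 = - (l1 * a1 + l2 * a2))
    (hq : m1 * ‖b1‖ ^ 2 + m2 * ‖b2‖ ^ 2 + m3 * ‖b3‖ ^ 2 = l1 * ‖a1‖ ^ 2 + l2 * ‖a2‖ ^ 2) :
    (m1 : ℂ) * ((a1 + b1) * conj (a2 + b1)) + m2 * ((a1 + b2) * conj (a2 + b2)) +
      m3 * ((a1 + b3) * conj (a2 + b3)) = 0 := by
  have hs' : (l1 : ℂ) + l2 = m1 + m2 + m3 := by exact_mod_cast hs
  have hq' : (m1 : ℂ) * (b1 * conj b1) + m2 * (b2 * conj b2) + m3 * (b3 * conj b3) =
      l1 * (a1 * conj a1) + l2 * (a2 * conj a2) := by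
    simp only [Complex.mul_conj, Complex.normSq_eq_norm_sq]
    exact_mod_cast hq
  have hl' : (m1 : ℂ) * conj b1 + m2 * conj b2 + m3 * conj b3 =
      - (l1 * conj a1 + l2 * conj a2) := by
    have := congrArg (starRingEnd ℂ) hl
    simpa [map_add, map_mul, map_neg] using this
  simp only [map_add]
  linear_combination hq' + conj a2 * hl + a1 * hl' - (a1 * conj a2) * hs'

private theorem perm3 : ∀ i k : Fin 3, i ≠ k → ∃ s : Equiv.Perm (Fin 3), s 0 = i ∧ s 2 = k := by
  decide

private theorem perm3' : ∀ u : Fin 3, ∃ s : Equiv.Perm (Fin 3), s 1 = u := by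
  decide

theorem bal_three {a b : n → ℂ} {I J : Finset n} {lam mu : n → ℝ} (h : Bal a b I J lam mu)
    (hI : I.card = 2) (hJ : J.card = 3) (ha : Set.InjOn a I) {ζ : ℂ} (hp : Pos a b ζ) :
    False := by
  obtain ⟨i1, i2, hi12, rfl⟩ := Finset.card_eq_two.1 hI
  obtain ⟨j1, j2, j3, hj12, hj13, hj23, rfl⟩ := Finset.card_eq_three.1 hJ
  obtain ⟨i3, -, hi3⟩ : ∃ e ∈ (Finset.univ : Finset n), e ∉ ({i1, i2} : Finset n) := by
    apply Finset.exists_mem_notMem_of_card_lt_card
    rw [hI]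
    have h1 : ({j1, j2, j3} : Finset n).card ≤ (Finset.univ : Finset n).card :=
      Finset.card_le_card (Finset.subset_univ _)
    omega
  simp only [Finset.mem_insert, Finset.mem_singleton, not_or] at hi3
  have hi : Function.Injective ![i1, i2, i3] := by
    intro r s hrs
    fin_cases r <;> fin_cases s <;> simp_all [eq_comm]
  have hj : Function.Injective ![j1, j2, j3] := by
    intro r s hrs
    fin_cases r <;> fin_cases s <;> simp_all [eq_comm]
  obtain ⟨c, hc⟩ := pos_sub hp ![i1, i2, i3] ![j1, j2, j3] hi hj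
  have hc' : ∀ s : Equiv.Perm (Fin 3), 0 < (c * ((a i1 + b (![j1, j2, j3] (s 0))) *
      (a i2 + b (![j1, j2, j3] (s 1))) * (a i3 + b (![j1, j2, j3] (s 2))))).re := by
    intro s
    have := hc s
    rwa [Fin.prod_univ_three] at this
  set m1 : Fin 3 → ℂ := fun s => a i1 + b (![j1, j2, j3] s) with hm1
  set m2 : Fin 3 → ℂ := fun s => a i2 + b (![j1, j2, j3] s) with hm2
  set m3 : Fin 3 → ℂ := fun s => a i3 + b (![j1, j2, j3] s) with hm3
  have hc2 : ∀ s : Equiv.Perm (Fin 3), 0 < (c * (m1 (s 0) * m2 (s 1) * m3 (s 2))).re := hc'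
  have hne : ∀ u, m2 u ≠ 0 := by
    intro u h0
    obtain ⟨s, hs⟩ := perm3' u
    have := hc2 s
    rw [hs, h0] at this
    simp at this
  have ha12 : a i1 - a i2 ≠ 0 := by
    intro h0
    exact hi12 (ha (by simp) (by simp) (sub_eq_zero.1 h0))
  have hmu : ∀ u : Fin 3, 0 < mu (![j1, j2, j3] u) := by
    intro u
    apply h.mpos
    fin_cases u <;> simp
  have horth : (mu j1 : ℂ) * ((a i1 + b j1) * conj (a i2 + b j1)) +
      mu j2 * ((a i1 + b j2) * conj (a i2 + b j2)) +
      mu j3 * ((a i1 + b j3) * conj (a i2 + b j3)) = 0 := by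
    have hs := h.sum
    have hl := h.lin
    have hq := h.sq
    have e1 : j1 ∉ ({j2, j3} : Finset n) := by simp [hj12, hj13]
    have e2 : j2 ∉ ({j3} : Finset n) := by simp [hj23]
    rw [Finset.sum_pair hi12, Finset.sum_insert e1, Finset.sum_pair hj23] at hs hl hq
    exact bal_orth (l1 := lam i1) (l2 := lam i2) (by linarith) (by linear_combination hl)
      (by linarith)
  refine core6 (fun u => m1 u / m2 u) (fun u => m3 u / m2 u)
    (fun u => mu (![j1, j2, j3] u) * Complex.normSq (m2 u)) (fun u => ?_)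
    ((a i3 - a i2) / (a i1 - a i2)) (1 - (a i3 - a i2) / (a i1 - a i2)) ?_ (fun u => ?_)
    (c * ∏ r, m2 r) ?_
  · exact mul_pos (hmu u) (Complex.normSq_pos.2 (hne u))
  · have key : ∀ u, ((mu (![j1, j2, j3] u) * Complex.normSq (m2 u) : ℝ) : ℂ) * (m1 u / m2 u) =
        mu (![j1, j2, j3] u) * (m1 u * conj (m2 u)) := by
      intro u
      rw [Complex.ofReal_mul, Complex.normSq_eq_conj_mul_self]
      field_simp [hne u]
    simp only [key]
    rw [Fin.sum_univ_three]
    exact horth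
  · have h2 := hne u
    show m3 u / m2 u = _ * (m1 u / m2 u) + _
    have e1 : m1 u = (a i1 - a i2) + m2 u := by simp only [hm1, hm2]; ring
    have e3 : m3 u = (a i3 - a i2) + m2 u := by simp only [hm3, hm2]; ring
    rw [e1, e3]
    field_simp
    ring
  · intro i k hik
    obtain ⟨s, hs0, hs2⟩ := perm3 i k hik
    have h3 := hc2 s
    have hprod : ∏ r, m2 r = m2 (s 0) * m2 (s 1) * m2 (s 2) := by
      rw [← Equiv.prod_comp s, Fin.prod_univ_three]
    have : c * (∏ r, m2 r) * (m1 i / m2 i) * (m3 k / m2 k) =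
        c * (m1 (s 0) * m2 (s 1) * m3 (s 2)) := by
      rw [hprod, hs0, hs2]
      have h4 := hne i
      have h5 := hne k
      field_simp
    show 0 < (c * (∏ r, m2 r) * (m1 i / m2 i) * (m3 k / m2 k)).re
    rw [this]
    exact h3

end Pool.Agent.Helper56.CN
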