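import Pool.Agent.Helper56.CN.SepTwo
import Pool.Agent.Helper56.CN.SepThree
import Pool.Agent.Helper56.CN.SepHB
import Pool.Agent.Helper56.CN.SepCar

/-!
# Project CN (helper56), module SepMain
Spectra are separated by a circle when all permutation points lie in an open half-plane.
-/

set_option autoImplicit false
set_option linter.unusedSectionVars false

namespace Pool.Agent.Helper56.CN

open Matrix Complex Filter Topology
open scoped ComplexConjugate

variable {n : Type*} [Fintype n] [DecidableEq n]

theorem exists_sep {a b : n → ℂ} {ζ : ℂ} (hp : Pos a b ζ) :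
    ∃ p : ℂ, Sep (fun i => a i + p) (fun j => b j - p) ∨ Sep (fun j => b j - p) (fun i => a i + p) := by
  rcases sep_or_mem a b with h | h
  · exact h
  · exfalso
    obtain ⟨I, J, lam, mu, hb, hI, hJ, hc, ha, hbj⟩ := bal_of_mem a b h
    have h1 : 0 < I.card := hI.card_pos
    have h2 : 0 < J.card := hJ.card_pos
    by_cases e1 : I.card = 1
    · exact bal_one hb e1 hJ hp
    by_cases e2 : J.card = 1
    · exact bal_one hb.swap e2 hI hp.swap
    by_cases e3 : I.card = 2
    · by_cases e4 : J.card = 2
      · exact bal_two hb e3 e4 hp
      · exact bal_three hb e3 (by omega) ha hp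
    · exact bal_three hb.swap (by omega) (by omega) hbj hp.swap

end Pool.Agent.Helper56.CN
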