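import Pool.Agent.Helper56.CN.PermExt

/-!
# Project CN (helper56), module SepTwo
The cases of small support.
-/

set_option autoImplicit false
set_option linter.unusedSectionVars false

namespace Pool.Agent.Helper56.CN

open Matrix Complex Filter Topology
open scoped ComplexConjugate

variable {n : Type*} [Fintype n] [DecidableEq n]

private theorem norm_add_sq_aux (x y : ℂ) :
    ‖x + y‖ ^ 2 = ‖x‖ ^ 2 + 2 * (conj x * y).re + ‖y‖ ^ 2 := by
  rw [← Complex.normSq_eq_norm_sq, ← Complex.normSq_eq_norm_sq, ← Complex.normSq_eq_norm_sq]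
  simp only [Complex.normSq_apply, Complex.add_re, Complex.add_im, Complex.mul_re, Complex.conj_re,
    Complex.conj_im]
  ring

theorem bal_one {a b : n → ℂ} {I J : Finset n} {lam mu : n → ℝ} (h : Bal a b I J lam mu)
    (hI : I.card = 1) (hJ : J.Nonempty) {ζ : ℂ} (hp : Pos a b ζ) : False := by
  obtain ⟨i, rfl⟩ := Finset.card_eq_one.1 hI
  have hs := h.sum
  have hl := h.lin
  have hq := h.sq
  simp only [Finset.sum_singleton] at hs hl hq
  have h0 : ∑ j ∈ J, mu j * ‖a i + b j‖ ^ 2 = 0 := by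
    have e1 : ∑ j ∈ J, mu j * ‖a i + b j‖ ^ 2 =
        (∑ j ∈ J, mu j) * ‖a i‖ ^ 2 + 2 * (conj (a i) * ∑ j ∈ J, (mu j : ℂ) * b j).re +
          ∑ j ∈ J, mu j * ‖b j‖ ^ 2 := by
      rw [Finset.mul_sum, Complex.re_sum, Finset.sum_mul, Finset.mul_sum,
        ← Finset.sum_add_distrib, ← Finset.sum_add_distrib]
      refine Finset.sum_congr rfl (fun j _ => ?_)
      rw [norm_add_sq_aux]
      have : (conj (a i) * ((mu j : ℂ) * b j)).re = mu j * (conj (a i) * b j).re := by
        rw [← mul_assoc, mul_comm (conj (a i)) (mu j : ℂ), mul_assoc, Complex.re_ofReal_mul]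
      rw [this]
      ring
    rw [e1, ← hs, hl, hq]
    have : (conj (a i) * -((lam i : ℂ) * a i)).re = - (lam i * ‖a i‖ ^ 2) := by
      rw [← Complex.normSq_eq_norm_sq, Complex.normSq_apply]
      simp only [Complex.mul_re, Complex.neg_re, Complex.neg_im, Complex.mul_im, Complex.conj_re,
        Complex.conj_im, Complex.ofReal_re, Complex.ofReal_im]
      ring
    rw [this]
    ring
  obtain ⟨j, hj⟩ := hJ
  have h1 := (Finset.sum_eq_zero_iff_of_nonneg (fun k hk =>
    mul_nonneg (h.mpos k hk).le (sq_nonneg _))).1 h0 j hj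
  have h2 : a i + b j = 0 := by
    have h3 := (mul_eq_zero.1 h1).resolve_left (h.mpos j hj).ne'
    exact norm_eq_zero.1 (pow_eq_zero_iff (two_ne_zero) |>.1 h3)
  obtain ⟨c, hc⟩ := pos_sub hp (m := 1) (fun _ => i) (fun _ => j)
    (Function.injective_of_subsingleton _) (Function.injective_of_subsingleton _)
  have h4 := hc 1
  simp [h2] at h4

theorem bal_two {a b : n → ℂ} {I J : Finset n} {lam mu : n → ℝ} (h : Bal a b I J lam mu)
    (hI : I.card = 2) (hJ : J.card = 2) {ζ : ℂ} (hp : Pos a b ζ) : False := by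
  obtain ⟨i1, i2, hi, rfl⟩ := Finset.card_eq_two.1 hI
  obtain ⟨j1, j2, hj, rfl⟩ := Finset.card_eq_two.1 hJ
  have hs := h.sum
  have hl := h.lin
  have hq := h.sq
  rw [Finset.sum_pair hi, Finset.sum_pair hj] at hs
  rw [Finset.sum_pair hi, Finset.sum_pair hj] at hl
  rw [Finset.sum_pair hi, Finset.sum_pair hj] at hq
  have hm1 : 0 < mu j1 := h.mpos j1 (by simp)
  have hm2 : 0 < mu j2 := h.mpos j2 (by simp)
  have hn : ∀ z : ℂ, ((‖z‖ : ℝ) : ℂ) ^ 2 = z * conj z := fun z => by
    rw [Complex.mul_conj, Complex.normSq_eq_norm_sq]; push_cast; ring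
  have hsC : (lam i1 : ℂ) + lam i2 = mu j1 + mu j2 := by exact_mod_cast hs
  have hqC : (mu j1 : ℂ) * (b j1 * conj (b j1)) + mu j2 * (b j2 * conj (b j2)) =
      lam i1 * (a i1 * conj (a i1)) + lam i2 * (a i2 * conj (a i2)) := by
    rw [← hn, ← hn, ← hn, ← hn]; exact_mod_cast hq
  have hlC : (mu j1 : ℂ) * conj (b j1) + mu j2 * conj (b j2) =
      -(lam i1 * conj (a i1) + lam i2 * conj (a i2)) := by
    have := congrArg (starRingEnd ℂ) hl
    simpa using this
  have key : (mu j1 : ℂ) * (a i1 + b j1) * conj (a i2 + b j1) +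
      mu j2 * (a i1 + b j2) * conj (a i2 + b j2) = 0 := by
    rw [map_add, map_add]
    linear_combination (- a i1 * conj (a i2)) * hsC + (conj (a i2)) * hl + (a i1) * hlC + hqC
  obtain ⟨c, hc⟩ := pos_sub hp (m := 2) ![i1, i2] ![j1, j2]
    (by
      intro x y hxy
      fin_cases x <;> fin_cases y <;> simp_all)
    (by
      intro x y hxy
      fin_cases x <;> fin_cases y <;> simp_all)
  have h1 := hc 1
  have h2 := hc (Equiv.swap 0 1)
  simp only [Fin.prod_univ_two, Equiv.Perm.coe_one, id_eq, Matrix.cons_val_zero,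
    Matrix.cons_val_one, Equiv.swap_apply_left, Equiv.swap_apply_right] at h1 h2
  set m11 := a i1 + b j1
  set m12 := a i1 + b j2
  set m21 := a i2 + b j1
  set m22 := a i2 + b j2
  have key2 : (mu j1 * ‖m21‖ ^ 2) * (c * (m11 * m22)).re +
      (mu j2 * ‖m22‖ ^ 2) * (c * (m12 * m21)).re = 0 := by
    have e : ((mu j1 * ‖m21‖ ^ 2 : ℝ) : ℂ) * (c * (m11 * m22)) +
        ((mu j2 * ‖m22‖ ^ 2 : ℝ) : ℂ) * (c * (m12 * m21)) = 0 := by
      push_cast
      rw [hn, hn]
      linear_combination (c * m21 * m22) * key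
    have := congrArg Complex.re e
    rw [Complex.add_re, Complex.re_ofReal_mul, Complex.re_ofReal_mul, Complex.zero_re] at this
    exact this
  have p1 : 0 ≤ (mu j1 * ‖m21‖ ^ 2) * (c * (m11 * m22)).re := by positivity
  have p2 : 0 ≤ (mu j2 * ‖m22‖ ^ 2) * (c * (m12 * m21)).re := by positivity
  have q2 : (mu j2 * ‖m22‖ ^ 2) * (c * (m12 * m21)).re = 0 := by linarith
  have r2 : mu j2 * ‖m22‖ ^ 2 = 0 := (mul_eq_zero.1 q2).resolve_right h2.ne'
  have s2 : ‖m22‖ ^ 2 = 0 := (mul_eq_zero.1 r2).resolve_left hm2.ne'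
  have t2 : m22 = 0 := norm_eq_zero.1 (pow_eq_zero_iff (two_ne_zero) |>.1 s2)
  rw [t2] at h1
  simp at h1

end Pool.Agent.Helper56.CN
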