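import Pool.Agent.Helper56.CN.Arg4
import Pool.Agent.Helper56.CN.FPerm

/-!
# Project CN (helper56), module Sheet
All arguments on the same sheet.
-/

set_option autoImplicit false
set_option linter.unusedSectionVars false

namespace Pool.Agent.Helper56.CN

open Matrix Complex Filter Topology
open scoped ComplexConjugate

variable {n : Type*} [Fintype n] [DecidableEq n]

private theorem sheet_swap (a b : n → ℂ) (σ : Equiv.Perm n) {p q : n} (hpq : p ≠ q) :
    Fperm a b σ - Fperm a b (σ * Equiv.swap p q) =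
      Complex.arg (1 + a p / b (σ p)) + Complex.arg (1 + a q / b (σ q))
      - Complex.arg (1 + a p / b (σ q)) - Complex.arg (1 + a q / b (σ p)) := by
  unfold Fperm
  rw [← Finset.sum_sub_distrib]
  rw [← Finset.add_sum_erase _ _ (Finset.mem_univ p),
    ← Finset.add_sum_erase _ _ (show q ∈ Finset.univ.erase p from
      Finset.mem_erase.2 ⟨hpq.symm, Finset.mem_univ q⟩)]
  rw [Finset.sum_eq_zero (s := (Finset.univ.erase p).erase q)]
  · simp only [Equiv.Perm.coe_mul, Function.comp_apply, Equiv.swap_apply_left,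
      Equiv.swap_apply_right]
    ring
  · intro i hi
    rw [Finset.mem_erase, Finset.mem_erase] at hi
    simp only [Equiv.Perm.coe_mul, Function.comp_apply]
    rw [Equiv.swap_apply_of_ne_of_ne hi.2.1 hi.1]
    ring

theorem sheet {a b : n → ℂ} (hs : Sep a b) {ζ : ℂ} (hp : Pos a b ζ) :
    ∃ c : ℝ, (∀ σ, Fperm a b σ = Complex.arg (ζ * zz a b σ) + c)
      ∧ ∃ r : ℝ, 0 < r ∧ ζ * ∏ j, b j = (r : ℂ) * Complex.exp (-(c : ℂ) * I) := by
  set θ : Equiv.Perm n → ℝ := fun σ => Fperm a b σ - Complex.arg (ζ * zz a b σ) with hθ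
  -- the product and the exponentials
  have key : ∀ σ, ∃ r : ℝ, 0 < r ∧ ζ * ∏ j, b j = (r : ℂ) * Complex.exp (-(θ σ : ℂ) * I) := by
    intro σ
    obtain ⟨r, hr, h1⟩ := zz_eq_exp hs σ
    have h2 : ζ * zz a b σ ≠ 0 := by
      intro h
      have h3 := hp σ
      rw [h] at h3
      simp at h3
    have h3 : 0 < ‖ζ * zz a b σ‖ := norm_pos_iff.2 h2
    have h4 := Complex.norm_mul_exp_arg_mul_I (ζ * zz a b σ)
    refine ⟨‖ζ * zz a b σ‖ / r, div_pos h3 hr, ?_⟩
    have h5 : Complex.exp (-(θ σ : ℂ) * I) =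
        Complex.exp (((ζ * zz a b σ).arg : ℂ) * I) * Complex.exp (-((Fperm a b σ : ℂ) * I)) := by
      rw [← Complex.exp_add]
      congr 1
      simp only [hθ]
      push_cast
      ring
    have h6 : Complex.exp ((Fperm a b σ : ℂ) * I) ≠ 0 := Complex.exp_ne_zero _
    have hr' : (r : ℂ) ≠ 0 := Complex.ofReal_ne_zero.2 hr.ne'
    rw [h5, Complex.exp_neg]
    push_cast
    calc ζ * ∏ j, b j = (ζ * zz a b σ) / ((r : ℂ) * Complex.exp ((Fperm a b σ : ℂ) * I)) := by
          rw [h1]
          field_simp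
      _ = ((‖ζ * zz a b σ‖ : ℂ) * Complex.exp (((ζ * zz a b σ).arg : ℂ) * I)) /
          ((r : ℂ) * Complex.exp ((Fperm a b σ : ℂ) * I)) := by rw [h4]
      _ = _ := by
          field_simp
  have harg : ∀ σ, |Complex.arg (ζ * zz a b σ)| < Real.pi / 2 := fun σ =>
    Complex.abs_arg_lt_pi_div_two_iff.2 (Or.inl (hp σ))
  have hstep : ∀ (σ : Equiv.Perm n) (p q : n), p ≠ q → θ (σ * Equiv.swap p q) = θ σ := by
    intro σ p q hpq
    have h1 : |Fperm a b σ - Fperm a b (σ * Equiv.swap p q)| < Real.pi := by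
      rw [sheet_swap a b σ hpq]
      exact arg_four (hs _ _) (hs _ _) (hs _ _) (hs _ _)
    have h2 : |θ (σ * Equiv.swap p q) - θ σ| < 2 * Real.pi := by
      have h3 := abs_lt.1 (harg σ)
      have h4 := abs_lt.1 (harg (σ * Equiv.swap p q))
      have h5 := abs_lt.1 h1
      simp only [hθ]
      rw [abs_lt]
      constructor
      · linarith [h3.1, h3.2, h4.1, h4.2, h5.1, h5.2]
      · linarith [h3.1, h3.2, h4.1, h4.2, h5.1, h5.2]
    obtain ⟨r, hr, e1⟩ := key σ
    obtain ⟨r', hr', e2⟩ := key (σ * Equiv.swap p q)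
    have e3 : (r : ℂ) * Complex.exp (-(θ σ : ℂ) * I) =
        (r' : ℂ) * Complex.exp (-(θ (σ * Equiv.swap p q) : ℂ) * I) := by rw [← e1, ← e2]
    have hnorm : ∀ x : ℝ, ‖Complex.exp (-(x : ℂ) * I)‖ = 1 := by
      intro x
      have h := Complex.norm_exp_ofReal_mul_I (-x)
      push_cast at h
      exact h
    have e4 : r = r' := by
      have e5 := congrArg norm e3
      rw [norm_mul, norm_mul, hnorm, hnorm, Complex.norm_real, Complex.norm_real,
        Real.norm_of_nonneg hr.le, Real.norm_of_nonneg hr'.le] at e5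
      linarith
    rw [← e4] at e3
    have e6 := mul_left_cancel₀ (Complex.ofReal_ne_zero.2 hr.ne') e3
    rw [Complex.exp_eq_exp_iff_exists_int] at e6
    obtain ⟨m, hm⟩ := e6
    have e7 : θ (σ * Equiv.swap p q) - θ σ = m * (2 * Real.pi) := by
      have e8 : ((θ (σ * Equiv.swap p q) - θ σ : ℝ) : ℂ) * I = ((m * (2 * Real.pi) : ℝ) : ℂ) * I := by
        push_cast
        linear_combination hm
      have e9 := mul_right_cancel₀ Complex.I_ne_zero e8
      exact_mod_cast e9
    have e10 : m = 0 := by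
      rw [e7, abs_mul, abs_of_pos (by positivity : (0 : ℝ) < 2 * Real.pi)] at h2
      have h6 : |(m : ℝ)| < 1 := by
        by_contra hc
        rw [not_lt] at hc
        have : 1 * (2 * Real.pi) ≤ |(m : ℝ)| * (2 * Real.pi) :=
          mul_le_mul_of_nonneg_right hc (by positivity)
        linarith
      have h7 : |m| < 1 := by exact_mod_cast h6
      exact Int.abs_lt_one_iff.1 h7
    rw [e10] at e7
    simp at e7
    linarith
  have hall : ∀ σ, θ σ = θ 1 := by
    intro σ
    induction σ using Equiv.Perm.swap_induction_on' with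
    | one => rfl
    | mul_swap f x y hxy ih => rw [hstep f x y hxy, ih]
  refine ⟨θ 1, ?_, key 1⟩
  intro σ
  have h := hall σ
  simp only [hθ] at h ⊢
  linarith

end Pool.Agent.Helper56.CN
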