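import Pool.Agent.Helper56.CN.Defs

/-!
# Project CN (helper56), module StarA
The star direction: first identities.
-/

set_option autoImplicit false
set_option linter.unusedSectionVars false

namespace Pool.Agent.Helper56.CN

open Matrix Complex Filter Topology
open scoped ComplexConjugate

variable {n : Type*} [Fintype n] [DecidableEq n]

section

variable {K S : Matrix n n ℂ} {b : n → ℂ} (hc : Crit K S b) (hb : Function.Injective b) (k : n)
  {u : n → ℂ} (hu1 : (K + diagonal (fun _ => b k)) *ᵥ u = fun j => conj (S k j))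
  (hu2 : star (K + diagonal (fun _ => b k)) *ᵥ u = fun j => S j k)

theorem yy_self (S : Matrix n n ℂ) (b : n → ℂ) (k : n) (u : n → ℂ) : yy S b k u k = 0 := by
  simp [yy, xx]

theorem YY_skew (S : Matrix n n ℂ) (b : n → ℂ) (k : n) (u : n → ℂ) :
    star (YY S b k u) = - YY S b k u := by
  ext i j
  rw [Matrix.star_apply, Matrix.neg_apply]
  unfold YY
  rw [Matrix.add_apply, Matrix.add_apply, vecMulVec_apply, vecMulVec_apply, vecMulVec_apply,
    vecMulVec_apply]
  by_cases hi : i = k
  · by_cases hj : j = k
    · subst hi; subst hj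
      simp
    · subst hi
      simp [hj]
  · by_cases hj : j = k
    · subst hj
      simp [hi]
    · simp [hi, hj]

theorem YY_comm (S : Matrix n n ℂ) (b : n → ℂ) (k : n) (u : n → ℂ) :
    YY S b k u * diagonal b - diagonal b * YY S b k u = CC S b k u := by
  ext i j
  rw [Matrix.sub_apply, Matrix.mul_diagonal, Matrix.diagonal_mul]
  unfold YY CC
  rw [Matrix.add_apply, Matrix.add_apply, vecMulVec_apply, vecMulVec_apply, vecMulVec_apply,
    vecMulVec_apply]
  unfold cc dd
  by_cases hi : i = k
  · by_cases hj : j = k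
    · subst hi; subst hj
      simp
      ring
    · subst hi
      simp [hj]
      ring
  · by_cases hj : j = k
    · subst hj
      simp [hi]
      ring
    · simp [hi, hj]

include hb in
/-- `S_jk = x_j conj (b_j - b_k)` -/
theorem S_jk (S : Matrix n n ℂ) (k : n) (u : n → ℂ) {j : n} (hj : j ≠ k) :
    S j k = xx S b k u j * conj (b j - b k) := by
  have h : conj (b j - b k) ≠ 0 := by
    rw [Ne, map_eq_zero, sub_eq_zero]
    exact fun h => hj (hb h)
  unfold xx
  rw [if_neg hj, div_mul_cancel₀ _ h]

include hc hb in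
/-- `S_kj = conj (x_j) conj (b_j - b_k)` -/
theorem S_kj (u : n → ℂ) {j : n} (hj : j ≠ k) :
    S k j = conj (xx S b k u j) * conj (b j - b k) := by
  have h : b j - b k ≠ 0 := by
    rw [Ne, sub_eq_zero]
    exact fun h => hj (hb h)
  have h1 := S_jk hb S k u hj
  have h2 := hc.hC j k
  have h3 := congrArg conj h2
  rw [Complex.conj_conj, map_mul, h1, map_mul, Complex.conj_conj] at h3
  exact mul_right_cancel₀ h (by rw [← h3]; ring)

include hc hb hu1 in
theorem S_mul_cc (j : n) : (S *ᵥ cc S b k u) j = - u j + conj (S k k) * S j k := by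
  have h1 : cc S b k u = (conj (S k k)) • (Pi.single k 1 : n → ℂ) - (K + diagonal b) *ᵥ u := by
    funext i
    have h2 : ((K + diagonal b) *ᵥ u) i = conj (S k i) + (b i - b k) * u i := by
      have h3 := congrFun hu1 i
      rw [Matrix.add_mulVec, Pi.add_apply, Matrix.mulVec_diagonal] at h3 ⊢
      rw [← h3]
      ring
    rw [Pi.sub_apply, h2, Pi.smul_apply, smul_eq_mul]
    by_cases hi : i = k
    · subst hi
      simp [cc]
    · rw [S_kj hc hb k u hi]
      simp only [map_mul, Complex.conj_conj, Pi.single_apply, hi, if_false, cc, yy]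
      ring
  rw [h1, Matrix.mulVec_sub, Matrix.mulVec_smul, Matrix.mulVec_mulVec, hc.inv2, Matrix.one_mulVec,
    Matrix.mulVec_single_one, Pi.sub_apply, Pi.smul_apply, smul_eq_mul, Matrix.col_apply]
  ring

include hc hb hu2 in
theorem dd_mul_S (j : n) : (dd S b k u ᵥ* S) j = - conj (u j) + conj (S k k) * S k j := by
  have h1 : dd S b k u = (conj (S k k)) • (Pi.single k 1 : n → ℂ)
      - (fun i => conj (u i)) ᵥ* (K + diagonal b) := by
    funext i
    have h2 : ((fun i => conj (u i)) ᵥ* (K + diagonal b)) i
        = conj (S i k) + (b i - b k) * conj (u i) := by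
      have h3 := congrArg conj (congrFun hu2 i)
      have h4 : conj ((star (K + diagonal fun _ => b k) *ᵥ u) i)
          = ((fun i => conj (u i)) ᵥ* (K + diagonal fun _ => b k)) i := by
        simp only [Matrix.mulVec, Matrix.vecMul, dotProduct, Matrix.star_apply, map_sum, map_mul]
        refine Finset.sum_congr rfl fun l _ => ?_
        rw [← starRingEnd_apply, Complex.conj_conj]
        ring
      rw [h4] at h3
      rw [Matrix.vecMul_add, Pi.add_apply, Matrix.vecMul_diagonal] at h3 ⊢
      rw [← h3]
      ring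
    rw [Pi.sub_apply, h2, Pi.smul_apply, smul_eq_mul]
    by_cases hi : i = k
    · subst hi
      simp [dd]
    · rw [S_jk hb S k u hi]
      simp only [map_mul, Complex.conj_conj, Pi.single_apply, hi, if_false, dd, yy, map_add]
      ring
  rw [h1, Matrix.sub_vecMul, Matrix.smul_vecMul, Matrix.vecMul_vecMul, hc.inv1, Matrix.vecMul_one,
    Matrix.single_one_vecMul, Pi.sub_apply, Pi.smul_apply, smul_eq_mul, Matrix.row_apply]
  ring

include hu1 hu2 in
/-- `u* S e_k = e_k* S u` -/
theorem u_sym : ∑ j, conj (u j) * S j k = ∑ j, S k j * u j := by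
  have h1 : ∀ j, S j k = (star (K + diagonal (fun _ => b k)) *ᵥ u) j :=
    fun j => (congrFun hu2 j).symm
  have h2 : ∀ j, S k j = conj (((K + diagonal (fun _ => b k)) *ᵥ u) j) := by
    intro j
    rw [hu1, Complex.conj_conj]
  simp_rw [h1, h2]
  simp only [Matrix.mulVec, dotProduct, Matrix.star_apply, map_sum, map_mul, Finset.mul_sum,
    Finset.sum_mul]
  rw [Finset.sum_comm]
  refine Finset.sum_congr rfl fun i _ => Finset.sum_congr rfl fun j _ => ?_
  rw [← starRingEnd_apply]
  ring

end

end Pool.Agent.Helper56.CN
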