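import Pool.Agent.Helper56.CN.StarA

/-!
# Project CN (helper56), module StarL
The second variation of the argument vanishes in the star directions.
-/

set_option autoImplicit false
set_option linter.unusedSectionVars false

namespace Pool.Agent.Helper56.CN

open Matrix Complex Filter Topology
open scoped ComplexConjugate

variable {n : Type*} [Fintype n] [DecidableEq n]

theorem star_im_scalar (α s P Q E v : ℂ) (hP : P = Q - conj v * s + v * s) :
    (-(α + conj α - conj s * P - conj s * Q + 2 * s * E)
      - ((-v + conj s * s) ^ 2 + 2 * (-(E + conj Q) + conj s * (-conj v + conj s * s)) * s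
        + (-conj v + conj s * s) ^ 2)).im = 0 := by
  subst hP
  have h1 : -(α + conj α - conj s * (Q - conj v * s + v * s) - conj s * Q + 2 * s * E)
      - ((-v + conj s * s) ^ 2 + 2 * (-(E + conj Q) + conj s * (-conj v + conj s * s)) * s
        + (-conj v + conj s * s) ^ 2)
      = -(α + conj α) + 2 * (conj s * Q + conj (conj s * Q))
        + (conj s * s) * (3 * (v + conj v)) - (v ^ 2 + conj (v ^ 2)) - 4 * (conj s * s) ^ 2 := by
    simp only [map_mul, Complex.conj_conj, map_pow]
    ring
  have h2 : conj s * s = ((Complex.normSq s : ℝ) : ℂ) := by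
    rw [mul_comm, Complex.mul_conj]
  have h3 : (3 : ℂ) * (v + conj v) = ((3 * (2 * v.re) : ℝ) : ℂ) := by
    rw [Complex.add_conj]; push_cast; ring
  rw [h1, h2, h3, Complex.add_conj, Complex.add_conj, Complex.add_conj]
  norm_cast

theorem star_im_zero {K S : Matrix n n ℂ} {b : n → ℂ} (hc : Crit K S b)
    (hb : Function.Injective b) (k : n)
    {u : n → ℂ} (hu1 : (K + diagonal (fun _ => b k)) *ᵥ u = fun j => conj (S k j))
    (hu2 : star (K + diagonal (fun _ => b k)) *ᵥ u = fun j => S j k) :
    (-(CC S b k u * (YY S b k u * S - S * YY S b k u)).trace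
      - (S * CC S b k u * (S * CC S b k u)).trace).im = 0 := by
  have hy0 : yy S b k u k = 0 := yy_self S b k u
  have hc0 : cc S b k u k = 0 := by simp [cc]
  have hd0 : dd S b k u k = 0 := by simp [dd]
  have h1 := Pool.Agent.Helper54.OMC.trace_CYS S k (cc S b k u) (dd S b k u) (yy S b k u)
    (fun j => - conj (yy S b k u j)) hy0 (by simp [hy0]) hc0 hd0
  have h2 := Pool.Agent.Helper54.OMC.trace_SCSC S k (cc S b k u) (dd S b k u)
  rw [YY, CC, h1, h2]
  have hSc := S_mul_cc hc hb k hu1
  have hdS := dd_mul_S hc hb k hu2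
  set y := yy S b k u with hy
  set x := xx S b k u with hx
  set α : ℂ := ∑ j, conj (y j) * u j with hα
  set P : ℂ := ∑ j, conj (y j) * S j k with hPdef
  set Q : ℂ := ∑ j, S k j * y j with hQdef
  set E : ℂ := ∑ j, (b k - b j) * (conj (y j) * y j) with hE
  have hux : ∀ j, y j = u j + x j := fun j => rfl
  have e1 : (fun j => - conj (y j)) ⬝ᵥ (S *ᵥ cc S b k u) = α - conj (S k k) * P := by
    rw [hα, hPdef, Finset.mul_sum, ← Finset.sum_sub_distrib, dotProduct]
    refine Finset.sum_congr rfl fun j _ => ?_
    rw [hSc]; ring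
  have e2 : dd S b k u ⬝ᵥ y = E := by
    rw [hE, dotProduct]
    refine Finset.sum_congr rfl fun j _ => ?_
    rw [dd, ← hy]; ring
  have e3 : (fun j => - conj (y j)) ⬝ᵥ cc S b k u = - E := by
    rw [hE, dotProduct, ← Finset.sum_neg_distrib]
    refine Finset.sum_congr rfl fun j _ => ?_
    rw [cc, ← hy]; ring
  have e4 : (dd S b k u ᵥ* S) ⬝ᵥ y = - conj α + conj (S k k) * Q := by
    rw [hα, hQdef, map_sum, Finset.mul_sum, ← Finset.sum_neg_distrib, ← Finset.sum_add_distrib,
      dotProduct]
    refine Finset.sum_congr rfl fun j _ => ?_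
    rw [hdS, map_mul, Complex.conj_conj]; ring
  have e5 : ∑ j, dd S b k u j * u j = E + conj Q := by
    rw [hE, hQdef, map_sum, ← Finset.sum_add_distrib]
    refine Finset.sum_congr rfl fun j _ => ?_
    by_cases hj : j = k
    · subst hj
      rw [dd, ← hy, hy0]; simp
    · rw [dd, ← hy, map_mul, S_kj hc hb k u hj, ← hx, map_mul, Complex.conj_conj,
        Complex.conj_conj]
      have := hux j
      linear_combination ((b j - b k) * conj (y j)) * this
  have e6 : dd S b k u ⬝ᵥ (S *ᵥ cc S b k u)
      = -(E + conj Q) + conj (S k k) * (-conj (u k) + conj (S k k) * S k k) := by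
    have h6 : dd S b k u ⬝ᵥ (S *ᵥ cc S b k u)
        = - ∑ j, dd S b k u j * u j + conj (S k k) * ∑ j, dd S b k u j * S j k := by
      rw [dotProduct, Finset.mul_sum, ← Finset.sum_neg_distrib, ← Finset.sum_add_distrib]
      refine Finset.sum_congr rfl fun j _ => ?_
      rw [hSc]; ring
    have h7 : ∑ j, dd S b k u j * S j k = (dd S b k u ᵥ* S) k := rfl
    rw [h6, e5, h7, hdS]
  have hPQ : P = Q - conj (u k) * S k k + u k * S k k := by
    have hs := u_sym k hu1 hu2
    have h8 : P = ∑ j, conj (u j) * S j k + ∑ j, conj (x j) * S j k := by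
      rw [hPdef, ← Finset.sum_add_distrib]
      refine Finset.sum_congr rfl fun j _ => ?_
      rw [hux, map_add]; ring
    have h9 : Q = ∑ j, S k j * u j + ∑ j, S k j * x j := by
      rw [hQdef, ← Finset.sum_add_distrib]
      refine Finset.sum_congr rfl fun j _ => ?_
      rw [hux]; ring
    have h10 : ∑ j, conj (x j) * S j k
        = ∑ j, S k j * x j + (- conj (u k) * S k k + u k * S k k) := by
      have h11 : ∀ j, conj (x j) * S j k = S k j * x j
          + (if j = k then (- conj (u k) * S k k + u k * S k k) else 0) := by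
        intro j
        by_cases hj : j = k
        · subst hj
          rw [if_pos rfl, hx]
          simp only [xx, if_true, map_neg]
          ring
        · rw [if_neg hj, S_jk hb S k u hj, S_kj hc hb k u hj, ← hx]; ring
      rw [Finset.sum_congr rfl fun j _ => h11 j, Finset.sum_add_distrib, Finset.sum_ite_eq']
      simp
    rw [h8, h9, hs, h10]; ring
  rw [e1, e2, e3, e4, e6, hSc, hdS]
  have := star_im_scalar α (S k k) P Q E (u k) hPQ
  rw [← this]
  congr 1
  ring

end Pool.Agent.Helper56.CN
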